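import Pool.Agent.H387R2.MB10

set_option autoImplicit false

/-! # The choice of the modulus, the class and the shifts -/

namespace Pool.Agent.Y848.MS

open Finset
open Pool.Agent.H387R2.MB
open Pool.Agent.H387R2 (Uni.WW Uni.WW_pos)

/-- the configuration: `2 K` shifts in pairs `h - 1, h` -/
structure Cfg (K y c V a0 H : ℕ) (t : Fin (2 * K) → ℕ) : Prop where
  vpos : 0 < V
  vsq : Squarefree V
  small : ∀ q : ℕ, q.Prime → q ≤ y → q ∣ V
  tpos : ∀ j, 1 ≤ t j
  tH : ∀ j, t j ≤ H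
  inj : Function.Injective t
  dt : DT (4 * V).primeFactors t
  cop : ∀ n : ℕ, n ≡ a0 [MOD 4 * V] → ∀ j : Fin (2 * K), (j : ℕ) % 2 = 1 → (n + t j).Coprime (4 * V)
  cop1 : ∀ n : ℕ, n ≡ a0 [MOD 4 * V] → ∀ j : Fin (2 * K), (j : ℕ) % 2 = 0 → ∀ q : ℕ, q.Prime → q ∣ 4 * V →
    q ∣ n + t j → q = 2
  cls : ∀ n : ℕ, n ≡ a0 [MOD 4 * V] → ∀ j : Fin (2 * K), (j : ℕ) % 2 = 1 → n + t j ≡ c [MOD 4 * Uni.WW y]
  par : ∀ i : Fin (2 * K), (i : ℕ) % 2 = 1 → ∃ j : Fin (2 * K), (j : ℕ) % 2 = 0 ∧ t i = t j + 1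
  par' : ∀ j : Fin (2 * K), (j : ℕ) % 2 = 0 → ∃ i : Fin (2 * K), (i : ℕ) % 2 = 1 ∧ t i = t j + 1
  consec : ∀ n : ℕ, n ≡ a0 [MOD 4 * V] → 4 * V < n → ∀ x, 1 ≤ x → x ≤ H → (n + x).Prime →
    ∃ j : Fin (2 * K), (j : ℕ) % 2 = 1 ∧ x = t j

/-- a class avoiding fewer than `p` given classes -/
lemma exists_cl {J p : ℕ} (hp : J < p) (t : Fin J → ℕ) : ∃ a : ℕ, ∀ j, ¬ p ∣ a + t j := by
  by_contra hcon
  push Not at hcon
  have hf : ∀ a : Fin p, ∃ j, p ∣ (a : ℕ) + t j := fun a => hcon a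
  choose f hf using hf
  have hinj : Function.Injective f := by
    intro a b hab
    have h1 := hf a
    have h2 := hf b
    rw [hab] at h1
    have h3 : (p : ℤ) ∣ ((a : ℕ) : ℤ) - ((b : ℕ) : ℤ) := by
      have h4 := dvd_sub (Int.natCast_dvd_natCast.2 h1) (Int.natCast_dvd_natCast.2 h2)
      push_cast at h4
      have e : ((a : ℕ) : ℤ) + t (f b) - (((b : ℕ) : ℤ) + t (f b)) = ((a : ℕ) : ℤ) - ((b : ℕ) : ℤ) := by ring
      rwa [e] at h4
    have h5 : ((a : ℕ) : ℤ) - ((b : ℕ) : ℤ) = 0 := by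
      apply Int.eq_zero_of_abs_lt_dvd h3
      rw [abs_lt]
      have := a.2
      have := b.2
      constructor <;> omega
    exact Fin.ext (by omega)
  have := Fintype.card_le_of_injective f hinj
  rw [Fintype.card_fin, Fintype.card_fin] at this
  omega

theorem exists_cfg (K y c : ℕ) (hy : 2 * K + 3 ≤ y) (hc8 : c % 8 = 3)
    (hc0 : ∀ q : ℕ, q.Prime → q ≤ y → ¬ q ∣ c) (hc1 : ∀ q : ℕ, q.Prime → q ≤ y → c ≡ 1 [MOD q] → q = 2) :
    ∃ (V a0 H : ℕ) (t : Fin (2 * K) → ℕ), Cfg K y c V a0 H t := by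
  classical
  obtain ⟨W1, hW1d⟩ : ∃ W1, W1 = Uni.WW y := ⟨_, rfl⟩
  have hW1 : 0 < W1 := by rw [hW1d]; exact Uni.WW_pos y
  have hqW : ∀ q : ℕ, q.Prime → (q ∣ W1 ↔ q ≤ y) := by
    intro q hq; rw [hW1d]; exact dvd_WW hq
  have h2W1 : 2 ∣ W1 := (hqW 2 Nat.prime_two).2 (by omega)
  obtain ⟨W0, hW0d⟩ : ∃ W0, W0 = 4 * W1 := ⟨_, rfl⟩
  have hW0pos : 0 < W0 := by omega
  have h8W0 : 8 ∣ W0 := by
    obtain ⟨u, hu⟩ := h2W1
    exact ⟨u, by omega⟩
  have hW0ge : 8 ≤ W0 := Nat.le_of_dvd hW0pos h8W0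
  have hqW0 : ∀ q : ℕ, q.Prime → q ≤ y → q ∣ W0 := by
    intro q hq hqy
    rw [hW0d]
    exact ((hqW q hq).2 hqy).mul_left 4
  obtain ⟨H, hH⟩ : ∃ H, H = K * W0 := ⟨_, rfl⟩
  obtain ⟨t, ht⟩ : ∃ t : Fin (2 * K) → ℕ, ∀ j, t j = W0 * ((j : ℕ) / 2) + (W0 - 1) + (j : ℕ) % 2 :=
    ⟨_, fun _ => rfl⟩
  have htH : ∀ j, t j ≤ H := by
    intro j
    have h1 : (j : ℕ) / 2 + 1 ≤ K := by have := j.2; omega
    have h2 := Nat.mul_le_mul_left W0 h1
    rw [ht, hH, mul_comm K]
    have h3 : (j : ℕ) % 2 < 2 := Nat.mod_lt _ (by norm_num)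
    have h4 : W0 * ((j : ℕ) / 2 + 1) = W0 * ((j : ℕ) / 2) + W0 := by ring
    omega
  have ht1 : ∀ j, 1 ≤ t j := by
    intro j; rw [ht]; omega
  -- differences
  have htdiff : ∀ i j : Fin (2 * K), (t i : ℤ) - t j = (W0 : ℤ) * (((i : ℕ) / 2 : ℕ) - ((j : ℕ) / 2 : ℕ) : ℤ) +
      ((((i : ℕ) % 2 : ℕ) : ℤ) - (((j : ℕ) % 2 : ℕ) : ℤ)) := by
    intro i j
    rw [ht, ht]
    push_cast [Nat.cast_sub (by omega : 1 ≤ W0)]
    ring
  have htinj : Function.Injective t := by
    intro i j hij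
    have h1 := htdiff i j
    rw [hij, sub_self] at h1
    have hi2 : (i : ℕ) % 2 < 2 := Nat.mod_lt _ (by norm_num)
    have hj2 : (j : ℕ) % 2 < 2 := Nat.mod_lt _ (by norm_num)
    have h2 : (W0 : ℤ) ∣ ((((i : ℕ) % 2 : ℕ) : ℤ) - (((j : ℕ) % 2 : ℕ) : ℤ)) := by
      refine ⟨-((((i : ℕ) / 2 : ℕ) - ((j : ℕ) / 2 : ℕ) : ℤ)), ?_⟩
      linarith
    have h3 : ((((i : ℕ) % 2 : ℕ) : ℤ) - (((j : ℕ) % 2 : ℕ) : ℤ)) = 0 := by
      apply Int.eq_zero_of_abs_lt_dvd h2
      rw [abs_lt]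
      constructor <;> omega
    rw [h3, add_zero] at h1
    have h4 : ((((i : ℕ) / 2 : ℕ) - ((j : ℕ) / 2 : ℕ) : ℤ)) = 0 := by
      rcases mul_eq_zero.1 h1.symm with h5 | h5
      · exact absurd h5 (by exact_mod_cast hW0pos.ne')
      · exact h5
    apply Fin.ext
    omega
  -- the bound for the special primes
  obtain ⟨E0, hE0⟩ : ∃ E0, E0 = ER y (univ.image t) := ⟨_, rfl⟩
  have hE0p : ∀ p ∈ E0, p.Prime := by intro p hp; rw [hE0] at hp; exact mem_ER_prime hp
  have hE0s : ∀ p : ℕ, p.Prime → p ≤ y → p ∈ E0 := by intro p hp hpy; rw [hE0]; exact small_mem_ER hp hpy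
  have hE0d : DT E0 t := by rw [hE0]; exact DT_ER t (fun j => mem_image_of_mem t (mem_univ j)) htinj
  obtain ⟨M, hM⟩ : ∃ M, M = E0.sup id + H + y := ⟨_, rfl⟩
  have hE0M : ∀ p ∈ E0, p ≤ M := by
    intro p hp
    have := Finset.le_sup (f := id) hp
    simp only [id] at this
    omega
  set l : ℕ → ℕ := fun h => Nat.nth Nat.Prime (M + h) with hl
  have hlp : ∀ h, (l h).Prime := fun h => Nat.prime_nth_prime _
  have hlbig : ∀ h, M + h + 2 ≤ l h := fun h => Nat.add_two_le_nth_prime _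
  have hlinj : ∀ h h', l h = l h' → h = h' := by
    intro h h' he
    have := Nat.nth_injective Nat.infinite_setOfPred_prime he
    omega
  set Hs := (Icc 1 H).filter (fun h => ∀ j, h ≠ t j) with hHs
  obtain ⟨E, hE⟩ : ∃ E, E = E0 ∪ Hs.image l := ⟨_, rfl⟩
  have hEp : ∀ p ∈ E, p.Prime := by
    intro p hp
    rw [hE, mem_union, mem_image] at hp
    rcases hp with h | ⟨h, _, rfl⟩
    · exact hE0p p h
    · exact hlp h
  -- the classes
  have hcl : ∀ p : ℕ, ∃ a : ℕ, (p.Prime → p ≤ y → a = c) ∧ (p ∈ E → y < p → ∀ j, ¬ p ∣ a + t j) ∧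
      (∀ h ∈ Hs, p = l h → p ∣ a + h) := by
    intro p
    by_cases hpy : p ≤ y
    · refine ⟨c, fun _ _ => rfl, fun _ h => absurd h (by omega), fun h _ h2 => ?_⟩
      have := hlbig h
      omega
    · by_cases hpl : ∃ h ∈ Hs, p = l h
      · obtain ⟨h, hh, rfl⟩ := hpl
        refine ⟨h * (l h - 1), fun _ h => absurd h hpy, ?_, ?_⟩
        · intro _ _ j hd
          have e : h * (l h - 1) + h = h * l h := by
            have := (hlp h).one_lt.le
            obtain ⟨w, hw⟩ := Nat.exists_eq_add_of_le this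
            rw [hw, Nat.add_sub_cancel_left]
            ring
          have h3 : ((l h : ℕ) : ℤ) ∣ (t j : ℤ) - h := by
            have h4 : ((l h : ℕ) : ℤ) ∣ ((h * (l h - 1) + t j : ℕ) : ℤ) - ((h * (l h - 1) + h : ℕ) : ℤ) := by
              apply dvd_sub (Int.natCast_dvd_natCast.2 hd)
              rw [e]
              exact Int.natCast_dvd_natCast.2 (Dvd.intro_left _ rfl)
            push_cast at h4
            have e2 : (h : ℤ) * ((l h - 1 : ℕ) : ℤ) + t j - (h * ((l h - 1 : ℕ) : ℤ) + h) = t j - h := by ring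
            rwa [e2] at h4
          rw [hHs, mem_filter, mem_Icc] at hh
          have h5 : (t j : ℤ) - h = 0 := by
            apply Int.eq_zero_of_abs_lt_dvd h3
            rw [abs_lt]
            have := hlbig h
            have := htH j
            have := hh.1.2
            constructor <;> omega
          exact hh.2 j (by omega)
        · intro h' hh' he
          have := hlinj _ _ he
          subst this
          have e : h * (l h - 1) + h = h * l h := by
            have := (hlp h).one_lt.le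
            obtain ⟨w, hw⟩ := Nat.exists_eq_add_of_le this
            rw [hw, Nat.add_sub_cancel_left]
            ring
          rw [e]
          exact Dvd.intro_left _ rfl
      · obtain ⟨a, ha⟩ := exists_cl (J := 2 * K) (p := p) (by omega) t
        refine ⟨a, fun _ h => absurd h hpy, fun _ _ => ha, fun h hh he => absurd ⟨h, hh, he⟩ hpl⟩
  choose cl hcl1 hcl2 hcl3 using hcl
  set s : ℕ → ℕ := fun p => if p = 2 then 8 else p with hs
  have hs2 : s 2 = 8 := by simp [hs]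
  have hsn : ∀ p, p ≠ 2 → s p = p := fun p hp => by simp [hs, hp]
  have hspos : ∀ p ∈ E, s p ≠ 0 := by
    intro p hp
    have := (hEp p hp).pos
    by_cases h2 : p = 2
    · rw [h2, hs2]; norm_num
    · rw [hsn p h2]; omega
  have hpair : ∀ p ∈ E, ∀ q ∈ E, p ≠ q → Nat.Coprime (s p) (s q) := by
    intro p hp q hq hpq
    by_cases hp2 : p = 2
    · by_cases hq2 : q = 2
      · exact absurd (hp2.trans hq2.symm) hpq
      · rw [hp2, hs2, hsn q hq2]
        have : Nat.Coprime (2 ^ 3) q := Nat.Coprime.pow_left 3 ((Nat.coprime_primes Nat.prime_two (hEp q hq)).2 (Ne.symm hq2))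
        exact this
    · by_cases hq2 : q = 2
      · rw [hq2, hs2, hsn p hp2]
        have : Nat.Coprime p (2 ^ 3) := Nat.Coprime.pow_right 3 ((Nat.coprime_primes (hEp p hp) Nat.prime_two).2 hp2)
        exact this
      · rw [hsn p hp2, hsn q hq2]
        exact (Nat.coprime_primes (hEp p hp) (hEp q hq)).2 hpq
  obtain ⟨a0, ha0⟩ := Nat.chineseRemainderOfFinset cl s E (fun i hi => hspos i hi)
    (fun i hi j hj hij => hpair i hi j hj hij)
  obtain ⟨V, hV⟩ : ∃ V, V = ∏ p ∈ E, p := ⟨_, rfl⟩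
  have h2E : 2 ∈ E := by
    rw [hE]; exact mem_union_left _ (hE0s 2 Nat.prime_two (by omega))
  have hVpos : 0 < V := by
    rw [hV]; exact prod_pos fun p hp => (hEp p hp).pos
  have hWs : 4 * V = ∏ p ∈ E, s p := by
    rw [hV, ← mul_prod_erase E (fun p => p) h2E, ← mul_prod_erase E s h2E, hs2, ← mul_assoc]
    have e : ∏ x ∈ E.erase 2, x = ∏ x ∈ E.erase 2, s x := by
      apply prod_congr rfl
      intro p hp
      rw [hsn p (ne_of_mem_erase hp)]
    rw [e]
    norm_num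
  have hqV : ∀ q : ℕ, q.Prime → (q ∣ V ↔ q ∈ E) := by
    intro q hq
    constructor
    · intro h
      rw [hV, Prime.dvd_finsetProd_iff hq.prime] at h
      obtain ⟨p, hp, hqp⟩ := h
      rwa [(Nat.prime_dvd_prime_iff_eq hq (hEp p hp)).1 hqp]
    · intro h
      rw [hV]; exact dvd_prod_of_mem (fun p => p) h
  have hqW4 : ∀ q : ℕ, q.Prime → (q ∣ 4 * V ↔ q ∈ E) := by
    intro q hq
    rw [← hqV q hq]
    constructor
    · intro h
      rcases hq.dvd_mul.1 h with h1 | h1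
      · have h3 : q ∣ 2 ^ 2 := by norm_num; exact h1
        have h4 := hq.dvd_of_dvd_pow h3
        rw [(Nat.prime_dvd_prime_iff_eq hq Nat.prime_two).1 h4]
        exact (hqV 2 Nat.prime_two).2 h2E
      · exact h1
    · intro h; exact h.mul_left 4
  have hpf : (4 * V).primeFactors = E := by
    ext q
    rw [Nat.mem_primeFactors]
    constructor
    · rintro ⟨h1, h2, _⟩; exact (hqW4 q h1).1 h2
    · intro h
      exact ⟨hEp q h, (hqW4 q (hEp q h)).2 h, by omega⟩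
  have hna : ∀ n : ℕ, n ≡ a0 [MOD 4 * V] → ∀ p ∈ E, n ≡ cl p [MOD s p] := by
    intro n hn p hp
    have h1 : s p ∣ 4 * V := by rw [hWs]; exact dvd_prod_of_mem _ hp
    exact (hn.of_dvd h1).trans (ha0 p hp)
  have hnp : ∀ n : ℕ, n ≡ a0 [MOD 4 * V] → ∀ p ∈ E, n ≡ cl p [MOD p] := by
    intro n hn p hp
    refine (hna n hn p hp).of_dvd ?_
    by_cases h2 : p = 2
    · rw [h2, hs2]; norm_num
    · rw [hsn p h2]
  have hsmallE : ∀ p : ℕ, p.Prime → p ≤ y → p ∈ E := by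
    intro p hp hpy
    rw [hE]; exact mem_union_left _ (hE0s p hp hpy)
  -- `n ≡ c` modulo `W0`
  have hn8 : ∀ n : ℕ, n ≡ a0 [MOD 4 * V] → n ≡ c [MOD 8] := by
    intro n hn
    have h1 := hna n hn 2 h2E
    rwa [hs2, hcl1 2 Nat.prime_two (by omega)] at h1
  have hnc : ∀ n : ℕ, n ≡ a0 [MOD 4 * V] → n ≡ c [MOD W0] := by
    intro n hn
    have h1 : n ≡ c [MOD 8] := hn8 n hn
    have h2 : n ≡ c [MOD W1] := by
      have h3 : W1 = ∏ p ∈ W1.primeFactors, p := by
        have := Nat.prod_primeFactors_of_squarefree (n := W1) (by rw [hW1d]; exact WW_sqf y)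
        exact this.symm
      rw [h3, Nat.modEq_iff_dvd]
      push_cast
      apply Finset.prod_dvd_of_coprime
      · intro p hp q hq hpq
        rw [mem_coe, Nat.mem_primeFactors] at hp hq
        simp only [Function.onFun]
        exact Nat.isCoprime_iff_coprime.2 ((Nat.coprime_primes hp.1 hq.1).2 hpq)
      · intro p hp
        rw [Nat.mem_primeFactors] at hp
        have hpy := (hqW p hp.1).1 hp.2.1
        have h4 := hnp n hn p (hsmallE p hp.1 hpy)
        rw [hcl1 p hp.1 hpy] at h4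
        exact Nat.modEq_iff_dvd.1 h4
    -- combine: lcm 8 W1 = 4 W1
    have h5 : (W0 : ℤ) ∣ (c : ℤ) - n := by
      have h6 := Nat.modEq_iff_dvd.1 h1
      have h7 := Nat.modEq_iff_dvd.1 h2
      obtain ⟨u, hu⟩ := h2W1
      have hu2 : Nat.Coprime 8 u := by
        have hsq : Squarefree W1 := by rw [hW1d]; exact WW_sqf y
        rw [hu] at hsq
        have h9 := Nat.coprime_of_squarefree_mul hsq
        have : Nat.Coprime (2 ^ 3) u := Nat.Coprime.pow_left 3 h9
        exact this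
      have e : (W0 : ℤ) = 8 * (u : ℤ) := by
        rw [hW0d, hu]; push_cast; ring
      rw [e]
      apply IsCoprime.mul_dvd
      · have := Nat.isCoprime_iff_coprime.2 hu2
        exact_mod_cast this
      · exact_mod_cast h6
      · refine dvd_trans ?_ h7
        rw [hu]; push_cast
        exact Dvd.intro_left _ rfl
    exact Nat.modEq_iff_dvd.2 h5
  have htodd : ∀ j : Fin (2 * K), (j : ℕ) % 2 = 1 → W0 ∣ t j := by
    intro j hj
    rw [ht, hj]
    refine ⟨(j : ℕ) / 2 + 1, ?_⟩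
    rw [mul_add, mul_one]
    omega
  have hteven : ∀ j : Fin (2 * K), (j : ℕ) % 2 = 0 → W0 ∣ t j + 1 := by
    intro j hj
    rw [ht, hj]
    refine ⟨(j : ℕ) / 2 + 1, ?_⟩
    rw [mul_add, mul_one]
    omega
  have hcls : ∀ n : ℕ, n ≡ a0 [MOD 4 * V] → ∀ j : Fin (2 * K), (j : ℕ) % 2 = 1 → n + t j ≡ c [MOD W0] := by
    intro n hn j hj
    have h1 : n + t j ≡ n + 0 [MOD W0] := Nat.ModEq.add_left n ((Nat.modEq_zero_iff_dvd).2 (htodd j hj))
    exact h1.trans (hnc n hn)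
  have hcls0 : ∀ n : ℕ, n ≡ a0 [MOD 4 * V] → ∀ j : Fin (2 * K), (j : ℕ) % 2 = 0 → n + t j + 1 ≡ c [MOD W0] := by
    intro n hn j hj
    have h1 : n + t j + 1 ≡ n + 0 [MOD W0] := by
      rw [add_assoc]
      exact Nat.ModEq.add_left n ((Nat.modEq_zero_iff_dvd).2 (hteven j hj))
    exact h1.trans (hnc n hn)
  refine ⟨V, a0, H, t, hVpos, ?_, fun q hq hqy => (hqV q hq).2 (hsmallE q hq hqy), ht1, htH, htinj, ?_, ?_, ?_, ?_, ?_, ?_, ?_⟩
  · rw [hV]
    apply Finset.squarefree_prod_of_pairwise_isCoprime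
    · intro i hi j hj hij
      exact Nat.coprime_iff_isRelPrime.1 ((Nat.coprime_primes (hEp i hi) (hEp j hj)).2 hij)
    · intro i hi
      exact (hEp i hi).prime.squarefree
  · rw [hpf]
    intro i j hij p hp hpE
    apply hE0d i j hij p hp
    intro h
    apply hpE
    rw [hE]; exact mem_union_left _ h
  · intro n hn j hj
    by_contra hcop
    obtain ⟨q, hq, hqt, hqW'⟩ := Nat.Prime.not_coprime_iff_dvd.1 hcop
    have hqE := (hqW4 q hq).1 hqW'
    by_cases hqy : q ≤ y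
    · have h1 := (hcls n hn j hj).of_dvd (hqW0 q hq hqy)
      exact hc0 q hq hqy ((h1.dvd_iff dvd_rfl).1 hqt)
    · have h1 := (hnp n hn q hqE).add_right (t j)
      exact hcl2 q hqE (by omega) j ((h1.dvd_iff dvd_rfl).1 hqt)
  · intro n hn j hj q hq hqW' hqt
    have hqE := (hqW4 q hq).1 hqW'
    by_cases hqy : q ≤ y
    · have h1 := (hcls0 n hn j hj).of_dvd (hqW0 q hq hqy)
      apply hc1 q hq hqy
      have h2 : n + t j + 1 ≡ 0 + 1 [MOD q] := Nat.ModEq.add_right 1 ((Nat.modEq_zero_iff_dvd).2 hqt)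
      rw [zero_add] at h2
      exact h1.symm.trans h2
    · have h1 := (hnp n hn q hqE).add_right (t j)
      exact absurd ((h1.dvd_iff dvd_rfl).1 hqt) (hcl2 q hqE (by omega) j)
  · intro n hn j hj
    have := hcls n hn j hj
    rwa [hW0d, hW1d] at this
  · intro i hi
    have hi2 := i.2
    refine ⟨⟨(i : ℕ) - 1, by omega⟩, by simp only; omega, ?_⟩
    rw [ht, ht]
    simp only
    have e1 : ((i : ℕ) - 1) / 2 = (i : ℕ) / 2 := by omega
    have e2 : ((i : ℕ) - 1) % 2 = 0 := by omega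
    rw [e1, e2, hi]
  · intro j hj
    have hj2 := j.2
    refine ⟨⟨(j : ℕ) + 1, by omega⟩, by simp only; omega, ?_⟩
    rw [ht, ht]
    simp only
    have e1 : ((j : ℕ) + 1) / 2 = (j : ℕ) / 2 := by omega
    have e2 : ((j : ℕ) + 1) % 2 = 1 := by omega
    rw [e1, e2, hj]
  · intro n hn hWn x hx1 hxH hpx
    by_contra hcon
    push Not at hcon
    by_cases hxt : ∃ j, x = t j
    · obtain ⟨j, hj⟩ := hxt
      have hj0 : (j : ℕ) % 2 = 0 := by
        have h2 : (j : ℕ) % 2 < 2 := Nat.mod_lt _ (by norm_num)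
        have := hcon j
        by_contra h0
        exact this (by omega) hj
      have h1 := (hcls0 n hn j hj0).of_dvd h8W0
      rw [← hj] at h1
      have h2 : (n + x + 1) % 8 = 3 := by
        have : (n + x + 1) % 8 = c % 8 := h1
        omega
      have h3 := hpx.eq_one_or_self_of_dvd 2 (by omega)
      omega
    · push Not at hxt
      have hxs : x ∈ Hs := by
        rw [hHs, mem_filter, mem_Icc]
        exact ⟨⟨hx1, hxH⟩, hxt⟩
      have hlE : l x ∈ E := by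
        rw [hE]; exact mem_union_right _ (mem_image_of_mem l hxs)
      have h1 := (hnp n hn (l x) hlE).add_right x
      have h2 := (h1.dvd_iff dvd_rfl).2 (hcl3 (l x) x hxs rfl)
      have h3 := (Nat.prime_dvd_prime_iff_eq (hlp x) hpx).1 h2
      have h4 : l x ∣ 4 * V := (hqW4 (l x) (hlp x)).2 hlE
      have h5 := Nat.le_of_dvd (by omega) h4
      omega

end Pool.Agent.Y848.MS
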