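import Pool.Agent.TH891.PR.P2
import Pool.Agent.Y848.MS.Cfg

set_option autoImplicit false

/-! # Classes in which given integers are nonresidues -/

namespace Pool.Agent.Y848.MS

open Finset
open Pool.Agent.H387R2.MB
open Pool.Agent.H387R2 (Uni.WW Uni.WW_pos)

lemma exists_u' {q : ℕ} (hq : q.Prime) (hq5 : 5 ≤ q) {τ : ℤ} (hτ : τ = 1 ∨ τ = -1) :
    ∃ u : ℕ, ¬ q ∣ u ∧ ¬ (u ≡ 1 [MOD q]) ∧ jacobiSym u q = τ := by
  have : Fact q.Prime := ⟨hq⟩
  have hodd : Odd q := hq.odd_of_ne_two (by omega)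
  rcases hτ with h | h
  · refine ⟨4, ?_, ?_, ?_⟩
    · intro hd
      have := Nat.le_of_dvd (by norm_num) hd
      omega
    · intro hd
      have h2 : (q : ℤ) ∣ 4 - 1 := by
        have := (Nat.modEq_iff_dvd.1 hd.symm)
        exact_mod_cast this
      have h3 : q ∣ 3 := by
        have h4 : (q : ℤ) ∣ ((3 : ℕ) : ℤ) := by
          have e : ((3 : ℕ) : ℤ) = 4 - 1 := by norm_num
          rw [e]; exact h2
        exact Int.natCast_dvd_natCast.1 h4
      have := Nat.le_of_dvd (by norm_num) h3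
      omega
    · rw [h]
      have := jacobiSym.at_four hodd
      push_cast
      rw [this]
  · have hchar : ringChar (ZMod q) ≠ 2 := by
      rw [ZMod.ringChar_zmod_n]; omega
    obtain ⟨a, ha⟩ := FiniteField.exists_nonsquare hchar
    have hu : jacobiSym (a.val : ℤ) q = -1 := by
      rw [ZMod.nonsquare_iff_jacobiSym_eq_neg_one]
      push_cast
      rwa [ZMod.natCast_zmod_val]
    refine ⟨a.val, ?_, ?_, ?_⟩
    · intro hd
      have h2 : ((a.val : ℤ)) % q = 0 % q := by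
        rw [Int.zero_emod]
        exact Int.emod_eq_zero_of_dvd (Int.natCast_dvd_natCast.2 hd)
      have h3 := jacobiSym.mod_left' h2
      rw [jacobiSym.zero_left hq.one_lt, hu] at h3
      norm_num at h3
    · intro hd
      have h2 : ((a.val : ℤ)) % q = 1 % q := by
        have := (Int.natCast_modEq_iff.2 hd)
        exact_mod_cast this
      have h3 := jacobiSym.mod_left' h2
      rw [jacobiSym.one_left, hu] at h3
      norm_num at h3
    · rw [hu, h]

lemma neg_one_cls {c q : ℕ} (hq : q.Prime) (hq2 : q ≠ 2) (h : (q : ℤ) ∣ (c : ℤ) + 1) :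
    ¬ q ∣ c ∧ ¬ (c ≡ 1 [MOD q]) := by
  constructor
  · intro hd
    have h1 : (q : ℤ) ∣ 1 := by
      have := dvd_sub h (Int.natCast_dvd_natCast.2 hd)
      simpa using this
    have h2 : q ∣ 1 := by exact_mod_cast h1
    exact hq.one_lt.ne' (Nat.dvd_one.1 h2)
  · intro hd
    have h1 : (q : ℤ) ∣ (c : ℤ) - 1 := by
      have := (Nat.modEq_iff_dvd.1 hd.symm)
      exact_mod_cast this
    have h2 : (q : ℤ) ∣ ((2 : ℕ) : ℤ) := by
      have := dvd_sub h h1
      have e : (c : ℤ) + 1 - (c - 1) = ((2 : ℕ) : ℤ) := by push_cast; ring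
      rwa [e] at this
    exact hq2 ((Nat.prime_dvd_prime_iff_eq hq Nat.prime_two).1 (Int.natCast_dvd_natCast.1 h2))

lemma dclass {D : ℤ} (hD : Squarefree D) (hodd : ¬ (2:ℤ) ∣ D) (h3 : ¬ (3:ℤ) ∣ D) (hD1 : D ≠ 1) :
    ∃ c : ℕ, c % 8 = 3 ∧ (∀ q : ℕ, q.Prime → q ∣ D.natAbs → ¬ q ∣ c ∧ ¬ (c ≡ 1 [MOD q])) ∧
      ∀ p : ℕ, p ≡ c [MOD 8 * D.natAbs] → jacobiSym D p = -1 := by
  by_cases hDm : D.natAbs = 1
  · have hDe : D = -1 := by omega
    refine ⟨3, rfl, ?_, ?_⟩
    · intro q hq hqD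
      rw [hDm] at hqD
      exact absurd (Nat.dvd_one.1 hqD) hq.one_lt.ne'
    · intro p hp
      rw [hDm, mul_one] at hp
      have hp8 : p % 8 = 3 := hp
      have hpodd : Odd p := by rw [Nat.odd_iff]; omega
      rw [hDe, jacobiSym.at_neg_one hpodd, ZMod.χ₄_nat_three_mod_four (by omega)]
  · have hDsq : Squarefree D.natAbs := Int.squarefree_natAbs.2 hD
    obtain ⟨q0, hq0, hq0D⟩ := Nat.exists_prime_and_dvd hDm
    have hnd : ∀ q : ℕ, q ∣ D.natAbs → (q : ℤ) ∣ D := fun q h => Int.natCast_dvd.2 h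
    have hq2 : ∀ q : ℕ, q.Prime → q ∣ D.natAbs → q ≠ 2 := by
      rintro q hq hqD rfl
      exact hodd (hnd 2 hqD)
    have hq02 : q0 ≠ 2 := hq2 q0 hq0 hq0D
    have hq03 : q0 ≠ 3 := by
      rintro rfl
      exact h3 (hnd 3 hq0D)
    have hq05 : 5 ≤ q0 := by
      have := hq0.two_le
      by_contra hcon
      have h4 : q0 = 4 := by omega
      rw [h4] at hq0
      exact absurd hq0 (by norm_num)
    obtain ⟨D', hD'⟩ := hnd q0 hq0D
    obtain ⟨M, hM⟩ : ∃ M, M = D'.natAbs := ⟨_, rfl⟩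
    have hDM : D.natAbs = q0 * M := by rw [hD', Int.natAbs_mul, hM, Int.natAbs_natCast]
    have hcop0 : Nat.Coprime q0 M := by
      rw [hDM] at hDsq
      exact Nat.coprime_of_squarefree_mul hDsq
    have hD0 : D ≠ 0 := by
      rintro rfl
      exact hodd (dvd_zero _)
    have hM0 : 0 < M := by
      rcases Nat.eq_zero_or_pos M with h0 | h0
      · rw [h0, mul_zero, Int.natAbs_eq_zero] at hDM; exact absurd hDM hD0
      · exact h0
    have hMd : M ∣ D.natAbs := by rw [hDM]; exact Dvd.intro_left _ rfl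
    have h2M : Nat.Coprime 2 M := by
      rw [Nat.Prime.coprime_iff_not_dvd Nat.prime_two]
      intro h
      exact hq2 2 Nat.prime_two (h.trans hMd) rfl
    have h8M : Nat.Coprime 8 M := by
      have : Nat.Coprime (2 ^ 3) M := Nat.Coprime.pow_left 3 h2M
      exact this
    obtain ⟨c', hc'1, hc'2⟩ := Nat.chineseRemainder h8M 3 (M - 1)
    have hc'8 : c' % 8 = 3 := hc'1
    have hc'M : (M : ℤ) ∣ (c' : ℤ) + 1 := by
      have h1 := Nat.modEq_iff_dvd.1 hc'2.symm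
      rw [Nat.cast_sub (by omega)] at h1
      have e : (c' : ℤ) + 1 = ((c' : ℤ) - ((M : ℤ) - ((1 : ℕ) : ℤ))) + M := by push_cast; ring
      rw [e]
      exact dvd_add h1 dvd_rfl
    have hc'odd : Odd c' := by rw [Nat.odd_iff]; omega
    have hgcd : Int.gcd D' c' = 1 := by
      have h1 : Nat.Coprime M c' := by
        by_contra hcon
        obtain ⟨q, hq, hqM, hqc⟩ := Nat.Prime.not_coprime_iff_dvd.1 hcon
        exact (neg_one_cls hq (hq2 q hq (hqM.trans hMd)) ((Int.natCast_dvd_natCast.2 hqM).trans hc'M)).1 hqc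
      rw [Int.gcd, Int.natAbs_natCast, ← hM]
      exact h1
    obtain ⟨τ', hτ'⟩ : ∃ τ', τ' = jacobiSym D' c' := ⟨_, rfl⟩
    have hτ'1 : τ' = 1 ∨ τ' = -1 := by rw [hτ']; exact jacobiSym.eq_one_or_neg_one hgcd
    obtain ⟨σ, hσ1, hσ⟩ : ∃ σ : ℤ, (σ = 1 ∨ σ = -1) ∧ ∀ p : ℕ, p % 4 = 3 →
        jacobiSym (q0 : ℤ) p = σ * jacobiSym (p : ℤ) q0 := by
      have hq0odd : Odd q0 := hq0.odd_of_ne_two hq02
      rcases Nat.odd_mod_four_iff.1 (Nat.odd_iff.1 hq0odd) with h1 | h1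
      · refine ⟨1, Or.inl rfl, fun p hp => ?_⟩
        rw [one_mul]
        exact jacobiSym.quadratic_reciprocity_one_mod_four h1 (by rw [Nat.odd_iff]; omega)
      · refine ⟨-1, Or.inr rfl, fun p hp => ?_⟩
        rw [neg_one_mul]
        exact jacobiSym.quadratic_reciprocity_three_mod_four h1 hp
    have hττ : -(τ' * σ) = 1 ∨ -(τ' * σ) = -1 := by
      rcases hτ'1 with h | h <;> rcases hσ1 with h' | h' <;> rw [h, h'] <;> norm_num
    obtain ⟨u, hu0, hu1, hu⟩ := exists_u' hq0 hq05 hττ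
    have hcop8 : Nat.Coprime (8 * M) q0 := by
      apply Nat.Coprime.mul_left
      · have : Nat.Coprime (2 ^ 3) q0 := Nat.Coprime.pow_left 3 ((Nat.coprime_primes Nat.prime_two hq0).2 hq02.symm)
        exact this
      · exact hcop0.symm
    obtain ⟨c, hc1, hc2⟩ := Nat.chineseRemainder hcop8 c' u
    have hc8 : c % 8 = 3 := by
      have h1 : c ≡ c' [MOD 8] := hc1.of_dvd (Dvd.intro _ rfl)
      exact h1.trans hc'1
    refine ⟨c, hc8, ?_, ?_⟩
    · intro q hq hqD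
      rw [hDM] at hqD
      rcases hq.dvd_mul.1 hqD with h | h
      · have h1 := (Nat.prime_dvd_prime_iff_eq hq hq0).1 h
        subst h1
        refine ⟨fun h2 => hu0 ((hc2.dvd_iff dvd_rfl).1 h2), fun h2 => hu1 (hc2.symm.trans h2)⟩
      · have h1 : c ≡ c' [MOD q] := hc1.of_dvd (h.mul_left 8)
        have h2 := neg_one_cls hq (hq2 q hq (h.trans hMd)) ((Int.natCast_dvd_natCast.2 h).trans hc'M)
        exact ⟨fun h3 => h2.1 ((h1.dvd_iff dvd_rfl).1 h3), fun h3 => h2.2 (h1.symm.trans h3)⟩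
    · intro p hp
      have hp8M : p ≡ c' [MOD 8 * M] := by
        refine (hp.of_dvd ?_).trans hc1
        rw [hDM]
        exact Nat.mul_dvd_mul_left 8 (Dvd.intro_left _ rfl)
      have hpu : p ≡ u [MOD q0] := by
        refine (hp.of_dvd ?_).trans hc2
        rw [hDM]
        exact (Dvd.intro _ rfl : q0 ∣ q0 * M).mul_left 8
      have hp8 : p % 8 = 3 := by
        have h1 : p ≡ c' [MOD 8] := hp8M.of_dvd (Dvd.intro _ rfl)
        exact h1.trans hc'1
      have hpodd : Odd p := by rw [Nat.odd_iff]; omega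
      have e1 : jacobiSym D' p = τ' := by
        rw [hτ', jacobiSym.mod_right D' hpodd, jacobiSym.mod_right D' hc'odd, ← hM]
        have h1 : p ≡ c' [MOD 4 * M] := hp8M.of_dvd (by
          refine Nat.mul_dvd_mul_right ?_ M; norm_num)
        have h2 : p % (4 * M) = c' % (4 * M) := h1
        rw [h2]
      have e2 : jacobiSym (p : ℤ) q0 = -(τ' * σ) := by
        rw [← hu]
        apply jacobiSym.mod_left'
        exact Int.natCast_modEq_iff.2 hpu
      rw [hD', jacobiSym.mul_left, hσ p (by omega), e1, e2]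
      rcases hτ'1 with h | h <;> rcases hσ1 with h' | h' <;> rw [h, h'] <;> norm_num

/-- a common class -/
theorem common_class (T : Finset ℤ) (hT : ∀ D ∈ T, Squarefree D ∧ ¬ (2:ℤ) ∣ D ∧ ¬ (3:ℤ) ∣ D ∧ D ≠ 1)
    (hcop : ∀ D ∈ T, ∀ D' ∈ T, D ≠ D' → IsCoprime D D') {y : ℕ} (hy : 2 ≤ y) (hyD : ∀ D ∈ T, D.natAbs ≤ y) :
    ∃ c : ℕ, c % 8 = 3 ∧ (∀ q : ℕ, q.Prime → q ≤ y → ¬ q ∣ c) ∧
      (∀ q : ℕ, q.Prime → q ≤ y → c ≡ 1 [MOD q] → q = 2) ∧
      ∀ D ∈ T, ∀ p : ℕ, p ≡ c [MOD 4 * Uni.WW y] → jacobiSym D p = -1 := by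
  classical
  have hcd : ∀ D : ℤ, ∃ c : ℕ, D ∈ T → c % 8 = 3 ∧
      (∀ q : ℕ, q.Prime → q ∣ D.natAbs → ¬ q ∣ c ∧ ¬ (c ≡ 1 [MOD q])) ∧
      ∀ p : ℕ, p ≡ c [MOD 8 * D.natAbs] → jacobiSym D p = -1 := by
    intro D
    by_cases hDT : D ∈ T
    · obtain ⟨h1, h2, h3, h4⟩ := hT D hDT
      obtain ⟨c, hc⟩ := dclass h1 h2 h3 h4
      exact ⟨c, fun _ => hc⟩
    · exact ⟨0, fun h => absurd h hDT⟩
  choose cd hcd using hcd
  -- local classes
  have hloc : ∀ q : ℕ, ∃ a : ℕ, (q = 2 → a = 3) ∧ (q.Prime → q ≠ 2 → ¬ q ∣ a ∧ ¬ (a ≡ 1 [MOD q])) ∧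
      (q.Prime → ∀ D ∈ T, q ∣ D.natAbs → a ≡ cd D [MOD q]) := by
    intro q
    by_cases hq2 : q = 2
    · refine ⟨3, fun _ => rfl, fun _ h => absurd hq2 h, ?_⟩
      intro hq D hDT hqD
      rw [hq2] at hqD
      exact absurd (Int.natCast_dvd.2 hqD) (hT D hDT).2.1
    · by_cases hex : q.Prime ∧ ∃ D ∈ T, q ∣ D.natAbs
      · obtain ⟨hq, D, hDT, hqD⟩ := hex
        refine ⟨cd D, fun h => absurd h hq2, fun _ _ => (hcd D hDT).2.1 q hq hqD, ?_⟩
        intro _ D' hD'T hqD'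
        by_cases hDD : D = D'
        · rw [hDD]
        · exfalso
          have h1 := hcop D hDT D' hD'T hDD
          have h2 : IsUnit (q : ℤ) := h1.isUnit_of_dvd' (Int.natCast_dvd.2 hqD) (Int.natCast_dvd.2 hqD')
          have h3 := Int.isUnit_iff_natAbs_eq.1 h2
          rw [Int.natAbs_natCast] at h3
          exact hq.one_lt.ne' h3
      · refine ⟨q - 1, fun h => absurd h hq2, ?_, ?_⟩
        · intro hq _
          apply neg_one_cls hq hq2
          rw [Nat.cast_sub hq.one_lt.le]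
          push_cast
          rw [sub_add_cancel]
        · intro hq D hDT hqD
          exact absurd ⟨hq, D, hDT, hqD⟩ hex
  choose loc hl1 hl2 hl3 using hloc
  set s : ℕ → ℕ := fun p => if p = 2 then 8 else p with hs
  have hs2 : s 2 = 8 := by simp [hs]
  have hsn : ∀ p, p ≠ 2 → s p = p := fun p hp => by simp [hs, hp]
  obtain ⟨E, hE⟩ : ∃ E, E = (y + 1).primesBelow := ⟨_, rfl⟩
  have hEp : ∀ p, p ∈ E ↔ p ≤ y ∧ p.Prime := by
    intro p; rw [hE, Nat.mem_primesBelow]; constructor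
    · intro h; exact ⟨by omega, h.2⟩
    · intro h; exact ⟨by omega, h.2⟩
  have hspos : ∀ p ∈ E, s p ≠ 0 := by
    intro p hp
    have := ((hEp p).1 hp).2.pos
    by_cases h2 : p = 2
    · rw [h2, hs2]; norm_num
    · rw [hsn p h2]; omega
  have hpair : ∀ p ∈ E, ∀ q ∈ E, p ≠ q → Nat.Coprime (s p) (s q) := by
    intro p hp q hq hpq
    have hpp := ((hEp p).1 hp).2
    have hqp := ((hEp q).1 hq).2
    by_cases hp2 : p = 2
    · by_cases hq2 : q = 2
      · exact absurd (hp2.trans hq2.symm) hpq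
      · rw [hp2, hs2, hsn q hq2]
        have : Nat.Coprime (2 ^ 3) q := Nat.Coprime.pow_left 3 ((Nat.coprime_primes Nat.prime_two hqp).2 (Ne.symm hq2))
        exact this
    · by_cases hq2 : q = 2
      · rw [hq2, hs2, hsn p hp2]
        have : Nat.Coprime p (2 ^ 3) := Nat.Coprime.pow_right 3 ((Nat.coprime_primes hpp Nat.prime_two).2 hp2)
        exact this
      · rw [hsn p hp2, hsn q hq2]
        exact (Nat.coprime_primes hpp hqp).2 hpq
  obtain ⟨c, hc⟩ := Nat.chineseRemainderOfFinset loc s E (fun i hi => hspos i hi)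
    (fun i hi j hj hij => hpair i hi j hj hij)
  have hc8 : c % 8 = 3 := by
    have h1 := hc 2 ((hEp 2).2 ⟨hy, Nat.prime_two⟩)
    rw [hs2, hl1 2 rfl] at h1
    exact h1
  have hcq : ∀ q : ℕ, q.Prime → q ≤ y → q ≠ 2 → c ≡ loc q [MOD q] := by
    intro q hq hqy hq2
    have h1 := hc q ((hEp q).2 ⟨hqy, hq⟩)
    rwa [hsn q hq2] at h1
  refine ⟨c, hc8, ?_, ?_, ?_⟩
  · intro q hq hqy hqc
    by_cases hq2 : q = 2
    · rw [hq2] at hqc; omega
    · exact (hl2 q hq hq2).1 (((hcq q hq hqy hq2).dvd_iff dvd_rfl).1 hqc)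
  · intro q hq hqy hqc
    by_contra hq2
    exact (hl2 q hq hq2).2 ((hcq q hq hqy hq2).symm.trans hqc)
  · intro D hDT p hp
    obtain ⟨hDsq, hD2, hD3, hD1⟩ := hT D hDT
    apply (hcd D hDT).2.2 p
    -- `p ≡ cd D` modulo `8 |D|`
    have hDy := hyD D hDT
    have hDn0 : D.natAbs ≠ 0 := by
      rw [Int.natAbs_ne_zero]
      rintro rfl
      exact hD2 (dvd_zero _)
    have h2W : 2 ∣ Uni.WW y := (dvd_WW Nat.prime_two).2 hy
    have h8W : 8 ∣ 4 * Uni.WW y := by
      obtain ⟨u, hu⟩ := h2W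
      exact ⟨u, by omega⟩
    have hp8 : p ≡ cd D [MOD 8] := by
      have h1 : p ≡ c [MOD 8] := hp.of_dvd h8W
      have h2 : c ≡ cd D [MOD 8] := by
        have h3 := (hcd D hDT).1
        change c % 8 = cd D % 8
        omega
      exact h1.trans h2
    have hpD : p ≡ cd D [MOD D.natAbs] := by
      have h3 := Nat.prod_primeFactors_of_squarefree (Int.squarefree_natAbs.2 hDsq)
      rw [← h3, Nat.modEq_iff_dvd]
      push_cast
      apply Finset.prod_dvd_of_coprime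
      · intro p hp q hq hpq
        rw [mem_coe, Nat.mem_primeFactors] at hp hq
        simp only [Function.onFun]
        exact Nat.isCoprime_iff_coprime.2 ((Nat.coprime_primes hp.1 hq.1).2 hpq)
      · intro q hq
        rw [Nat.mem_primeFactors] at hq
        have hqy : q ≤ y := (Nat.le_of_dvd (Nat.pos_of_ne_zero hDn0) hq.2.1).trans hDy
        have hq2 : q ≠ 2 := by
          intro h
          rw [h] at hq
          exact hD2 (Int.natCast_dvd.2 hq.2.1)
        have h4 : p ≡ c [MOD q] := hp.of_dvd (((dvd_WW hq.1).2 hqy).mul_left 4)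
        have h5 := (h4.trans (hcq q hq.1 hqy hq2)).trans (hl3 q hq.1 D hDT hq.2.1)
        exact Nat.modEq_iff_dvd.1 h5
    have hcop8 : Nat.Coprime 8 D.natAbs := by
      have h1 : Nat.Coprime 2 D.natAbs := by
        rw [Nat.Prime.coprime_iff_not_dvd Nat.prime_two]
        intro h
        exact hD2 (Int.natCast_dvd.2 h)
      have : Nat.Coprime (2 ^ 3) D.natAbs := Nat.Coprime.pow_left 3 h1
      exact this
    exact (Nat.modEq_and_modEq_iff_modEq_mul hcop8).1 ⟨hp8, hpD⟩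

end Pool.Agent.Y848.MS
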