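import Pool.Agent.Y848.MS.Pos2
import Pool.Agent.Y848.MS.Cfg
import Pool.Agent.TH891.PR.P3

set_option autoImplicit false

/-! # The engine: many good `n` -/

open Finset Filter Topology

namespace Pool.Agent.Y848.MS

open Pool.Agent.H378R2 Pool.Agent.H387R2.MB
open Pool.Agent.H387R2 (Uni.WW Uni.WW_pos)

/-- the odd indices -/
def Pi (K : ℕ) : Finset (Fin (2 * K)) := univ.filter (fun j => (j : ℕ) % 2 = 1)

lemma card_Pi (K : ℕ) : K ≤ (Pi K).card := by
  have h : (univ : Finset (Fin K)).card ≤ (Pi K).card := by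
    apply card_le_card_of_injOn (fun i : Fin K => (⟨2 * (i : ℕ) + 1, by have := i.2; omega⟩ : Fin (2 * K)))
    · intro i _
      rw [mem_coe, Pi, mem_filter]
      refine ⟨mem_univ _, ?_⟩
      simp only
      omega
    · intro i _ j _ h
      simp only [Fin.mk.injEq] at h
      exact Fin.ext (by omega)
  rwa [card_univ, Fintype.card_fin] at h

lemma tot_eq (W : ℕ) : (W.totient : ℝ) = W * BE W.primeFactors := by
  have h := Nat.totient_eq_mul_prod_factors W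
  have h2 : ((W.totient : ℚ) : ℝ) = ((W * ∏ p ∈ W.primeFactors, (1 - (p : ℚ)⁻¹) : ℚ) : ℝ) := by rw [h]
  push_cast at h2
  rw [h2]
  unfold BE
  simp only [one_div]

/-- good `n` -/
def Gd (k K : ℕ) (δ X : ℝ) (V : ℕ) (t : Fin (2 * K) → ℕ) (n : ℕ) : Prop :=
  k + 1 ≤ ((Pi K).filter (fun j => (n + t j).Prime)).card ∧ ∀ j, RgW δ X (4 * V) (n + t j)

open Classical in
theorem engine (k : ℕ) : ∃ K : ℕ, 1 ≤ K ∧ ∃ δ : ℝ, 0 < δ ∧ δ ≤ 1 / 10 ∧ ∃ c0 : ℝ, 0 < c0 ∧ ∃ z : ℕ,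
    ∀ (y c V a0 H : ℕ) (t : Fin (2 * K) → ℕ), z ≤ y → Cfg K y c V a0 H t → ∀ᶠ X : ℝ in atTop,
      CS X z (4 * V) (4 * V).primeFactors ∧
      c0 * QQ (2 * K) X (4 * V) (4 * V).primeFactors ≤
        ∑ n ∈ Icc 1 ⌊3 * X⌋₊, nu X (4 * V) a0 n * (if Gd k K δ X V t n then 1 else 0) := by
  obtain ⟨K, hK, δ, hδ, hδ1, c0, hc0, z, h⟩ := posU k 4 (by norm_num)
  refine ⟨K, hK, δ, hδ, hδ1, c0, hc0, z, ?_⟩
  intro y c V a0 H t hzy hC
  have hW : 0 < 4 * V := by have := hC.vpos; omega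
  have hcs := Pool.Agent.TH891.PR.cs_fix z (4 * V) hW (fun q hq hqz => (hC.small q hq (hqz.trans hzy)).mul_left 4)
  have hsq : Tendsto (fun X : ℝ => Real.sqrt X) atTop atTop := Real.tendsto_sqrt_atTop
  filter_upwards [h, hcs, hsq.eventually_ge_atTop (H : ℝ)] with X h1 h2 h3
  refine ⟨h2.1, ?_⟩
  have h4 := h1 (4 * V) V (4 * V).primeFactors a0 t (Pi K) h2.1 rfl hC.vsq hC.dt
    (by have := card_Pi K; omega)
    (fun j hj => hC.cop a0 (Nat.ModEq.refl _) j (by rw [Pi, mem_filter] at hj; exact hj.2))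
    (fun j => le_trans (by exact_mod_cast hC.tH j) h3)
    (by
      have e : (4 * V).primeFactors.filter (fun p => ¬ p ∣ 4 * V) = ∅ := by
        rw [filter_eq_empty_iff]
        intro p hp hnd
        exact hnd (Nat.dvd_of_mem_primeFactors hp)
      rw [e, sum_empty]
      exact hδ.le)
    (by
      rw [tot_eq]
      have : 0 ≤ ((4 * V : ℕ) : ℝ) * BE (4 * V).primeFactors := by
        have := (BE_pos h2.1.gs.pr).le
        positivity
      linarith)
  refine h4.trans (le_of_eq ?_)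
  apply sum_congr rfl
  intro n _
  congr 1
  unfold Gd
  split_ifs <;> rfl

/-- consequences of being good -/
theorem gd_str {k K : ℕ} {δ X : ℝ} {y c V a0 H : ℕ} {t : Fin (2 * K) → ℕ} (hC : Cfg K y c V a0 H t) {n : ℕ}
    (hn : n ≡ a0 [MOD 4 * V]) (hnV : 4 * V < n) (hG : Gd k K δ X V t n) :
    (k + 1 ≤ #((Ioc n (n + H)).filter Nat.Prime)) ∧
    ∀ p ∈ Ioc n (n + H), p.Prime → ∃ j : Fin (2 * K), (j : ℕ) % 2 = 0 ∧ p - 1 = n + t j ∧ p = n + t j + 1 ∧
      p ≡ c [MOD 4 * Uni.WW y] ∧ (∀ q : ℕ, q.Prime → q ∣ p - 1 → q ≠ 2 → ¬ q ∣ 4 * V ∧ Real.exp (δ * LL X) < q) := by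
  classical
  constructor
  · refine hG.1.trans ?_
    apply card_le_card_of_injOn (fun j => n + t j)
    · intro j hj
      rw [mem_coe, mem_filter] at hj
      rw [mem_coe, mem_filter, mem_Ioc]
      refine ⟨⟨?_, ?_⟩, hj.2⟩
      · have := hC.tpos j
        beta_reduce
        omega
      · have := hC.tH j
        beta_reduce
        omega
    · intro i _ j _ hij
      simp only at hij
      exact hC.inj (by omega)
  · intro p hp hpp
    rw [mem_Ioc] at hp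
    obtain ⟨x, hx⟩ : ∃ x, p = n + x := ⟨p - n, by omega⟩
    rw [hx] at hpp
    obtain ⟨i, hi, hxi⟩ := hC.consec n hn hnV x (by omega) (by omega) hpp
    obtain ⟨j, hj, hij⟩ := hC.par i hi
    refine ⟨j, hj, by omega, by omega, ?_, ?_⟩
    · rw [hx, hxi]; exact hC.cls n hn i hi
    · intro q hq hqp hq2
      have e : p - 1 = n + t j := by omega
      rw [e] at hqp
      have hqV : ¬ q ∣ 4 * V := fun h => hq2 (hC.cop1 n hn j hj q hq h hqp)
      exact ⟨hqV, rgW_prime (hG.2 j) hq hqV hqp⟩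

end Pool.Agent.Y848.MS
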