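import Pool.Agent.Y848.MS.Eng

set_option autoImplicit false

/-! # Sums over rough divisors -/

open Finset Filter Topology

namespace Pool.Agent.Y848.MS

open Pool.Agent.H378R2 Pool.Agent.H387R2.MB
open Pool.Agent.H387R2 (Uni.WW Uni.WW_pos)

/-- only large prime factors, none of them dividing `4 V` -/
def RD (δ X : ℝ) (V d : ℕ) : Prop := ∀ q : ℕ, q.Prime → q ∣ d → ¬ q ∣ 4 * V ∧ Real.exp (δ * LL X) < q

lemma LL_mono {Y X : ℝ} (hY : 0 < Y) (h : Y ≤ X) : LL Y ≤ LL X := by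
  unfold LL
  have := Real.log_le_log hY h
  linarith

lemma sum_biUnion_le' {ι α : Type*} [DecidableEq α] (s : Finset ι) (t : ι → Finset α) (f : α → ℝ)
    (hf : ∀ a, 0 ≤ f a) : ∑ a ∈ s.biUnion t, f a ≤ ∑ i ∈ s, ∑ a ∈ t i, f a := by
  classical
  induction s using Finset.induction_on with
  | empty => simp
  | insert i s hi ih =>
    rw [biUnion_insert, sum_insert hi]
    have h1 := sum_union_inter (s₁ := t i) (s₂ := s.biUnion t) (f := f)
    have h2 : 0 ≤ ∑ x ∈ t i ∩ s.biUnion t, f x := sum_nonneg fun a _ => hf a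
    linarith

open Classical in
lemma rough_block {δ : ℝ} (hδ : 0 < δ) : ∃ z : ℕ, ∀ V : ℕ, 0 < V → (∀ q : ℕ, q.Prime → q ≤ z → q ∣ V) →
    ∃ C : ℝ, 0 < C ∧ ∀ᶠ Y : ℝ in atTop, ∀ X : ℝ, Y ≤ X →
      (#((Icc 1 ⌊3 * Y⌋₊).filter (fun d : ℕ => (11 / 10 * Y ≤ (d : ℝ) ∧ (d : ℝ) ≤ 5 / 2 * Y) ∧ RD δ X V d)) : ℝ) ≤
        C * (Y / LL Y) := by
  obtain ⟨C1, hC1, z, h⟩ := rough_up 1 hδ
  refine ⟨z, fun V hV hVz => ?_⟩
  have hW : 0 < 4 * V := by omega
  have hcs := Pool.Agent.TH891.PR.cs_fix z (4 * V) hW (fun q hq hqz => (hVz q hq hqz).mul_left 4)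
  have hBE : 0 < BE (4 * V).primeFactors := BE_pos fun p hp => Nat.prime_of_mem_primeFactors hp
  refine ⟨40 * C1 / BE (4 * V).primeFactors, by positivity, ?_⟩
  filter_upwards [h, hcs, eventually_ge_atTop 4, LL_tendsto.eventually_ge_atTop 1] with Y h1 h2 h3 h4
  intro X hYX
  have hY0 : 0 < Y := by linarith
  have hL0 : 0 < LL Y := by linarith
  have hDT : DT (4 * V).primeFactors (fun _ : Fin 1 => 0) := by
    intro i j hij
    exact absurd (Subsingleton.elim i j) hij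
  have h5 : ∀ a0 ∈ range (4 * V), ∑ n ∈ Icc 1 ⌊3 * Y⌋₊, nu Y (4 * V) a0 n *
      (if ∀ _j : Fin 1, Rg δ Y (n + 0) then 1 else 0) ≤ C1 * QQ 1 Y (4 * V) (4 * V).primeFactors :=
    fun a0 _ => h1 (4 * V) (4 * V).primeFactors a0 (fun _ => 0) h2.1 hDT
  have h6 := sum_le_sum h5
  rw [sum_const, card_range, nsmul_eq_mul, sum_comm] at h6
  have hWr : (0:ℝ) < ((4 * V : ℕ) : ℝ) := by exact_mod_cast hW
  have h7 : ((4 * V : ℕ) : ℝ) * (C1 * QQ 1 Y (4 * V) (4 * V).primeFactors) ≤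
      2 * C1 / BE (4 * V).primeFactors * (Y / LL Y) := by
    unfold QQ
    rw [pow_one]
    have hM := MPhi_le Y h3
    calc ((4 * V : ℕ) : ℝ) * (C1 * (MPhi Y * (1 / ((4 * V : ℕ) : ℝ)) * (1 / (LL Y * BE (4 * V).primeFactors)))) =
        C1 * MPhi Y * (1 / (LL Y * BE (4 * V).primeFactors)) := by field_simp
      _ ≤ C1 * (2 * Y) * (1 / (LL Y * BE (4 * V).primeFactors)) := by gcongr
      _ = _ := by field_simp
  have h8 : (#((Icc 1 ⌊3 * Y⌋₊).filter (fun d : ℕ => (11 / 10 * Y ≤ (d : ℝ) ∧ (d : ℝ) ≤ 5 / 2 * Y) ∧ RD δ X V d)) : ℝ) ≤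
      20 * ∑ n ∈ Icc 1 ⌊3 * Y⌋₊, ∑ a0 ∈ range (4 * V), nu Y (4 * V) a0 n *
      (if ∀ _j : Fin 1, Rg δ Y (n + 0) then 1 else 0) := by
    rw [card_filter]
    push_cast
    rw [mul_sum]
    apply sum_le_sum
    intro n hn
    have hnn : 0 ≤ ∑ a0 ∈ range (4 * V), nu Y (4 * V) a0 n * (if ∀ _j : Fin 1, Rg δ Y (n + 0) then (1:ℝ) else 0) := by
      apply sum_nonneg
      intro a0 _
      apply mul_nonneg (nu_nonneg _ _ _ _)
      split_ifs <;> norm_num
    by_cases hc : (11 / 10 * Y ≤ (n : ℝ) ∧ (n : ℝ) ≤ 5 / 2 * Y) ∧ RD δ X V n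
    · rw [if_pos hc]
      obtain ⟨⟨hc1, hc2⟩, hc3⟩ := hc
      have hR : ∀ _j : Fin 1, Rg δ Y (n + 0) := by
        intro _ p hp hpn
        rw [add_zero] at hpn
        rw [mem_PS] at hp
        have h9 := (hc3 p hp.1 hpn).2
        have h10 : Real.exp (δ * LL Y) ≤ Real.exp (δ * LL X) := by
          apply Real.exp_le_exp.2
          exact mul_le_mul_of_nonneg_left (LL_mono hY0 hYX) hδ.le
        linarith [hp.2]
      have h9 : nu Y (4 * V) (n % (4 * V)) n * (if ∀ _j : Fin 1, Rg δ Y (n + 0) then (1:ℝ) else 0) ≤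
          ∑ a0 ∈ range (4 * V), nu Y (4 * V) a0 n * (if ∀ _j : Fin 1, Rg δ Y (n + 0) then (1:ℝ) else 0) := by
        apply single_le_sum (f := fun a0 => nu Y (4 * V) a0 n * (if ∀ _j : Fin 1, Rg δ Y (n + 0) then (1:ℝ) else 0))
        · intro a0 _
          apply mul_nonneg (nu_nonneg _ _ _ _)
          split_ifs <;> norm_num
        · rw [mem_range]; exact Nat.mod_lt _ hW
      have h10 : 1 / 20 ≤ nu Y (4 * V) (n % (4 * V)) n := by
        unfold nu
        rw [if_pos (Nat.mod_modEq n (4 * V)).symm]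
        apply Phi_mid
        · rw [le_div_iff₀ hY0]; exact hc1
        · rw [div_le_iff₀ hY0]; exact hc2
      have e9 : nu Y (4 * V) (n % (4 * V)) n * (if ∀ _j : Fin 1, Rg δ Y (n + 0) then (1:ℝ) else 0) =
          nu Y (4 * V) (n % (4 * V)) n := by rw [if_pos hR, mul_one]
      rw [e9] at h9
      have h11 := h10.trans h9
      linarith
    · rw [if_neg hc]
      linarith
  calc _ ≤ 20 * (((4 * V : ℕ) : ℝ) * (C1 * QQ 1 Y (4 * V) (4 * V).primeFactors)) := by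
        refine h8.trans ?_
        linarith
    _ ≤ 20 * (2 * C1 / BE (4 * V).primeFactors * (Y / LL Y)) := by linarith
    _ = _ := by ring

open Classical in
lemma rough_recip {δ : ℝ} (hδ : 0 < δ) : ∃ z : ℕ, ∀ V : ℕ, 0 < V → (∀ q : ℕ, q.Prime → q ≤ z → q ∣ V) →
    ∃ C : ℝ, 0 < C ∧ ∀ ε : ℝ, 0 < ε → ε ≤ 1 / 8 → ∀ᶠ X : ℝ in atTop,
      ∑ d ∈ (Icc 1 ⌊2 * Real.exp (Real.log X / 2)⌋₊).filter
        (fun d : ℕ => Real.exp ((1 / 2 - ε) * Real.log X) / 2 ≤ (d : ℝ) ∧ RD δ X V d), (1 : ℝ) / d ≤ C * ε := by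
  obtain ⟨z, h⟩ := rough_block hδ
  refine ⟨z, fun V hV hVz => ?_⟩
  obtain ⟨C, hC, h⟩ := h V hV hVz
  obtain ⟨Y0, hY0⟩ := eventually_atTop.1 h
  refine ⟨1612 * C, by positivity, ?_⟩
  intro ε hε hε8
  have he1 : Tendsto (fun X : ℝ => Real.exp (1 / 4 * Real.log X)) atTop atTop :=
    Real.tendsto_exp_atTop.comp (Real.tendsto_log_atTop.const_mul_atTop (by norm_num))
  filter_upwards [he1.eventually_ge_atTop Y0, eventually_ge_atTop 4, LL_tendsto.eventually_ge_atTop (12 / ε),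
    Real.tendsto_log_atTop.eventually_ge_atTop 100] with X h1 h2 h3 h4
  have hX0 : 0 < X := by linarith
  obtain ⟨L, hL⟩ : ∃ L, L = Real.log X := ⟨_, rfl⟩
  rw [← hL] at h1 h4 ⊢
  have hLLX : LL X = L / 200 := by rw [hL]; rfl
  have hLL0 : 0 < LL X := lt_of_lt_of_le (by positivity) h3
  obtain ⟨A, hA⟩ : ∃ A, A = Real.exp ((1 / 2 - ε) * L) / 2 := ⟨_, rfl⟩
  have hA0 : 0 < A := by rw [hA]; positivity
  obtain ⟨I, hI⟩ : ∃ I, I = ⌊2 + 2 * ε * L⌋₊ + 1 := ⟨_, rfl⟩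
  have hXe : X = Real.exp L := by rw [hL, Real.exp_log hX0]
  set S := (Icc 1 ⌊2 * Real.exp (L / 2)⌋₊).filter
        (fun d : ℕ => Real.exp ((1 / 2 - ε) * L) / 2 ≤ (d : ℝ) ∧ RD δ X V d) with hS
  have hlog2 : 1 / 2 ≤ Real.log 2 := by
    have := Real.log_two_gt_d9; linarith
  have h2X : 2 * Real.exp (L / 2) ≤ X := by
    have e : X = Real.exp (L / 2) * Real.exp (L / 2) := by
      rw [hXe, ← Real.exp_add]; congr 1; ring
    have e2 : 2 ≤ Real.exp (L / 2) := by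
      have := Real.add_one_le_exp (L / 2)
      linarith
    rw [e]
    exact mul_le_mul_of_nonneg_right e2 (Real.exp_pos _).le
  have hcov : S ⊆ (range I).biUnion (fun i => S.filter (fun d : ℕ => 2 ^ i * A ≤ (d : ℝ) ∧ (d : ℝ) ≤ 2 ^ (i + 1) * A)) := by
    intro d hd
    have hd' := hd
    rw [hS, mem_filter, mem_Icc, ← hA] at hd'
    obtain ⟨⟨hd1, hd2⟩, hd3, hd4⟩ := hd'
    have hd2' : (d : ℝ) ≤ 2 * Real.exp (L / 2) := (Nat.le_floor_iff (by positivity)).1 hd2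
    obtain ⟨i, hi1, hi2⟩ := exists_nat_pow_near (x := (d : ℝ) / A) (y := 2) (by rw [le_div_iff₀ hA0]; linarith) (by norm_num)
    rw [le_div_iff₀ hA0] at hi1
    rw [div_lt_iff₀ hA0] at hi2
    rw [mem_biUnion]
    refine ⟨i, ?_, mem_filter.2 ⟨hd, hi1, hi2.le⟩⟩
    rw [mem_range, hI, Nat.lt_succ_iff]
    apply Nat.le_floor
    have h5 : (2:ℝ) ^ i ≤ 4 * Real.exp (ε * L) := by
      have h6 : (2:ℝ) ^ i * A ≤ (4 * Real.exp (ε * L)) * A := by
        refine (hi1.trans hd2').trans (le_of_eq ?_)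
        rw [hA]
        have : Real.exp (ε * L) * Real.exp ((1 / 2 - ε) * L) = Real.exp (L / 2) := by
          rw [← Real.exp_add]; congr 1; ring
        calc 2 * Real.exp (L / 2) = 2 * (Real.exp (ε * L) * Real.exp ((1 / 2 - ε) * L)) := by rw [this]
          _ = _ := by ring
      exact le_of_mul_le_mul_right h6 hA0
    have h6 := Real.log_le_log (by positivity) h5
    rw [Real.log_pow, Real.log_mul (by norm_num) (Real.exp_pos _).ne', Real.log_exp] at h6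
    have h7 : Real.log 4 = 2 * Real.log 2 := by
      rw [show (4:ℝ) = 2 ^ 2 by norm_num, Real.log_pow]; norm_num
    rw [h7] at h6
    have hεL : 0 ≤ ε * L := by positivity
    have h8 : ((i : ℝ) - 2) * Real.log 2 ≤ ε * L := by linarith
    by_contra hcon
    push Not at hcon
    have h9 : 2 * ε * L < (i : ℝ) - 2 := by linarith
    nlinarith
  have hblk : ∀ i ∈ range I, ∑ d ∈ S.filter (fun d : ℕ => 2 ^ i * A ≤ (d : ℝ) ∧ (d : ℝ) ≤ 2 ^ (i + 1) * A), (1 : ℝ) / d ≤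
      4 * C / LL X := by
    intro i _
    obtain ⟨Y, hY⟩ : ∃ Y, Y = 2 ^ i * A / (11 / 10) := ⟨_, rfl⟩
    have hYA : 11 / 10 * Y = 2 ^ i * A := by rw [hY]; ring
    have h2i : (1:ℝ) ≤ 2 ^ i := one_le_pow₀ (by norm_num)
    have hYpos : 0 < Y := by rw [hY]; positivity
    rcases (S.filter (fun d : ℕ => 2 ^ i * A ≤ (d : ℝ) ∧ (d : ℝ) ≤ 2 ^ (i + 1) * A)).eq_empty_or_nonempty with he | ⟨d0, hd0⟩
    · rw [he, sum_empty]; positivity
    · rw [mem_filter, hS, mem_filter, mem_Icc] at hd0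
      have hd0' : (d0 : ℝ) ≤ 2 * Real.exp (L / 2) := (Nat.le_floor_iff (by positivity)).1 hd0.1.1.2
      have hYX : Y ≤ X := by
        have : 11 / 10 * Y ≤ X := by rw [hYA]; linarith [hd0.2.1]
        linarith
      have hY4 : Real.exp (1 / 4 * L) ≤ Y := by
        have h5 : A / (11 / 10) ≤ Y := by
          rw [hY]
          apply div_le_div_of_nonneg_right _ (by norm_num)
          nlinarith
        refine le_trans ?_ h5
        rw [hA, le_div_iff₀ (by norm_num), le_div_iff₀ (by norm_num)]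
        have h6 : Real.exp ((1 / 2 - ε) * L) = Real.exp (1 / 4 * L) * Real.exp ((1 / 4 - ε) * L) := by
          rw [← Real.exp_add]; congr 1; ring
        have h7 : 11 / 5 ≤ Real.exp ((1 / 4 - ε) * L) := by
          have h8 := Real.add_one_le_exp ((1 / 4 - ε) * L)
          nlinarith
        rw [h6]
        have h9 : 0 < Real.exp (1 / 4 * L) := Real.exp_pos _
        nlinarith
      have h5 := hY0 Y (h1.trans hY4) X hYX
      have hLLY : LL X / 4 ≤ LL Y := by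
        have h6 := Real.log_le_log (Real.exp_pos _) hY4
        rw [Real.log_exp] at h6
        rw [hLLX]
        unfold LL
        linarith
      have hLLY0 : 0 < LL Y := by linarith
      have hsub : S.filter (fun d : ℕ => 2 ^ i * A ≤ (d : ℝ) ∧ (d : ℝ) ≤ 2 ^ (i + 1) * A) ⊆
          (Icc 1 ⌊3 * Y⌋₊).filter (fun d : ℕ => (11 / 10 * Y ≤ (d : ℝ) ∧ (d : ℝ) ≤ 5 / 2 * Y) ∧ RD δ X V d) := by
        intro d hd
        rw [mem_filter, hS, mem_filter, mem_Icc] at hd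
        obtain ⟨⟨⟨hd1, _⟩, _, hd4⟩, hd5, hd6⟩ := hd
        have h7 : (d : ℝ) ≤ 5 / 2 * Y := by
          have h8 : 2 ^ (i + 1) * A = 2 * (11 / 10 * Y) := by rw [hYA]; ring
          rw [h8] at hd6
          linarith
        rw [mem_filter, mem_Icc]
        refine ⟨⟨hd1, Nat.le_floor (by linarith)⟩, ⟨by rw [hYA]; exact hd5, h7⟩, hd4⟩
      have h6 : ∑ d ∈ S.filter (fun d : ℕ => 2 ^ i * A ≤ (d : ℝ) ∧ (d : ℝ) ≤ 2 ^ (i + 1) * A), (1 : ℝ) / d ≤
          (#(S.filter (fun d : ℕ => 2 ^ i * A ≤ (d : ℝ) ∧ (d : ℝ) ≤ 2 ^ (i + 1) * A)) : ℝ) * (1 / Y) := by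
        rw [← nsmul_eq_mul]
        apply sum_le_card_nsmul
        intro d hd
        rw [mem_filter] at hd
        apply one_div_le_one_div_of_le hYpos
        linarith [hd.2.1]
      refine h6.trans ?_
      have h7 : (#(S.filter (fun d : ℕ => 2 ^ i * A ≤ (d : ℝ) ∧ (d : ℝ) ≤ 2 ^ (i + 1) * A)) : ℝ) ≤ C * (Y / LL Y) :=
        le_trans (by exact_mod_cast card_le_card hsub) h5
      calc _ ≤ C * (Y / LL Y) * (1 / Y) := by gcongr
        _ = C / LL Y := by field_simp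
        _ ≤ C / (LL X / 4) := by gcongr
        _ = 4 * C / LL X := by field_simp
  have hnn : ∀ d ∈ S, (0:ℝ) ≤ 1 / d := fun d _ => by positivity
  have h5 : ∑ d ∈ S, (1 : ℝ) / d ≤ ∑ i ∈ range I,
      ∑ d ∈ S.filter (fun d : ℕ => 2 ^ i * A ≤ (d : ℝ) ∧ (d : ℝ) ≤ 2 ^ (i + 1) * A), (1 : ℝ) / d := by
    refine (sum_le_sum_of_subset_of_nonneg hcov (fun d _ _ => by positivity)).trans ?_
    exact sum_biUnion_le' _ _ (fun d : ℕ => (1:ℝ) / d) (fun d => by positivity)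
  refine h5.trans ((sum_le_sum hblk).trans ?_)
  rw [sum_const, card_range, nsmul_eq_mul]
  have hIle : (I : ℝ) ≤ 3 + 2 * ε * L := by
    rw [hI]
    push_cast
    have : (⌊2 + 2 * ε * L⌋₊ : ℝ) ≤ 2 + 2 * ε * L := Nat.floor_le (by positivity)
    linarith
  have hL200 : L = 200 * LL X := by rw [hLLX]; ring
  have h12 : 12 / LL X ≤ ε := by
    rw [div_le_iff₀ hLL0]
    rw [div_le_iff₀ hε] at h3
    linarith
  calc (I : ℝ) * (4 * C / LL X) ≤ (3 + 2 * ε * L) * (4 * C / LL X) := by gcongr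
    _ = C * (12 / LL X) + 1600 * C * ε := by
        rw [hL200]; field_simp; ring
    _ ≤ C * ε + 1600 * C * ε := by gcongr
    _ ≤ _ := by nlinarith

end Pool.Agent.Y848.MS
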