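import Pool.Agent.Y848.MS.Mid1

set_option autoImplicit false

/-! # Few good `n` for which some `n + t_j` has a divisor near the square root -/

open Finset Filter Topology

namespace Pool.Agent.Y848.MS

open Pool.Agent.H378R2 Pool.Agent.H387R2.MB
open Pool.Agent.H387R2 (Uni.WW Uni.WW_pos)

lemma rd_omega {δ X : ℝ} (hδ : 0 < δ) (hX : 4 ≤ X) (hL : 1 ≤ LL X) {V d : ℕ} (hd : 1 ≤ d) (hdX : (d : ℝ) ≤ 4 * X)
    (h : RD δ X V d) : d.primeFactors.card ≤ ⌈400 / δ⌉₊ := by
  have h1 : RgW δ X (4 * V) d := by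
    intro p hp hpd
    rw [mem_filter, mem_PS] at hp
    have := (h p hp.1.1 hpd).2
    linarith [hp.1.2]
  have h2 := rgW_omega hδ hX hL hd hdX h1
  have h3 : d.primeFactors.filter (fun p => ¬ p ∣ 4 * V) = d.primeFactors := by
    rw [filter_eq_self]
    intro p hp
    rw [Nat.mem_primeFactors] at hp
    exact (h p hp.1 hp.2.1).1
  rwa [h3] at h2

open Classical in
theorem fix_d (K : ℕ) {δ : ℝ} (hδ : 0 < δ) : ∃ C : ℝ, 0 < C ∧ ∃ z : ℕ,
    ∀ (y c V a0 H : ℕ) (t : Fin (2 * K) → ℕ), z ≤ y → Cfg K y c V a0 H t → ∀ᶠ X : ℝ in atTop,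
      ∀ d : ℕ, 1 ≤ d → (d : ℝ) ≤ 2 * Real.exp (Real.log X / 2) → RD δ X V d → ∀ j : Fin (2 * K),
      ∑ n ∈ Icc 1 ⌊3 * X⌋₊, nu X (4 * V) a0 n *
        (if (∀ i, RgW δ X (4 * V) (n + t i)) ∧ d ∣ n + t j then 1 else 0) ≤
        C * QQ (2 * K) X (4 * V) (4 * V).primeFactors * (1 / d) + 5 * Real.exp (2 * LL X) := by
  obtain ⟨C, hC, z, h⟩ := rough_upD (2 * K) hδ
  obtain ⟨s, hs⟩ : ∃ s, s = ⌈400 / δ⌉₊ := ⟨_, rfl⟩
  refine ⟨C * (2 ^ s) ^ (2 * K), by positivity, z, ?_⟩
  intro y c V a0 H t hzy hCf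
  have hW : 0 < 4 * V := by have := hCf.vpos; omega
  have hcs := Pool.Agent.TH891.PR.cs_fix z (4 * V) hW (fun q hq hqz => (hCf.small q hq (hqz.trans hzy)).mul_left 4)
  have t1 : Tendsto (fun X : ℝ => LL X ^ (1 / 4 : ℝ)) atTop atTop :=
    (tendsto_rpow_atTop (by norm_num : (0:ℝ) < 1 / 4)).comp LL_tendsto
  have t2 : Tendsto (fun X : ℝ => Real.log (LL X)) atTop atTop := Real.tendsto_log_atTop.comp LL_tendsto
  have t3 : Tendsto (fun X : ℝ => Real.exp (2 / 5 * Real.log X)) atTop atTop :=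
    Real.tendsto_exp_atTop.comp (Real.tendsto_log_atTop.const_mul_atTop (by norm_num))
  filter_upwards [h, hcs, eventually_ge_atTop 4, LL_tendsto.eventually_ge_atTop 1, t1.eventually_ge_atTop (2 * (s : ℝ)),
    t2.eventually_ge_atTop (64 * (s : ℝ)), t3.eventually_ge_atTop (8 * (V : ℝ))] with X h1 h2 h3 h4 h5 h6 h7
  intro d hd1 hdX hRD j
  have hX0 : 0 < X := by linarith
  have hL0 : 0 < LL X := by linarith
  have hlog : 200 ≤ Real.log X := by unfold LL at h4; linarith
  have hXh : Real.exp (Real.log X / 2) * Real.exp (Real.log X / 2) = X := by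
    rw [← Real.exp_add]
    rw [show Real.log X / 2 + Real.log X / 2 = Real.log X by ring, Real.exp_log hX0]
  have he1 : 1 ≤ Real.exp (Real.log X / 2) := Real.one_le_exp (by linarith)
  have hd4 : (d : ℝ) ≤ 4 * X := by nlinarith
  have hom := rd_omega hδ h3 h4 hd1 hd4 hRD
  rw [← hs] at hom
  have hcop : Nat.Coprime (4 * V) d := by
    by_contra hcon
    obtain ⟨q, hq, hqV, hqd⟩ := Nat.Prime.not_coprime_iff_dvd.1 hcon
    exact (hRD q hq hqd).1 hqV
  obtain ⟨a1, ha1, ha2⟩ := Nat.chineseRemainder hcop a0 (t j * (d - 1))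
  obtain ⟨E, hE⟩ : ∃ E, E = (4 * V).primeFactors := ⟨_, rfl⟩
  obtain ⟨E', hE'⟩ : ∃ E', E' = (4 * V * d).primeFactors := ⟨_, rfl⟩
  have hE'u : E' = E ∪ d.primeFactors := by
    rw [hE', hE, Nat.primeFactors_mul (by omega) (by omega)]
  have hdisj : Disjoint E d.primeFactors := by
    rw [hE]; exact hcop.disjoint_primeFactors
  have hpr : ∀ p ∈ d.primeFactors, p.Prime := fun p hp => Nat.prime_of_mem_primeFactors hp
  have hGE : GE X z E' := by
    refine ⟨fun p hp => ?_, fun p hp hpz => ?_, ?_, ?_⟩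
    · rw [hE'] at hp; exact Nat.prime_of_mem_primeFactors hp
    · rw [hE'u, hE]
      exact mem_union_left _ (h2.1.gs.sm p hp hpz)
    · rw [hE'u, sum_union hdisj]
      have k1 := h2.1.gs.s1
      rw [← hE] at k1
      have k2 : ∑ p ∈ d.primeFactors, Real.log p / p ≤ s := by
        calc ∑ p ∈ d.primeFactors, Real.log p / p ≤ ∑ _p ∈ d.primeFactors, (1:ℝ) :=
              sum_le_sum fun p hp => log_div_le_one (hpr p hp)
          _ = #d.primeFactors := by rw [sum_const, nsmul_eq_mul, mul_one]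
          _ ≤ s := by exact_mod_cast hom
      linarith
    · rw [hE'u, sum_union hdisj]
      have k1 := h2.1.gs.s2
      rw [← hE] at k1
      have k2 : ∑ p ∈ d.primeFactors, (1:ℝ) / p ≤ s := by
        calc ∑ p ∈ d.primeFactors, (1:ℝ) / p ≤ ∑ _p ∈ d.primeFactors, (1:ℝ) := by
              apply sum_le_sum
              intro p hp
              have : (1:ℝ) ≤ p := by exact_mod_cast (hpr p hp).one_lt.le
              rw [div_le_one (by linarith)]; exact this
          _ = #d.primeFactors := by rw [sum_const, nsmul_eq_mul, mul_one]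
          _ ≤ s := by exact_mod_cast hom
      linarith
  have hW' : 0 < 4 * V * d := Nat.mul_pos hW (by omega)
  have hsize : ((4 * V * d : ℕ) : ℝ) * Real.exp (LL X * 2) ≤ X := by
    push_cast
    have k1 : Real.exp (LL X * 2) ≤ Real.exp (1 / 100 * Real.log X) := by
      apply Real.exp_le_exp.2
      unfold LL
      linarith
    have k2 : Real.exp (2 / 5 * Real.log X) * Real.exp (1 / 100 * Real.log X) ≤ Real.exp (Real.log X / 2) := by
      rw [← Real.exp_add]
      apply Real.exp_le_exp.2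
      linarith
    have hV0 : (0:ℝ) ≤ V := Nat.cast_nonneg V
    calc 4 * (V : ℝ) * d * Real.exp (LL X * 2) ≤ 4 * (V : ℝ) * (2 * Real.exp (Real.log X / 2)) * Real.exp (1 / 100 * Real.log X) := by
          gcongr
      _ = (8 * (V : ℝ)) * Real.exp (1 / 100 * Real.log X) * Real.exp (Real.log X / 2) := by ring
      _ ≤ Real.exp (2 / 5 * Real.log X) * Real.exp (1 / 100 * Real.log X) * Real.exp (Real.log X / 2) := by gcongr
      _ ≤ Real.exp (Real.log X / 2) * Real.exp (Real.log X / 2) := by gcongr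
      _ = X := hXh
  have hdv : ∀ p : ℕ, p.Prime → p ∉ E' → ¬ p ∣ 4 * V * d := by
    intro p hp hpE hpd
    apply hpE
    rw [hE', Nat.mem_primeFactors]
    exact ⟨hp, hpd, by omega⟩
  have hDT : DT E' t := by
    intro i i' hii p hp hpE
    apply hCf.dt i i' hii p hp
    intro hpE2
    apply hpE
    rw [hE'u, hE]
    exact mem_union_left _ hpE2
  have hmain := h1 (4 * V * d) E' a1 t hGE hW' hsize hdv hDT
  have hpt : ∀ n ∈ Icc 1 ⌊3 * X⌋₊, nu X (4 * V) a0 n * (if (∀ i, RgW δ X (4 * V) (n + t i)) ∧ d ∣ n + t j then 1 else 0) ≤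
      nu X (4 * V * d) a1 n * (if ∀ i, RgE δ X E' (n + t i) then 1 else 0) := by
    intro n _
    by_cases hc : n ≡ a0 [MOD 4 * V] ∧ ((∀ i, RgW δ X (4 * V) (n + t i)) ∧ d ∣ n + t j)
    · obtain ⟨hc1, hc2, hc3⟩ := hc
      have k3 : n ≡ a1 [MOD d] := by
        refine Nat.ModEq.trans ?_ ha2.symm
        have e : t j * (d - 1) + t j = t j * d := by
          obtain ⟨w, hw⟩ := Nat.exists_eq_add_of_le hd1
          rw [hw, Nat.add_sub_cancel_left]
          ring
        have k4 : n + t j ≡ t j * (d - 1) + t j [MOD d] := by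
          rw [e]
          exact ((Nat.modEq_zero_iff_dvd).2 hc3).trans ((Nat.modEq_zero_iff_dvd).2 (Dvd.intro_left _ rfl)).symm
        exact Nat.ModEq.add_right_cancel' (t j) k4
      have k4 : n ≡ a1 [MOD 4 * V] := hc1.trans ha1.symm
      have k5 : n ≡ a1 [MOD 4 * V * d] := (Nat.modEq_and_modEq_iff_modEq_mul hcop).1 ⟨k4, k3⟩
      have k6 : ∀ i, RgE δ X E' (n + t i) := by
        intro i p hp hpE hpn
        have hpW : ¬ p ∣ 4 * V := by
          intro hpW
          apply hpE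
          rw [hE'u, hE]
          exact mem_union_left _ (Nat.mem_primeFactors.2 ⟨(mem_PS.1 hp).1, hpW, by omega⟩)
        exact hc2 i p (mem_filter.2 ⟨hp, hpW⟩) hpn
      unfold nu
      rw [if_pos hc1, if_pos k5, if_pos ⟨hc2, hc3⟩, if_pos k6]
    · have k3 : nu X (4 * V) a0 n * (if (∀ i, RgW δ X (4 * V) (n + t i)) ∧ d ∣ n + t j then (1:ℝ) else 0) = 0 := by
        by_cases hn : n ≡ a0 [MOD 4 * V]
        · rw [if_neg (fun h => hc ⟨hn, h⟩), mul_zero]
        · unfold nu
          rw [if_neg hn, zero_mul]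
      rw [k3]
      apply mul_nonneg (nu_nonneg _ _ _ _)
      split_ifs <;> norm_num
  refine (sum_le_sum hpt).trans (hmain.trans ?_)
  apply add_le_add_left
  -- compare the densities
  have hBE : 0 < BE E := BE_pos (by rw [hE]; exact fun p hp => Nat.prime_of_mem_primeFactors hp)
  have hBEd : (1 / 2 : ℝ) ^ s ≤ BE d.primeFactors := by
    unfold BE
    calc (1 / 2 : ℝ) ^ s ≤ (1 / 2) ^ (#d.primeFactors) := pow_le_pow_of_le_one (by norm_num) (by norm_num) hom
      _ = ∏ _p ∈ d.primeFactors, (1 / 2 : ℝ) := by rw [prod_const]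
      _ ≤ _ := by
          apply Finset.prod_le_prod
          · intro p _; norm_num
          · intro p hp
            have : (2:ℝ) ≤ p := by exact_mod_cast (hpr p hp).two_le
            have k : 1 / (p : ℝ) ≤ 1 / 2 := one_div_le_one_div_of_le (by norm_num) this
            linarith
  have hBEE : BE E' = BE E * BE d.primeFactors := by
    unfold BE
    rw [hE'u, prod_union hdisj]
  have hBEd0 : 0 < BE d.primeFactors := BE_pos hpr
  have hd0 : (0:ℝ) < d := by exact_mod_cast hd1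
  have hM := MPhi_nonneg X
  have hWr : (0:ℝ) < ((4 * V : ℕ) : ℝ) := by exact_mod_cast hW
  have k7 : 1 / (LL X * BE E') ^ (2 * K) ≤ (2 ^ s) ^ (2 * K) * (1 / (LL X * BE E) ^ (2 * K)) := by
    rw [hBEE, mul_one_div, div_le_div_iff₀ (by positivity) (by positivity), one_mul, ← mul_pow]
    apply pow_le_pow_left₀ (by positivity)
    have k8 : 1 ≤ 2 ^ s * BE d.primeFactors := by
      calc (1:ℝ) = 2 ^ s * (1 / 2) ^ s := by rw [← mul_pow]; norm_num
        _ ≤ _ := by gcongr
    have k9 : 0 ≤ LL X * BE E := by positivity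
    nlinarith
  unfold QQ
  rw [← hE]
  have e1 : ((4 * V * d : ℕ) : ℝ) = ((4 * V : ℕ) : ℝ) * d := by push_cast; ring
  rw [e1]
  calc C * (MPhi X * (1 / (((4 * V : ℕ) : ℝ) * d)) * (1 / (LL X * BE E') ^ (2 * K))) ≤
      C * (MPhi X * (1 / (((4 * V : ℕ) : ℝ) * d)) * ((2 ^ s) ^ (2 * K) * (1 / (LL X * BE E) ^ (2 * K)))) := by gcongr
    _ = _ := by field_simp

open Classical in
/-- few good `n` with a divisor near the square root -/
theorem mid_small (K : ℕ) {δ : ℝ} (hδ : 0 < δ) : ∃ z : ℕ,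
    ∀ (y c V a0 H : ℕ) (t : Fin (2 * K) → ℕ), z ≤ y → 2 ≤ y → c % 8 = 3 → Cfg K y c V a0 H t →
      ∀ ρ : ℝ, 0 < ρ → ∃ ε : ℝ, 0 < ε ∧ ε ≤ 1 / 8 ∧ ∀ᶠ X : ℝ in atTop,
      ∑ n ∈ Icc 1 ⌊3 * X⌋₊, nu X (4 * V) a0 n *
        (if (∀ i, RgW δ X (4 * V) (n + t i)) ∧ (∃ j : Fin (2 * K), (j : ℕ) % 2 = 0 ∧ ∃ d : ℕ,
          Real.exp ((1 / 2 - ε) * Real.log X) ≤ d ∧ (d : ℝ) ≤ Real.exp ((1 / 2 + ε) * Real.log X) ∧ d ∣ n + t j)
        then 1 else 0) ≤ ρ * QQ (2 * K) X (4 * V) (4 * V).primeFactors := by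
  obtain ⟨C1, hC1, z1, h1⟩ := fix_d K hδ
  obtain ⟨z2, h2⟩ := rough_recip hδ
  refine ⟨max z1 z2, ?_⟩
  intro y c V a0 H t hzy hy2 hc8 hCf ρ hρ
  have hev1 := h1 y c V a0 H t ((le_max_left _ _).trans hzy) hCf
  obtain ⟨C2, hC2, h2⟩ := h2 V hCf.vpos (fun q hq hqz => hCf.small q hq (hqz.trans ((le_max_right _ _).trans hzy)))
  obtain ⟨ε, hε⟩ : ∃ ε, ε = min (1 / 8) (ρ / (2 * ((2 * K + 1) * C1 * C2))) := ⟨_, rfl⟩
  have hε0 : 0 < ε := by rw [hε]; exact lt_min (by norm_num) (by positivity)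
  have hε8 : ε ≤ 1 / 8 := by rw [hε]; exact min_le_left _ _
  have hερ : (2 * K + 1) * C1 * C2 * ε ≤ ρ / 2 := by
    have k : ε ≤ ρ / (2 * ((2 * K + 1) * C1 * C2)) := by rw [hε]; exact min_le_right _ _
    rw [le_div_iff₀ (by positivity)] at k
    linarith
  refine ⟨ε, hε0, hε8, ?_⟩
  have hcs := Pool.Agent.TH891.PR.cs_fix 0 (4 * V) (by have := hCf.vpos; omega)
    (fun q hq hqz => absurd hq.pos (by omega))
  have hlim := Real.tendsto_log_atTop.eventually (ev_pow_exp (3 + 2 * K) (2 / 5) ((2 * K + 1) * 10 * 40 / ρ) (by norm_num))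
  filter_upwards [hev1, h2 ε hε0 hε8, QQ_ge (2 * K), eventually_ge_atTop 4, LL_tendsto.eventually_ge_atTop 1,
    eventually_ge_atTop (H : ℝ), hcs, hlim] with X g1 g2 g3 g4 g5 g6 g7 g8
  have hX0 : 0 < X := by linarith
  have hlog : 200 ≤ Real.log X := by unfold LL at g5; linarith
  obtain ⟨L, hL⟩ : ∃ L, L = Real.log X := ⟨_, rfl⟩
  obtain ⟨Q, hQ⟩ : ∃ Q, Q = QQ (2 * K) X (4 * V) (4 * V).primeFactors := ⟨_, rfl⟩
  have hQge := g3 (4 * V) (4 * V).primeFactors g7.1.pos g7.1.le g7.1.gs.pr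
  rw [← hQ] at hQge g1 ⊢
  rw [← hL] at hlog g1 g2 g8 hQge ⊢
  have hXe : Real.exp L = X := by rw [hL, Real.exp_log hX0]
  have hXh : Real.exp (L / 2) * Real.exp (L / 2) = X := by
    rw [← Real.exp_add, show L / 2 + L / 2 = L by ring, hXe]
  set S := (Icc 1 ⌊2 * Real.exp (L / 2)⌋₊).filter
        (fun d : ℕ => Real.exp ((1 / 2 - ε) * L) / 2 ≤ (d : ℝ) ∧ RD δ X V d) with hS
  have hpt : ∀ n ∈ Icc 1 ⌊3 * X⌋₊, nu X (4 * V) a0 n *
        (if (∀ i, RgW δ X (4 * V) (n + t i)) ∧ (∃ j : Fin (2 * K), (j : ℕ) % 2 = 0 ∧ ∃ d : ℕ,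
          Real.exp ((1 / 2 - ε) * L) ≤ d ∧ (d : ℝ) ≤ Real.exp ((1 / 2 + ε) * L) ∧ d ∣ n + t j)
        then 1 else 0) ≤ ∑ j : Fin (2 * K), ∑ d ∈ S, nu X (4 * V) a0 n *
          (if (∀ i, RgW δ X (4 * V) (n + t i)) ∧ d ∣ n + t j then 1 else 0) := by
    intro n hn
    have hterm : ∀ (j : Fin (2 * K)) (d : ℕ), 0 ≤ nu X (4 * V) a0 n *
          (if (∀ i, RgW δ X (4 * V) (n + t i)) ∧ d ∣ n + t j then (1:ℝ) else 0) := by
      intro j d
      apply mul_nonneg (nu_nonneg _ _ _ _)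
      split_ifs <;> norm_num
    have hnn : 0 ≤ ∑ j : Fin (2 * K), ∑ d ∈ S, nu X (4 * V) a0 n *
          (if (∀ i, RgW δ X (4 * V) (n + t i)) ∧ d ∣ n + t j then (1:ℝ) else 0) :=
      sum_nonneg fun j _ => sum_nonneg fun d _ => hterm j d
    by_cases hc : (∀ i, RgW δ X (4 * V) (n + t i)) ∧ (∃ j : Fin (2 * K), (j : ℕ) % 2 = 0 ∧ ∃ d : ℕ,
          Real.exp ((1 / 2 - ε) * L) ≤ d ∧ (d : ℝ) ≤ Real.exp ((1 / 2 + ε) * L) ∧ d ∣ n + t j)
    · by_cases hn0 : nu X (4 * V) a0 n = 0
      · rw [hn0, zero_mul]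
        rw [hn0] at hnn
        exact hnn
      · -- `n > X` and `n ≡ a0`
        have hna : n ≡ a0 [MOD 4 * V] := by
          by_contra hcon
          apply hn0
          unfold nu
          rw [if_neg hcon]
        have hnX : X < n := by
          by_contra hcon
          push Not at hcon
          apply hn0
          unfold nu
          rw [Phi_eq_zero_of_le (by positivity) (by rw [div_le_one hX0]; exact hcon)]
          split_ifs <;> rfl
        rw [mem_Icc] at hn
        have hn3 : (n : ℝ) ≤ 3 * X := (Nat.le_floor_iff (by linarith)).1 hn.2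
        rw [if_pos hc, mul_one]
        obtain ⟨hc1, j, hj, d, hd1, hd2, hdm⟩ := hc
        obtain ⟨m, hm⟩ : ∃ m, m = n + t j := ⟨_, rfl⟩
        rw [← hm] at hdm
        have hmX : X ≤ m := by
          have : (n : ℝ) ≤ m := by rw [hm]; push_cast; linarith [(Nat.cast_nonneg (t j) : (0:ℝ) ≤ t j)]
          linarith
        have hm4 : (m : ℝ) ≤ 4 * X := by
          rw [hm]; push_cast
          have : (t j : ℝ) ≤ H := by exact_mod_cast hCf.tH j
          linarith
        have hm0 : 0 < m := by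
          have : (0:ℝ) < m := by linarith
          exact_mod_cast this
        obtain ⟨d', hdd⟩ := hdm
        have hd0 : 0 < d := by
          rcases Nat.eq_zero_or_pos d with h0 | h0
          · rw [h0, zero_mul] at hdd; omega
          · exact h0
        have hd'0 : 0 < d' := by
          rcases Nat.eq_zero_or_pos d' with h0 | h0
          · rw [h0, mul_zero] at hdd; omega
          · exact h0
        have hd0r : (0:ℝ) < d := by exact_mod_cast hd0
        have hmr : (m : ℝ) = d * d' := by rw [hdd]; push_cast; ring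
        have hd'1 : Real.exp ((1 / 2 - ε) * L) ≤ d' := by
          have k1 : Real.exp ((1 / 2 + ε) * L) * Real.exp ((1 / 2 - ε) * L) = X := by
            rw [← Real.exp_add, show (1 / 2 + ε) * L + (1 / 2 - ε) * L = L by ring, hXe]
          have k2 : (d : ℝ) * Real.exp ((1 / 2 - ε) * L) ≤ d * d' := by
            calc (d : ℝ) * Real.exp ((1 / 2 - ε) * L) ≤ Real.exp ((1 / 2 + ε) * L) * Real.exp ((1 / 2 - ε) * L) := by
                  gcongr
              _ = X := k1
              _ ≤ d * d' := by rw [← hmr]; exact hmX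
          exact le_of_mul_le_mul_left k2 hd0r
        obtain ⟨e, he⟩ : ∃ e, e = min d d' := ⟨_, rfl⟩
        have hee : e * e ≤ m := by
          rw [hdd]
          exact Nat.mul_le_mul (by rw [he]; exact min_le_left _ _) (by rw [he]; exact min_le_right _ _)
        have hem : e ∣ m := by
          rw [hdd, he]
          rcases le_total d d' with h | h
          · rw [min_eq_left h]; exact Dvd.intro _ rfl
          · rw [min_eq_right h]; exact Dvd.intro_left _ rfl
        have he0 : 0 < e := by rw [he]; exact lt_min hd0 hd'0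
        have he1 : Real.exp ((1 / 2 - ε) * L) ≤ e := by
          rw [he]
          rcases le_total d d' with h | h
          · rw [min_eq_left h]; exact hd1
          · rw [min_eq_right h]; exact hd'1
        have he2 : (e : ℝ) ≤ 2 * Real.exp (L / 2) := by
          have k1 : (e : ℝ) * e ≤ (2 * Real.exp (L / 2)) * (2 * Real.exp (L / 2)) := by
            have k2 : (e : ℝ) * e ≤ m := by exact_mod_cast hee
            calc (e : ℝ) * e ≤ 4 * X := k2.trans hm4
              _ = _ := by rw [← hXh]; ring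
          exact (mul_self_le_mul_self_iff (by positivity) (by positivity)).2 k1
        -- `m ≡ 2` modulo `8`
        have hm8 : m % 4 = 2 := by
          obtain ⟨i, hi, hij⟩ := hCf.par' j hj
          have k1 := hCf.cls n hna i hi
          have h2W : 2 ∣ Uni.WW y := (dvd_WW Nat.prime_two).2 hy2
          have h8W : 8 ∣ 4 * Uni.WW y := by
            obtain ⟨u, hu⟩ := h2W
            exact ⟨u, by omega⟩
          have k2 : n + t i ≡ c [MOD 8] := k1.of_dvd h8W
          have k3 : (n + t i) % 8 = c % 8 := k2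
          rw [hij] at k3
          omega
        -- the odd part
        obtain ⟨f, hfe, hf2, hfl⟩ : ∃ f, f ∣ e ∧ ¬ 2 ∣ f ∧ e ≤ 2 * f := by
          by_cases h2e : 2 ∣ e
          · obtain ⟨f, hf⟩ := h2e
            refine ⟨f, by rw [hf]; exact Dvd.intro_left _ rfl, ?_, by omega⟩
            intro h2f
            obtain ⟨g, hg⟩ := h2f
            obtain ⟨w, hw⟩ := hem
            rw [hf, hg] at hw
            have : m = 4 * (g * w) := by rw [hw]; ring
            omega
          · exact ⟨e, dvd_rfl, h2e, by omega⟩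
        have hfm : f ∣ m := hfe.trans hem
        have hf0 : 0 < f := by
          rcases Nat.eq_zero_or_pos f with h0 | h0
          · omega
          · exact h0
        have hfS : f ∈ S := by
          rw [hS, mem_filter, mem_Icc]
          refine ⟨⟨hf0, ?_⟩, ?_, ?_⟩
          · apply Nat.le_floor
            have : (f : ℝ) ≤ e := by exact_mod_cast Nat.le_of_dvd he0 hfe
            linarith
          · have : (e : ℝ) ≤ 2 * f := by exact_mod_cast hfl
            linarith
          · intro q hq hqf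
            have hqm : q ∣ n + t j := by rw [← hm]; exact hqf.trans hfm
            have hqV : ¬ q ∣ 4 * V := by
              intro hqV
              have := hCf.cop1 n hna j hj q hq hqV hqm
              rw [this] at hqf
              exact hf2 hqf
            exact ⟨hqV, rgW_prime (hc1 j) hq hqV hqm⟩
        have k1 : nu X (4 * V) a0 n = nu X (4 * V) a0 n *
            (if (∀ i, RgW δ X (4 * V) (n + t i)) ∧ f ∣ n + t j then (1:ℝ) else 0) := by
          rw [if_pos ⟨hc1, by rw [← hm]; exact hfm⟩, mul_one]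
        refine (le_of_eq k1).trans ?_
        refine le_trans (single_le_sum (f := fun d : ℕ => nu X (4 * V) a0 n *
          (if (∀ i, RgW δ X (4 * V) (n + t i)) ∧ d ∣ n + t j then (1:ℝ) else 0)) (fun d _ => hterm j d) hfS) ?_
        exact single_le_sum (f := fun j : Fin (2 * K) => ∑ d ∈ S, nu X (4 * V) a0 n *
          (if (∀ i, RgW δ X (4 * V) (n + t i)) ∧ d ∣ n + t j then (1:ℝ) else 0))
          (fun j _ => sum_nonneg fun d _ => hterm j d) (mem_univ j)
    · rw [if_neg hc, mul_zero]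
      exact hnn
  refine (sum_le_sum hpt).trans ?_
  rw [sum_comm]
  have hj : ∀ j ∈ (univ : Finset (Fin (2 * K))), ∑ n ∈ Icc 1 ⌊3 * X⌋₊, ∑ d ∈ S, nu X (4 * V) a0 n *
          (if (∀ i, RgW δ X (4 * V) (n + t i)) ∧ d ∣ n + t j then (1:ℝ) else 0) ≤
      C1 * Q * (C2 * ε) + 10 * (Real.exp (L / 2) * Real.exp (2 * LL X)) := by
    intro j _
    rw [sum_comm]
    have k1 : ∀ d ∈ S, ∑ n ∈ Icc 1 ⌊3 * X⌋₊, nu X (4 * V) a0 n *
          (if (∀ i, RgW δ X (4 * V) (n + t i)) ∧ d ∣ n + t j then (1:ℝ) else 0) ≤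
        C1 * Q * (1 / d) + 5 * Real.exp (2 * LL X) := by
      intro d hd
      rw [hS, mem_filter, mem_Icc] at hd
      exact g1 d hd.1.1 ((Nat.le_floor_iff (by positivity)).1 hd.1.2) hd.2.2 j
    refine (sum_le_sum k1).trans ?_
    rw [sum_add_distrib, ← mul_sum, sum_const, nsmul_eq_mul]
    have hQ0 : 0 ≤ Q := le_trans (by positivity) hQge
    have k2 : (#S : ℝ) ≤ 2 * Real.exp (L / 2) := by
      have k3 : #S ≤ ⌊2 * Real.exp (L / 2)⌋₊ := by
        refine (card_filter_le _ _).trans ?_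
        rw [Nat.card_Icc, Nat.add_sub_cancel]
      calc (#S : ℝ) ≤ (⌊2 * Real.exp (L / 2)⌋₊ : ℝ) := by exact_mod_cast k3
        _ ≤ _ := Nat.floor_le (by positivity)
    have k4 : (#S : ℝ) * (5 * Real.exp (2 * LL X)) ≤ 10 * (Real.exp (L / 2) * Real.exp (2 * LL X)) := by
      calc (#S : ℝ) * (5 * Real.exp (2 * LL X)) ≤ (2 * Real.exp (L / 2)) * (5 * Real.exp (2 * LL X)) := by gcongr
        _ = _ := by ring
    have k5 : C1 * Q * ∑ d ∈ S, (1:ℝ) / d ≤ C1 * Q * (C2 * ε) := mul_le_mul_of_nonneg_left g2 (by positivity)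
    linarith
  refine (sum_le_sum hj).trans ?_
  rw [sum_const, card_univ, Fintype.card_fin, nsmul_eq_mul]
  push_cast
  have hQ0 : 0 ≤ Q := le_trans (by positivity) hQge
  have hK0 : (0:ℝ) ≤ K := Nat.cast_nonneg K
  -- the error term
  have herr : (2 * (K:ℝ) + 1) * (10 * (Real.exp (L / 2) * Real.exp (2 * LL X))) ≤ ρ / 2 * Q := by
    refine le_trans ?_ (mul_le_mul_of_nonneg_left hQge (by positivity))
    have hl : 0 < L ^ (3 + 2 * K) := by positivity
    rw [mul_div_assoc', le_div_iff₀ (by positivity)]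
    have k1 : Real.exp (L / 2) * Real.exp (2 * LL X) * Real.exp (2 / 5 * L) ≤ X := by
      have : LL X = L / 200 := by rw [hL]; rfl
      rw [this, ← Real.exp_add, ← Real.exp_add, ← hXe]
      apply Real.exp_le_exp.2
      linarith
    have hP : 0 < Real.exp (L / 2) * Real.exp (2 * LL X) := by positivity
    have k2 : (Real.exp (L / 2) * Real.exp (2 * LL X)) * ((2 * K + 1) * 10 * 40 / ρ * L ^ (3 + 2 * K)) ≤ X :=
      (mul_le_mul_of_nonneg_left g8 hP.le).trans k1
    have k3 : (Real.exp (L / 2) * Real.exp (2 * LL X)) * ((2 * K + 1) * 10 * 40 / ρ * L ^ (3 + 2 * K)) * (ρ / 2) ≤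
        X * (ρ / 2) := mul_le_mul_of_nonneg_right k2 (by positivity)
    have k4 : (Real.exp (L / 2) * Real.exp (2 * LL X)) * ((2 * K + 1) * 10 * 40 / ρ * L ^ (3 + 2 * K)) * (ρ / 2) =
        (2 * K + 1) * (10 * (Real.exp (L / 2) * Real.exp (2 * LL X))) * (20 * L ^ (3 + 2 * K)) := by
      field_simp
      ring
    rw [k4] at k3
    linarith
  have hmain : (2 * (K:ℝ) + 1) * (C1 * Q * (C2 * ε)) ≤ ρ / 2 * Q := by
    calc (2 * (K:ℝ) + 1) * (C1 * Q * (C2 * ε)) = ((2 * K + 1) * C1 * C2 * ε) * Q := by ring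
      _ ≤ ρ / 2 * Q := mul_le_mul_of_nonneg_right hερ hQ0
  have hb : 0 ≤ C1 * Q * (C2 * ε) + 10 * (Real.exp (L / 2) * Real.exp (2 * LL X)) := by positivity
  nlinarith

end Pool.Agent.Y848.MS
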