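import Pool.Agent.H387R2.MB5

set_option autoImplicit false

/-! # Sieve weights: the contribution of the `n` with a small prime factor of one of the forms -/

open Finset Filter Topology
open scoped ContDiff

namespace Pool.Agent.Y848.MS

open Pool.Agent.H378R2 Pool.Agent.H387R2.MB

/-- contribution of the `n` with a small prime factor -/
theorem nonroughW {K B : ℕ} (f : Fin B → ℝ → ℝ) (c : Fin B → ℝ) (A : Finset (Fin K → Fin B))
    (hsm : ∀ l, ContDiff ℝ ∞ (f l)) (hcs : ∀ l, HasCompactSupport (f l)) (hf0 : ∀ l x, c l < x → f l x = 0)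
    (hc : ∀ l, 0 ≤ c l ∧ c l ≤ 1 / 2) (hA : ∀ a ∈ A, ∑ j, c (a j) ≤ 1) (hf1 : ∀ l x, |f l x| ≤ 1)
    (hII : 0 ≤ II f A) :
    ∃ C : ℝ, 0 ≤ C ∧ ∃ z : ℕ, ∀ δ : ℝ, 0 < δ → δ ≤ 1 / 10 → ∀ᶠ X : ℝ in atTop,
      ∀ (W : ℕ) (E : Finset ℕ) (a0 : ℕ) (t : Fin K → ℕ),
      CS X z W E → DT E t →
      (∑ p ∈ E.filter (fun p => ¬ p ∣ W), (1 : ℝ) / p ≤ δ) →
      ∑ n ∈ Icc 1 ⌊3 * X⌋₊, ∑ j : Fin K, ∑ p ∈ (PS δ X).filter (fun p => ¬ p ∣ W),
        nu X W a0 n * (if (p : ℤ) ∣ (n : ℤ) + t j then sqw E X f A (fun j => (n : ℤ) + t j) ^ 2 else 0) ≤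
        C * δ * ((MPhi X * (1 / (W : ℝ))) * (1 / (LL X * BE E) ^ K)) := by
  classical
  have hA' : ∀ (a : Fin K → Fin B) (j0 : Fin K), ∃ C : ℝ, 0 ≤ C ∧ (a ∈ A → ∀ X : ℝ, 4 ≤ X → 2 ≤ LL X →
      ∀ (W : ℕ) (E : Finset ℕ) (a0 p : ℕ) (t : Fin K → ℕ),
      0 < W → (∀ r : ℕ, r.Prime → r ∉ E → ¬ r ∣ W) → p.Prime → p ∉ E → GE X (32 * K + 2) (insert p E) →
      ((W * p : ℕ) : ℝ) ≤ Real.exp (Real.log X / 700) → DT E t →
      ∑ n ∈ Icc 1 ⌊3 * X⌋₊, nu X W a0 n * (if (p : ℤ) ∣ (n : ℤ) + t j0 then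
        ∏ j, (VVm E (RR X) (LL X) (f (a j)) ((n : ℤ) + t j) * VVm E (RR X) (LL X) (f (a j)) ((n : ℤ) + t j)) else 0) ≤
      (MPhi X * (1 / (W : ℝ))) * (1 / (LL X * BE E) ^ K) * (2 ^ K * C * ((Real.log p / LL X) ^ 2 / p)) +
        5 * 2 ^ (2 * K) * Real.exp (2 * LL X)) := by
    intro a j0
    by_cases ha : a ∈ A
    · obtain ⟨C, hC0, hC⟩ := stepA (fun j => f (a j)) (fun j => c (a j)) (fun _ => hsm _) (fun _ => hcs _)
        (fun _ x hx => hf0 _ x hx) (fun _ => hc _) (hA a ha) (fun _ x => hf1 _ x) j0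
      exact ⟨C, hC0, fun _ => hC⟩
    · exact ⟨0, le_rfl, fun h => absurd h ha⟩
  choose Ca hCa0 hCa using hA'
  obtain ⟨z1, hS1⟩ := S1up f c A hsm hcs hf0 hc hA hf1 1 one_pos
  set Csum : ℝ := ∑ j : Fin K, ∑ a ∈ A, (A.card : ℝ) * (2 ^ K * Ca a j) with hCsum
  have hCsum0 : 0 ≤ Csum := sum_nonneg fun j _ => sum_nonneg fun a _ => by
    have := hCa0 a j; positivity
  set Cerr : ℝ := K * ((A.card : ℝ) ^ 2 * 5) + K * ((A.card : ℝ) ^ 2 * (5 * 2 ^ (2 * K))) with hCerr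
  refine ⟨K * (II f A + 1) + 2 * Csum + 1, by positivity, max z1 (32 * K + 2), ?_⟩
  intro δ hδ hδ1
  have hr : Tendsto (fun X : ℝ => (LL X) ^ (1 / 4 : ℝ)) atTop atTop :=
    (tendsto_rpow_atTop (by norm_num)).comp LL_tendsto
  have hll : Tendsto (fun X : ℝ => Real.log (LL X)) atTop atTop := Real.tendsto_log_atTop.comp LL_tendsto
  have hWp : ∀ᶠ X : ℝ in atTop, Real.log X ^ 3 * Real.exp (1 / 10 * LL X) ≤ Real.exp (Real.log X / 700) := by
    have h1 : ∀ᶠ t : ℝ in atTop, 1 * t ^ 3 ≤ Real.exp ((1 / 1400) * t) :=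
      ev_pow_exp 3 (1 / 1400) 1 (by norm_num)
    filter_upwards [Real.tendsto_log_atTop.eventually h1, Real.tendsto_log_atTop.eventually_ge_atTop 0] with X h2 h3
    rw [one_mul] at h2
    calc Real.log X ^ 3 * Real.exp (1 / 10 * LL X) ≤ Real.exp ((1 / 1400) * Real.log X) * Real.exp (1 / 10 * LL X) := by
          gcongr
      _ = Real.exp ((1 / 1400) * Real.log X + 1 / 10 * LL X) := by rw [Real.exp_add]
      _ ≤ Real.exp (Real.log X / 700) := by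
          apply Real.exp_le_exp.2
          unfold LL
          linarith
  filter_upwards [hS1, sum_u2 hδ, exp_err K Cerr δ hδ, hWp, eventually_ge_atTop 4,
    LL_tendsto.eventually_ge_atTop 2, hr.eventually_ge_atTop 2, hll.eventually_ge_atTop 64,
    Real.tendsto_log_atTop.eventually_ge_atTop 1] with X h1 h2 h3 h4 h5 h6 h7 h8 h9
  intro W E a0 t hCS hDT hE1
  have hL0 : 0 < LL X := by linarith
  have hW0 : (0:ℝ) < W := by exact_mod_cast hCS.pos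
  have hM0 : 0 ≤ MPhi X := MPhi_nonneg X
  have hBE : 0 < BE E := BE_pos hCS.gs.pr
  set Q : ℝ := (MPhi X * (1 / (W : ℝ))) * (1 / (LL X * BE E) ^ K) with hQ
  have hQ0 : 0 ≤ Q := by positivity
  have hpexp : ∀ p ∈ PS δ X, (p : ℝ) ≤ Real.exp (1 / 10 * LL X) := by
    intro p hp
    refine (mem_PS.1 hp).2.trans (Real.exp_le_exp.2 ?_)
    nlinarith
  have hWpX : ∀ p ∈ PS δ X, ((W * p : ℕ) : ℝ) ≤ Real.exp (Real.log X / 700) := by
    intro p hp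
    push_cast
    calc (W : ℝ) * p ≤ Real.log X ^ 3 * Real.exp (1 / 10 * LL X) := by
          apply mul_le_mul hCS.le (hpexp p hp) (Nat.cast_nonneg _) (by positivity)
      _ ≤ _ := h4
  -- primes in E not dividing W
  have hinE : ∀ j : Fin K, ∀ p ∈ PS δ X, p ∈ E → ¬ p ∣ W →
      ∑ n ∈ Icc 1 ⌊3 * X⌋₊, nu X W a0 n *
        (if (p : ℤ) ∣ (n : ℤ) + t j then sqw E X f A (fun j => (n : ℤ) + t j) ^ 2 else 0) ≤
        Q * (II f A + 1) * (1 / p) + (A.card : ℝ) ^ 2 * 5 * Real.exp (2 * LL X) := by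
    intro j p hp hpE hpW
    have hpp := (mem_PS.1 hp).1
    have hp0 : (0:ℝ) < p := by exact_mod_cast hpp.pos
    obtain ⟨b, hb⟩ := class_p (a0 := a0) (t := t j) hCS.pos hpp hpW
    have hCW : CW X z1 (W * p) E := by
      refine ⟨(hCS.gs.toGE (by linarith)).mono (le_max_left _ _), Nat.mul_pos hCS.pos hpp.pos, hWpX p hp,
        fun r hr hrE hrd => ?_⟩
      rcases (Nat.Prime.dvd_mul hr).1 hrd with h | h
      · exact hCS.dv r hr hrE h
      · have : r = p := (Nat.prime_dvd_prime_iff_eq hr hpp).1 h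
        exact hrE (this ▸ hpE)
    have k1 := h1 (W * p) E b t hCW hDT
    rw [sum_congr rfl (fun n _ => nu_p hb n (sqw E X f A (fun j => (n : ℤ) + t j) ^ 2))]
    refine k1.trans (le_of_eq ?_)
    rw [hQ]
    push_cast
    field_simp
  -- primes not in E
  have hnE : ∀ j : Fin K, ∀ p ∈ PS δ X, p ∉ E →
      ∑ n ∈ Icc 1 ⌊3 * X⌋₊, nu X W a0 n *
        (if (p : ℤ) ∣ (n : ℤ) + t j then sqw E X f A (fun j => (n : ℤ) + t j) ^ 2 else 0) ≤
        Q * (∑ a ∈ A, (A.card : ℝ) * (2 ^ K * Ca a j)) * ((Real.log p / LL X) ^ 2 / p) +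
          (A.card : ℝ) ^ 2 * (5 * 2 ^ (2 * K)) * Real.exp (2 * LL X) := by
    intro j p hp hpE
    have hpp := (mem_PS.1 hp).1
    have hGE : GE X (32 * K + 2) (insert p E) := (hCS.gs.insert h7 h8 hpp hpE).mono (le_max_right _ _)
    have b1 : ∑ n ∈ Icc 1 ⌊3 * X⌋₊, nu X W a0 n *
        (if (p : ℤ) ∣ (n : ℤ) + t j then sqw E X f A (fun j => (n : ℤ) + t j) ^ 2 else 0) ≤
        ∑ a ∈ A, (A.card : ℝ) * ∑ n ∈ Icc 1 ⌊3 * X⌋₊, nu X W a0 n * (if (p : ℤ) ∣ (n : ℤ) + t j then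
          ∏ j, (VVm E (RR X) (LL X) (f (a j)) ((n : ℤ) + t j) * VVm E (RR X) (LL X) (f (a j)) ((n : ℤ) + t j)) else 0) := by
      simp_rw [mul_sum]
      rw [sum_comm]
      apply sum_le_sum
      intro n _
      have hnu := nu_nonneg X W a0 n
      split_ifs with hd
      · have := sqw_sq_le_sum E X f A (fun j => (n : ℤ) + t j)
        calc nu X W a0 n * sqw E X f A (fun j => (n : ℤ) + t j) ^ 2 ≤ nu X W a0 n * (A.card *
            ∑ a ∈ A, ∏ j, (VVm E (RR X) (LL X) (f (a j)) ((n : ℤ) + t j) *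
              VVm E (RR X) (LL X) (f (a j)) ((n : ℤ) + t j))) := mul_le_mul_of_nonneg_left this hnu
          _ = _ := by
              rw [mul_sum, mul_sum]
              apply sum_congr rfl
              intro a _
              ring
      · simp
    refine b1.trans ?_
    have b2 : ∀ a ∈ A, (A.card : ℝ) * ∑ n ∈ Icc 1 ⌊3 * X⌋₊, nu X W a0 n * (if (p : ℤ) ∣ (n : ℤ) + t j then
          ∏ j, (VVm E (RR X) (LL X) (f (a j)) ((n : ℤ) + t j) * VVm E (RR X) (LL X) (f (a j)) ((n : ℤ) + t j)) else 0) ≤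
        (A.card : ℝ) * (Q * (2 ^ K * Ca a j * ((Real.log p / LL X) ^ 2 / p)) + 5 * 2 ^ (2 * K) * Real.exp (2 * LL X)) := by
      intro a ha
      apply mul_le_mul_of_nonneg_left _ (Nat.cast_nonneg _)
      exact hCa a j ha X h5 h6 W E a0 p t hCS.pos hCS.dv hpp hpE hGE (hWpX p hp) hDT
    refine (sum_le_sum b2).trans (le_of_eq ?_)
    have b3 : ∀ a ∈ A, (A.card : ℝ) * (Q * (2 ^ K * Ca a j * ((Real.log p / LL X) ^ 2 / p)) + 5 * 2 ^ (2 * K) * Real.exp (2 * LL X)) =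
        Q * ((Real.log p / LL X) ^ 2 / p) * ((A.card : ℝ) * (2 ^ K * Ca a j)) +
          (A.card : ℝ) * (5 * 2 ^ (2 * K) * Real.exp (2 * LL X)) := by
      intro a _; ring
    rw [sum_congr rfl b3, sum_add_distrib, ← mul_sum, sum_const, nsmul_eq_mul]
    ring
  -- exchange
  have hex : ∑ n ∈ Icc 1 ⌊3 * X⌋₊, ∑ j : Fin K, ∑ p ∈ (PS δ X).filter (fun p => ¬ p ∣ W),
        nu X W a0 n * (if (p : ℤ) ∣ (n : ℤ) + t j then sqw E X f A (fun j => (n : ℤ) + t j) ^ 2 else 0) =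
      ∑ j : Fin K, ∑ p ∈ (PS δ X).filter (fun p => ¬ p ∣ W), ∑ n ∈ Icc 1 ⌊3 * X⌋₊,
        nu X W a0 n * (if (p : ℤ) ∣ (n : ℤ) + t j then sqw E X f A (fun j => (n : ℤ) + t j) ^ 2 else 0) := by
    rw [sum_comm]
    apply sum_congr rfl
    intro j _
    rw [sum_comm]
  rw [hex]
  have hone : ∀ j : Fin K, ∀ p ∈ PS δ X, ¬ p ∣ W → ∑ n ∈ Icc 1 ⌊3 * X⌋₊,
        nu X W a0 n * (if (p : ℤ) ∣ (n : ℤ) + t j then sqw E X f A (fun j => (n : ℤ) + t j) ^ 2 else 0) ≤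
      Q * (II f A + 1) * (if p ∈ E ∧ ¬ p ∣ W then (1 / (p : ℝ)) else 0) +
      Q * (∑ a ∈ A, (A.card : ℝ) * (2 ^ K * Ca a j)) * ((Real.log p / LL X) ^ 2 / p) +
      ((A.card : ℝ) ^ 2 * 5 + (A.card : ℝ) ^ 2 * (5 * 2 ^ (2 * K))) * Real.exp (2 * LL X) := by
    intro j p hp hpW
    have hp0 : (0:ℝ) < p := by exact_mod_cast (mem_PS.1 hp).1.pos
    have c1 : 0 ≤ Q * (∑ a ∈ A, (A.card : ℝ) * (2 ^ K * Ca a j)) * ((Real.log p / LL X) ^ 2 / p) := by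
      have : 0 ≤ ∑ a ∈ A, (A.card : ℝ) * (2 ^ K * Ca a j) := sum_nonneg fun a _ => by
        have := hCa0 a j; positivity
      positivity
    have c2 : 0 ≤ (A.card : ℝ) ^ 2 * 5 * Real.exp (2 * LL X) := by positivity
    have c3 : 0 ≤ (A.card : ℝ) ^ 2 * (5 * 2 ^ (2 * K)) * Real.exp (2 * LL X) := by positivity
    have c4 : 0 ≤ Q * (II f A + 1) := by positivity
    by_cases hpE : p ∈ E
    · have := hinE j p hp hpE hpW
      rw [if_pos ⟨hpE, hpW⟩, add_mul]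
      linarith
    · have := hnE j p hp hpE
      rw [if_neg (fun h => hpE h.1), mul_zero, zero_add, add_mul]
      linarith
  have hII1 : 0 ≤ II f A + 1 := by linarith
  have hsum0 : ∀ j : Fin K, 0 ≤ ∑ a ∈ A, (A.card : ℝ) * (2 ^ K * Ca a j) := fun j => sum_nonneg fun a _ => by
    have := hCa0 a j; positivity
  refine (sum_le_sum fun j _ => (sum_le_sum fun p hp => hone j p (mem_filter.1 hp).1 (mem_filter.1 hp).2).trans
    (sum_le_sum_of_subset_of_nonneg (filter_subset _ _) fun p _ _ => by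
      have c1 := hsum0 j
      have c2 : (0 : ℝ) ≤ (if p ∈ E ∧ ¬ p ∣ W then (1 / (p : ℝ)) else 0) := by
        split_ifs
        · positivity
        · exact le_rfl
      positivity)).trans ?_
  have hsplit : ∀ j : Fin K, ∑ p ∈ PS δ X, (Q * (II f A + 1) * (if p ∈ E ∧ ¬ p ∣ W then (1 / (p : ℝ)) else 0) +
      Q * (∑ a ∈ A, (A.card : ℝ) * (2 ^ K * Ca a j)) * ((Real.log p / LL X) ^ 2 / p) +
      ((A.card : ℝ) ^ 2 * 5 + (A.card : ℝ) ^ 2 * (5 * 2 ^ (2 * K))) * Real.exp (2 * LL X)) =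
      Q * (II f A + 1) * ∑ p ∈ PS δ X, (if p ∈ E ∧ ¬ p ∣ W then (1 / (p : ℝ)) else 0) +
      Q * (∑ a ∈ A, (A.card : ℝ) * (2 ^ K * Ca a j)) * ∑ p ∈ PS δ X, (Real.log p / LL X) ^ 2 / p +
      ((PS δ X).card : ℝ) * (((A.card : ℝ) ^ 2 * 5 + (A.card : ℝ) ^ 2 * (5 * 2 ^ (2 * K))) * Real.exp (2 * LL X)) := by
    intro j
    rw [sum_add_distrib, sum_add_distrib, ← mul_sum, ← mul_sum, sum_const, nsmul_eq_mul]
  rw [sum_congr rfl (fun j _ => hsplit j), sum_add_distrib, sum_add_distrib]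
  have hsE : ∑ p ∈ PS δ X, (if p ∈ E ∧ ¬ p ∣ W then (1 / (p : ℝ)) else 0) ≤ δ := by
    refine le_trans ?_ hE1
    rw [← sum_filter]
    apply sum_le_sum_of_subset_of_nonneg
    · intro p hp
      rw [mem_filter] at hp ⊢
      exact hp.2
    · intro p _ _; positivity
  have hcard := card_PS δ X
  have hexpδ : Real.exp (δ * LL X) ≤ Real.exp (LL X) := Real.exp_le_exp.2 (by nlinarith)
  have d1 : ∑ _j : Fin K, Q * (II f A + 1) * ∑ p ∈ PS δ X, (if p ∈ E ∧ ¬ p ∣ W then (1 / (p : ℝ)) else 0) ≤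
      K * (II f A + 1) * δ * Q := by
    rw [sum_const, nsmul_eq_mul, card_univ, Fintype.card_fin]
    have : Q * (II f A + 1) * ∑ p ∈ PS δ X, (if p ∈ E ∧ ¬ p ∣ W then (1 / (p : ℝ)) else 0) ≤ Q * (II f A + 1) * δ :=
      mul_le_mul_of_nonneg_left hsE (by positivity)
    calc (K : ℝ) * (Q * (II f A + 1) * ∑ p ∈ PS δ X, (if p ∈ E ∧ ¬ p ∣ W then (1 / (p : ℝ)) else 0)) ≤
        K * (Q * (II f A + 1) * δ) := mul_le_mul_of_nonneg_left this (Nat.cast_nonneg _)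
      _ = _ := by ring
  have d2 : ∑ j : Fin K, Q * (∑ a ∈ A, (A.card : ℝ) * (2 ^ K * Ca a j)) * ∑ p ∈ PS δ X, (Real.log p / LL X) ^ 2 / p ≤
      2 * Csum * δ * Q := by
    have e1 : ∀ j : Fin K, Q * (∑ a ∈ A, (A.card : ℝ) * (2 ^ K * Ca a j)) * ∑ p ∈ PS δ X, (Real.log p / LL X) ^ 2 / p ≤
        Q * (2 * δ) * (∑ a ∈ A, (A.card : ℝ) * (2 ^ K * Ca a j)) := by
      intro j
      have h0 : 0 ≤ ∑ a ∈ A, (A.card : ℝ) * (2 ^ K * Ca a j) := sum_nonneg fun a _ => by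
        have := hCa0 a j; positivity
      have h10 : ∑ p ∈ PS δ X, (Real.log p / LL X) ^ 2 / p ≤ 2 * δ := by
        refine h2.trans ?_
        nlinarith
      calc Q * (∑ a ∈ A, (A.card : ℝ) * (2 ^ K * Ca a j)) * ∑ p ∈ PS δ X, (Real.log p / LL X) ^ 2 / p ≤
          Q * (∑ a ∈ A, (A.card : ℝ) * (2 ^ K * Ca a j)) * (2 * δ) := mul_le_mul_of_nonneg_left h10 (by positivity)
        _ = _ := by ring
    refine (sum_le_sum fun j _ => e1 j).trans (le_of_eq ?_)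
    rw [← mul_sum, hCsum]
    ring
  have d3 : ∑ _j : Fin K, ((PS δ X).card : ℝ) * (((A.card : ℝ) ^ 2 * 5 + (A.card : ℝ) ^ 2 * (5 * 2 ^ (2 * K))) * Real.exp (2 * LL X)) ≤
      δ * Q := by
    rw [sum_const, nsmul_eq_mul, card_univ, Fintype.card_fin]
    refine le_trans ?_ (h3 W E hCS.pos hCS.le hCS.gs.pr)
    have e5 : Real.exp (3 * LL X) = Real.exp (LL X) * Real.exp (2 * LL X) := by rw [← Real.exp_add]; ring_nf
    have e6 : ((PS δ X).card : ℝ) ≤ Real.exp (LL X) := hcard.trans hexpδ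
    calc (K : ℝ) * (((PS δ X).card : ℝ) * (((A.card : ℝ) ^ 2 * 5 + (A.card : ℝ) ^ 2 * (5 * 2 ^ (2 * K))) * Real.exp (2 * LL X))) ≤
        K * (Real.exp (LL X) * (((A.card : ℝ) ^ 2 * 5 + (A.card : ℝ) ^ 2 * (5 * 2 ^ (2 * K))) * Real.exp (2 * LL X))) := by
          gcongr
      _ = Cerr * Real.exp (3 * LL X) := by rw [hCerr, e5]; ring
  linarith

end Pool.Agent.Y848.MS
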