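import Mathlib

set_option autoImplicit false

/-! # Counting primes for which given integers have small order -/

namespace Pool.Agent.Y848.MS

open Finset

lemma card_pf_le {n k : ℕ} (hn : n ≠ 0) (h : n ≤ 2 ^ k) : n.primeFactors.card ≤ k := by
  have h1 : 2 ^ n.primeFactors.card ≤ n := by
    calc 2 ^ n.primeFactors.card ≤ ∏ p ∈ n.primeFactors, p := by
          rw [← prod_const]
          exact Finset.prod_le_prod' fun p hp => (Nat.prime_of_mem_primeFactors hp).two_le
      _ ≤ n := Nat.le_of_dvd (Nat.pos_of_ne_zero hn) (Nat.prod_primeFactors_dvd n)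
  exact (Nat.pow_le_pow_iff_right (by norm_num)).1 (h1.trans h)

/-- primes modulo which some `2 ≤ a ≤ A` has order at most `Y` -/
theorem small_order (A Y : ℕ) : ∃ B : Finset ℕ, B.card ≤ A * (Y * (Y * A)) ∧
    ∀ p : ℕ, p.Prime → ∀ a : ℕ, 2 ≤ a → a ≤ A → ∀ g : ℕ, 1 ≤ g → g ≤ Y → (a : ZMod p) ^ g = 1 → p ∈ B := by
  refine ⟨(Icc 2 A).biUnion fun a => (Icc 1 Y).biUnion fun g => (a ^ g - 1).primeFactors, ?_, ?_⟩
  · have h1 : ∀ a ∈ Icc 2 A, ((Icc 1 Y).biUnion fun g => (a ^ g - 1).primeFactors).card ≤ Y * (Y * A) := by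
      intro a ha
      rw [mem_Icc] at ha
      refine card_biUnion_le.trans ?_
      have h2 : ∀ g ∈ Icc 1 Y, (a ^ g - 1).primeFactors.card ≤ Y * A := by
        intro g hg
        rw [mem_Icc] at hg
        have h3 : 2 ≤ a ^ g := ha.1.trans (Nat.le_self_pow (by omega) a)
        apply card_pf_le (by omega)
        calc a ^ g - 1 ≤ a ^ g := Nat.sub_le _ _
          _ ≤ (2 ^ A) ^ g := Nat.pow_le_pow_left (ha.2.trans Nat.lt_two_pow_self.le) g
          _ ≤ (2 ^ A) ^ Y := Nat.pow_le_pow_right (by positivity) hg.2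
          _ = 2 ^ (Y * A) := by rw [← pow_mul, mul_comm]
      refine (sum_le_card_nsmul _ _ _ h2).trans ?_
      rw [Nat.card_Icc, smul_eq_mul, Nat.add_sub_cancel]
    refine card_biUnion_le.trans ((sum_le_card_nsmul _ _ _ h1).trans ?_)
    rw [Nat.card_Icc, smul_eq_mul]
    apply Nat.mul_le_mul_right
    omega
  · intro p hp a ha2 haA g hg1 hgY h
    have : Fact p.Prime := ⟨hp⟩
    rw [mem_biUnion]
    refine ⟨a, mem_Icc.2 ⟨ha2, haA⟩, ?_⟩
    rw [mem_biUnion]
    refine ⟨g, mem_Icc.2 ⟨hg1, hgY⟩, ?_⟩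
    have h3 : 2 ≤ a ^ g := ha2.trans (Nat.le_self_pow (by omega) a)
    rw [Nat.mem_primeFactors]
    refine ⟨hp, ?_, by omega⟩
    rw [← ZMod.natCast_eq_zero_iff, Nat.cast_sub (by omega)]
    push_cast
    rw [h, sub_self]

/-- the integer attached to an exponent vector -/
def Mv {r : ℕ} (b : Fin r → ℤ) (v : Fin r → ℤ) : ℤ := ∏ i, b i ^ (v i).toNat - ∏ i, b i ^ (-v i).toNat

lemma Mv_ne {r : ℕ} {b : Fin r → ℤ} (hb : ∀ i, 2 ≤ (b i).natAbs) (hc : ∀ i j, i ≠ j → IsCoprime (b i) (b j))
    {v : Fin r → ℤ} (hv : v ≠ 0) : Mv b v ≠ 0 := by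
  intro h
  unfold Mv at h
  rw [sub_eq_zero] at h
  obtain ⟨i, hi⟩ : ∃ i, v i ≠ 0 := by
    by_contra hcon
    push Not at hcon
    exact hv (funext hcon)
  have key : ∀ e f : Fin r → ℕ, ∏ i, b i ^ e i = ∏ i, b i ^ f i → e i ≠ 0 → f i ≠ 0 := by
    intro e f hef hei hfi
    have h1 : b i ∣ ∏ j, b j ^ e j := (dvd_pow_self (b i) hei).trans (dvd_prod_of_mem (fun j => b j ^ e j) (mem_univ i))
    rw [hef] at h1
    have h2 : IsCoprime (b i) (∏ j, b j ^ f j) := by
      apply IsCoprime.prod_right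
      intro j _
      by_cases hij : i = j
      · subst hij; rw [hfi, pow_zero]; exact isCoprime_one_right
      · exact (hc i j hij).pow_right
    have h3 : IsUnit (b i) := h2.isUnit_of_dvd' dvd_rfl h1
    have h4 := Int.isUnit_iff_natAbs_eq.1 h3
    have := hb i
    omega
  rcases lt_or_gt_of_ne hi with h1 | h1
  · have := key (fun i => (-v i).toNat) (fun i => (v i).toNat) h.symm (by omega)
    apply this
    omega
  · have := key (fun i => (v i).toNat) (fun i => (-v i).toNat) h (by omega)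
    apply this
    omega

lemma prod_natAbs_le {r : ℕ} {b : Fin r → ℤ} (hb : ∀ i, 2 ≤ (b i).natAbs) {e : Fin r → ℕ} {N : ℕ} (he : ∀ i, e i ≤ N) :
    (∏ i, b i ^ e i).natAbs ≤ 2 ^ (N * ∏ i, (b i).natAbs) := by
  have e0 : (∏ i, b i ^ e i).natAbs = ∏ i, (b i ^ e i).natAbs := map_prod Int.natAbsHom _ _
  rw [e0]
  calc ∏ i, (b i ^ e i).natAbs ≤ ∏ i, (b i).natAbs ^ N := by
        apply Finset.prod_le_prod'
        intro i _
        rw [Int.natAbs_pow]
        exact Nat.pow_le_pow_right (by have := hb i; omega) (he i)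
    _ = (∏ i, (b i).natAbs) ^ N := by rw [Finset.prod_pow]
    _ ≤ (2 ^ (∏ i, (b i).natAbs)) ^ N := Nat.pow_le_pow_left Nat.lt_two_pow_self.le N
    _ = _ := by rw [← pow_mul, mul_comm]

/-- few primes modulo which `r` coprime integers generate a small group -/
theorem gm_count {r : ℕ} (b : Fin r → ℤ) (hb : ∀ i, 2 ≤ (b i).natAbs) (hc : ∀ i j, i ≠ j → IsCoprime (b i) (b j))
    (N : ℕ) : ∃ B : Finset ℕ, B.card ≤ (2 * N + 1) ^ r * (N * ∏ i, (b i).natAbs + 1) ∧
      ∀ p : ℕ, p.Prime → (∀ i, ¬ (p : ℤ) ∣ b i) → ∀ g : ℕ, 0 < g → g < (N + 1) ^ r →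
        (∀ i, ((b i : ℤ) : ZMod p) ^ g = 1) → p ∈ B := by
  classical
  refine ⟨(Fintype.piFinset (fun _ : Fin r => Icc (-(N : ℤ)) N)).biUnion
    (fun v => if v = 0 then ∅ else (Mv b v).natAbs.primeFactors), ?_, ?_⟩
  · refine card_biUnion_le.trans ?_
    have h2 : ∀ v ∈ Fintype.piFinset (fun _ : Fin r => Icc (-(N : ℤ)) N),
        (if v = 0 then ∅ else (Mv b v).natAbs.primeFactors).card ≤ N * ∏ i, (b i).natAbs + 1 := by
      intro v hv
      rw [Fintype.mem_piFinset] at hv
      split_ifs with h0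
      · rw [card_empty]; exact Nat.zero_le _
      · apply card_pf_le
        · rw [Int.natAbs_ne_zero]; exact Mv_ne hb hc h0
        · unfold Mv
          refine (Int.natAbs_sub_le _ _).trans ?_
          have h3 := prod_natAbs_le hb (e := fun i => (v i).toNat) (N := N) (fun i => by
            have := mem_Icc.1 (hv i); omega)
          have h4 := prod_natAbs_le hb (e := fun i => (-v i).toNat) (N := N) (fun i => by
            have := mem_Icc.1 (hv i); omega)
          rw [pow_succ]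
          omega
    refine (sum_le_card_nsmul _ _ _ h2).trans ?_
    rw [smul_eq_mul]
    apply Nat.mul_le_mul_right
    rw [Fintype.card_piFinset, prod_const, card_univ, Fintype.card_fin, Int.card_Icc]
    apply Nat.pow_le_pow_left
    omega
  · intro p hp hpb g hg0 hgN hbg
    have : Fact p.Prime := ⟨hp⟩
    have hb0 : ∀ i, ((b i : ℤ) : ZMod p) ≠ 0 := by
      intro i h
      exact hpb i ((ZMod.intCast_zmod_eq_zero_iff_dvd _ _).1 h)
    -- pigeonhole
    set φ : (Fin r → Fin (N + 1)) → ZMod p := fun e => ∏ i, ((b i : ℤ) : ZMod p) ^ (e i : ℕ) with hφ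
    have hmaps : ∀ e ∈ (univ : Finset (Fin r → Fin (N + 1))), φ e ∈ (Polynomial.nthRoots g (1 : ZMod p)).toFinset := by
      intro e _
      rw [Multiset.mem_toFinset, Polynomial.mem_nthRoots hg0]
      simp only [hφ]
      rw [← Finset.prod_pow]
      apply prod_eq_one
      intro i _
      rw [← pow_mul, mul_comm, pow_mul, hbg i, one_pow]
    have hcard : ((Polynomial.nthRoots g (1 : ZMod p)).toFinset).card < (univ : Finset (Fin r → Fin (N + 1))).card := by
      calc ((Polynomial.nthRoots g (1 : ZMod p)).toFinset).card ≤ Multiset.card (Polynomial.nthRoots g (1 : ZMod p)) :=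
            Multiset.toFinset_card_le _
        _ ≤ g := Polynomial.card_nthRoots g 1
        _ < (N + 1) ^ r := hgN
        _ = _ := by rw [card_univ, Fintype.card_fun, Fintype.card_fin, Fintype.card_fin]
    obtain ⟨e, _, f, _, hef, hφef⟩ := exists_ne_map_eq_of_card_lt_of_maps_to hcard hmaps
    rw [mem_biUnion]
    refine ⟨fun i => (e i : ℤ) - (f i : ℤ), ?_, ?_⟩
    · rw [Fintype.mem_piFinset]
      intro i
      rw [mem_Icc]
      have h1 := (e i).2
      have h2 := (f i).2
      constructor <;> omega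
    · have hv0 : (fun i => ((e i : ℕ) : ℤ) - ((f i : ℕ) : ℤ)) ≠ 0 := by
        intro h
        apply hef
        funext i
        have := congrFun h i
        simp only [Pi.zero_apply] at this
        exact Fin.ext (by omega)
      rw [if_neg hv0, Nat.mem_primeFactors]
      refine ⟨hp, ?_, by rw [Int.natAbs_ne_zero]; exact Mv_ne hb hc hv0⟩
      rw [← Int.natCast_dvd, ← ZMod.intCast_zmod_eq_zero_iff_dvd]
      unfold Mv
      push_cast
      rw [sub_eq_zero]
      have e1 : φ e = (∏ i, ((b i : ℤ) : ZMod p) ^ (min (e i : ℕ) (f i : ℕ))) *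
          ∏ i, ((b i : ℤ) : ZMod p) ^ (((e i : ℕ) : ℤ) - ((f i : ℕ) : ℤ)).toNat := by
        simp only [hφ]
        rw [← prod_mul_distrib]
        apply prod_congr rfl
        intro i _
        rw [← pow_add]
        congr 1
        omega
      have e2 : φ f = (∏ i, ((b i : ℤ) : ZMod p) ^ (min (e i : ℕ) (f i : ℕ))) *
          ∏ i, ((b i : ℤ) : ZMod p) ^ (-(((e i : ℕ) : ℤ) - ((f i : ℕ) : ℤ))).toNat := by
        simp only [hφ]
        rw [← prod_mul_distrib]
        apply prod_congr rfl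
        intro i _
        rw [← pow_add]
        congr 1
        omega
      rw [e1, e2] at hφef
      refine mul_left_cancel₀ ?_ hφef
      rw [prod_ne_zero_iff]
      intro i _
      exact pow_ne_zero _ (hb0 i)

end Pool.Agent.Y848.MS
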