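import Pool.Agent.H387R2.MB8
import Pool.Agent.Y848.MS.Fam
import Pool.Agent.Y848.MS.NonRough
import Pool.Agent.Y848.MS.S2
import Pool.Agent.Y848.MS.BV

set_option autoImplicit false

/-! # The positivity argument for a subset of the forms -/

open Finset Filter Topology
open scoped ContDiff

namespace Pool.Agent.Y848.MS

open Pool.Agent.H378R2 Pool.Agent.H387R2.MB

open Classical in
/-- many `n` with several primes and no small prime factor -/
theorem positivityP (k m₀ : ℕ) (hm₀ : 1 ≤ m₀) : ∃ (K0 B : ℕ) (f : Fin B → ℝ → ℝ) (A : Finset (Fin (K0 + 1) → Fin B)),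
    2 ∣ K0 + 1 ∧ (∀ l x, |f l x| ≤ 1) ∧ ∃ δ : ℝ, 0 < δ ∧ δ ≤ 1 / 10 ∧ ∃ c0 : ℝ, 0 < c0 ∧ ∃ z : ℕ, ∀ᶠ X : ℝ in atTop,
    ∀ (W V : ℕ) (E : Finset ℕ) (a0 : ℕ) (t : Fin (K0 + 1) → ℕ) (P : Finset (Fin (K0 + 1))), CS X z W E →
      W = m₀ * V → Squarefree V → DT E t → K0 + 1 ≤ 2 * P.card →
      (∀ j ∈ P, (a0 + t j).Coprime W) → (∀ j, (t j : ℝ) ≤ Real.sqrt X) →
      (∑ p ∈ E.filter (fun p => ¬ p ∣ W), (1 : ℝ) / p ≤ δ) → (W.totient : ℝ) ≤ 2 * (W * BE E) →
      c0 * QQ (K0 + 1) X W E ≤ ∑ n ∈ Icc 1 ⌊3 * X⌋₊, nu X W a0 n *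
        (if (k + 1 ≤ (P.filter (fun j => (n + t j).Prime)).card) ∧
            (∀ j, ∀ p ∈ (PS δ X).filter (fun p => ¬ p ∣ W), ¬ p ∣ n + t j) then
          sqw E X f A (fun j => (n : ℤ) + t j) ^ 2 else 0) := by
  obtain ⟨K0, B, f, c, A, hsm, hcs, hf0, hc, hA, hf1, hI, hJ1, hK2⟩ := familyI (2 * (801 + 640000 * k))
  set K : ℝ := (K0 : ℝ) + 1 with hK
  have hKpos : 0 < K := by positivity
  set I := II f A with hIdef
  set ε1 := I / K with hε1
  have hε1pos : 0 < ε1 := by positivity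
  obtain ⟨z1, hS1⟩ := S1up f c A hsm hcs hf0 hc hA hf1 ε1 hε1pos
  obtain ⟨z2, hS2⟩ := S2lowI f c A hsm hcs hf0 hc hA hf1 ε1 hε1pos
  obtain ⟨C, hC0, z3, hnr⟩ := nonroughW f c A hsm hcs hf0 hc hA hf1 hI.le
  set δ : ℝ := min (1 / 10) (I / (1600 * K * (C + 1))) with hδ
  have hδ0 : 0 < δ := lt_min (by norm_num) (by positivity)
  have hδ1 : δ ≤ 1 / 10 := min_le_left _ _
  have hδC : C * δ ≤ I / (1600 * K) := by
    have h1 : δ ≤ I / (1600 * K * (C + 1)) := min_le_right _ _
    calc C * δ ≤ (C + 1) * (I / (1600 * K * (C + 1))) := by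
          apply mul_le_mul (by linarith) h1 hδ0.le (by linarith)
      _ = I / (1600 * K) := by field_simp
  refine ⟨K0, B, f, A, hK2, hf1, δ, hδ0, hδ1, I / (1600 * K), by positivity, max z1 (max z2 z3), ?_⟩
  set cE : ℝ := K * (A.card : ℝ) ^ 2 + 5 * k * (A.card : ℝ) ^ 2 with hcE
  filter_upwards [hS1, hS2, hnr δ hδ0 hδ1, BVe_leM m₀ hm₀ K0 (K0 + 1 + 4), err_small (K0 + 1) cE (I / 2) (by positivity) (by positivity),
    LPhi_ge, eventually_ge_atTop 16, LL_tendsto.eventually_ge_atTop 1, ev_pow_exp 3 (1 / 700) 1 (by norm_num) |>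
      (fun h => Real.tendsto_log_atTop.eventually h)] with X h1 h2 h3 h4 h5 h6 h7 h8 h9
  intro W V E a0 t P hCS hWV hVsq hDT hP hcop ht hE1 hBW
  have hX0 : 0 < X := by linarith
  have hL0 : 0 < LL X := by linarith
  have hW0 : 0 < W := hCS.pos
  have hWr : (0:ℝ) < W := by exact_mod_cast hW0
  have hφ : 0 < (W.totient : ℝ) := by exact_mod_cast Nat.totient_pos.2 hW0
  have hBE : 0 < BE E := BE_pos hCS.gs.pr
  have hWle : (W : ℝ) ≤ Real.exp (Real.log X / 700) := by
    refine hCS.le.trans ?_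
    rw [one_mul] at h9
    calc Real.log X ^ 3 ≤ Real.exp (1 / 700 * Real.log X) := h9
      _ = _ := by ring_nf
  have hsqrt : Real.sqrt X ≤ X / 2 := sqrt_half h7
  have hCW : ∀ z', z' ≤ max z1 (max z2 z3) → CW X z' W E := fun z' hz' =>
    ⟨(hCS.gs.toGE h8).mono hz', hW0, hWle, hCS.dv⟩
  set Q := QQ (K0 + 1) X W E with hQ
  have hMP : 0 ≤ MPhi X := MPhi_nonneg X
  have hQ0 : 0 ≤ Q := by rw [hQ]; unfold QQ; positivity
  -- first sum
  have s1 := h1 W E a0 t (hCW z1 (le_max_left _ _)) hDT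
  -- second sum
  obtain ⟨Bc, hBc1, hBc2⟩ := Bc_exists X W hW0
  have s2 := h2 W E a0 t (Real.sqrt X) (hCW z2 ((le_max_left _ _).trans (le_max_right _ _))) hDT ht hsqrt Bc hBc2
  have s3 := h4 W V hWV hVsq hCS.le Bc hBc1
  have s4 := h5 W E (BVe K0 X W Bc) hW0 hCS.le hCS.gs.pr s3
  have s5 := h3 W E a0 t ⟨hCS.gs.mono ((le_max_right _ _).trans (le_max_right _ _)), hCS.pos, hCS.le, hCS.dv⟩ hDT hE1
  set w : ℕ → ℝ := fun n => sqw E X f A (fun j => (n : ℤ) + t j) ^ 2 with hw
  have hw0 : ∀ n, 0 ≤ w n := fun n => sq_nonneg _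
  set err2 := BVe K0 X W Bc + Real.exp (2 * LL X) *
          ((4 * Real.sqrt X) * Real.log (4 * X) + 4 * Real.sqrt X * Real.log (4 * X)) with herr2
  -- lower bound for the theta sum
  have hPK : (P.card : ℝ) ≤ K := by
    have h1 := card_le_univ P
    rw [Fintype.card_fin] at h1
    rw [hK]
    exact_mod_cast h1
  have hPK2 : K ≤ 2 * (P.card : ℝ) := by
    rw [hK]
    exact_mod_cast hP
  have hJ : (801 + 640000 * k) * I ≤ ∑ i ∈ P, JJ f A i := by
    have h1 : (P.card : ℝ) * (2 * (801 + 640000 * k) * I / K) ≤ ∑ i ∈ P, JJ f A i := by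
      rw [← nsmul_eq_mul]
      apply card_nsmul_le_sum
      intro i _
      rw [div_le_iff₀ hKpos, mul_comm (JJ f A i)]
      exact hJ1 i
    refine le_trans ?_ h1
    have h2 : (0:ℝ) ≤ (801 + 640000 * k) * I := by positivity
    rw [mul_div_assoc', le_div_iff₀ hKpos]
    nlinarith
  have herr0 : 0 ≤ err2 := by
    rw [herr2]
    apply add_nonneg (BVe_nonneg _ _ _ _)
    have : 0 ≤ Real.log (4 * X) := Real.log_nonneg (by linarith)
    positivity
  have s6 : (LL X * Q / 800) * ((801 + 640000 * k) * I - I) - K * (A.card : ℝ) ^ 2 * err2 ≤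
      ∑ i ∈ P, ∑ n ∈ Icc 1 ⌊3 * X⌋₊, nu X W a0 n * (w n * th (n + t i)) := by
    refine le_trans ?_ (sum_le_sum fun i hi => s2 i (hcop i hi))
    rw [sum_sub_distrib, sum_const, nsmul_eq_mul, ← mul_sum, sum_sub_distrib, sum_const, nsmul_eq_mul]
    have e1' : (P.card : ℝ) * ε1 ≤ I := by
      calc (P.card : ℝ) * ε1 ≤ K * ε1 := mul_le_mul_of_nonneg_right hPK hε1pos.le
        _ = I := by rw [hε1]; field_simp
    have e1'' : (P.card : ℝ) * ((A.card : ℝ) ^ 2 * err2) ≤ K * (A.card : ℝ) ^ 2 * err2 := by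
      rw [mul_assoc]
      exact mul_le_mul_of_nonneg_right hPK (by positivity)
    have e2 : LL X * Q / 800 ≤ LPhi X * (1 / (W.totient : ℝ)) * (1 / (LL X * BE E) ^ K0) := by
      have e3 : LL X * Q = (MPhi X * (1 / (W * BE E))) * (1 / (LL X * BE E) ^ K0) := by
        rw [hQ]; unfold QQ
        rw [pow_succ]
        field_simp
      have e4 : MPhi X * (1 / (W * BE E)) ≤ 800 * (LPhi X * (1 / (W.totient : ℝ))) := by
        have e5 : 1 / (W * BE E) ≤ 2 * (1 / (W.totient : ℝ)) := by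
          rw [mul_one_div, div_le_div_iff₀ (by positivity) hφ]
          linarith
        have e6 : MPhi X ≤ 400 * LPhi X := by
          have := MPhi_le X (by linarith)
          linarith
        calc MPhi X * (1 / (W * BE E)) ≤ (400 * LPhi X) * (2 * (1 / (W.totient : ℝ))) := by
              apply mul_le_mul e6 e5 (by positivity)
              linarith
          _ = _ := by ring
      rw [e3]
      have := mul_le_mul_of_nonneg_right e4 (by positivity : 0 ≤ 1 / (LL X * BE E) ^ K0)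
      linarith
    have e7 : 0 ≤ ∑ i ∈ P, JJ f A i - I := by
      have : I ≤ (801 + 640000 * k) * I := by
        have h0 : (0:ℝ) ≤ k := Nat.cast_nonneg k
        have h1' : (1:ℝ) ≤ 801 + 640000 * k := by linarith only [h0]
        exact le_mul_of_one_le_left hI.le h1'
      linarith only [this, hJ]
    have e8 : (LL X * Q / 800) * ((801 + 640000 * k) * I - I) ≤
        LPhi X * (1 / (W.totient : ℝ)) * (1 / (LL X * BE E) ^ K0) * (∑ i ∈ P, JJ f A i - I) := by
      calc _ ≤ (LL X * Q / 800) * (∑ i ∈ P, JJ f A i - I) := by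
            apply mul_le_mul_of_nonneg_left _ (by positivity)
            linarith
        _ ≤ _ := mul_le_mul_of_nonneg_right e2 e7
    have hM0' : 0 ≤ LPhi X * (1 / (W.totient : ℝ)) * (1 / (LL X * BE E) ^ K0) := by
      refine le_trans ?_ e2
      positivity
    have e9 := mul_le_mul_of_nonneg_left e1' hM0'
    have e10 : LPhi X * (1 / (W.totient : ℝ)) * (1 / (LL X * BE E) ^ K0) *
        (∑ i ∈ P, JJ f A i - (P.card : ℝ) * ε1) = LPhi X * (1 / (W.totient : ℝ)) * (1 / (LL X * BE E) ^ K0) *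
        (∑ i ∈ P, JJ f A i - I) + (LPhi X * (1 / (W.totient : ℝ)) * (1 / (LL X * BE E) ^ K0) * I -
        LPhi X * (1 / (W.totient : ℝ)) * (1 / (LL X * BE E) ^ K0) * ((P.card : ℝ) * ε1)) := by ring
    rw [e10]
    linarith
  -- upper bound
  have hpt : ∀ n ∈ Icc 1 ⌊3 * X⌋₊, nu X W a0 n * (w n * (∑ i ∈ P, th (n + t i) - k * Real.log (4 * X))) ≤
      (K * Real.log (4 * X)) * (nu X W a0 n * (if k + 1 ≤ (P.filter (fun j => (n + t j).Prime)).card then w n else 0)) := by
    intro n hn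
    rw [mem_Icc] at hn
    have hnu := nu_nonneg X W a0 n
    have hl : 0 ≤ Real.log (4 * X) := Real.log_nonneg (by linarith)
    have hn3 : (n : ℝ) ≤ 3 * X := (Nat.le_floor_iff (by positivity)).1 hn.2
    have e1 : ∑ i ∈ P, th (n + t i) ≤ Real.log (4 * X) * ((P.filter (fun j => (n + t j).Prime)).card : ℝ) := by
      rw [card_filter]
      push_cast
      rw [mul_sum]
      apply sum_le_sum
      intro i _
      unfold th
      split_ifs with hp
      · rw [mul_one]
        apply Real.log_le_log (by exact_mod_cast hp.pos)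
        push_cast
        have := ht i
        linarith
      · simp
    have e2 : w n * (∑ i ∈ P, th (n + t i) - k * Real.log (4 * X)) ≤
        (K * Real.log (4 * X)) * (if k + 1 ≤ (P.filter (fun j => (n + t j).Prime)).card then w n else 0) := by
      split_ifs with hc
      · have e3 : ((P.filter (fun j => (n + t j).Prime)).card : ℝ) ≤ K := by
          have := card_filter_le P (fun j => (n + t j).Prime)
          exact le_trans (by exact_mod_cast this) hPK
        have e4 : ∑ i ∈ P, th (n + t i) - k * Real.log (4 * X) ≤ K * Real.log (4 * X) := by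
          have h0 : 0 ≤ (k : ℝ) * Real.log (4 * X) := mul_nonneg (Nat.cast_nonneg _) hl
          have h1' := mul_le_mul_of_nonneg_left e3 hl
          linarith only [h0, h1', e1]
        calc _ ≤ w n * (K * Real.log (4 * X)) := mul_le_mul_of_nonneg_left e4 (hw0 n)
          _ = _ := by ring
      · rw [mul_zero]
        apply mul_nonpos_of_nonneg_of_nonpos (hw0 n)
        have e3 : ((P.filter (fun j => (n + t j).Prime)).card : ℝ) ≤ k := by
          exact_mod_cast (by omega : (P.filter (fun j => (n + t j).Prime)).card ≤ k)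
        have h1' := mul_le_mul_of_nonneg_left e3 hl
        linarith only [h1', e1]
    calc _ ≤ nu X W a0 n * ((K * Real.log (4 * X)) * (if k + 1 ≤ (P.filter (fun j => (n + t j).Prime)).card then w n else 0)) :=
          mul_le_mul_of_nonneg_left e2 hnu
      _ = _ := by ring
  have s7 := sum_le_sum hpt
  rw [← mul_sum] at s7
  have s8 : ∑ n ∈ Icc 1 ⌊3 * X⌋₊, nu X W a0 n * (w n * (∑ i ∈ P, th (n + t i) - k * Real.log (4 * X))) =
      ∑ i ∈ P, ∑ n ∈ Icc 1 ⌊3 * X⌋₊, nu X W a0 n * (w n * th (n + t i)) -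
        k * Real.log (4 * X) * ∑ n ∈ Icc 1 ⌊3 * X⌋₊, nu X W a0 n * w n := by
    rw [sum_comm, mul_sum, ← sum_sub_distrib]
    apply sum_congr rfl
    intro n _
    rw [← mul_sum, ← mul_sum]
    ring
  rw [s8] at s7
  set S := ∑ n ∈ Icc 1 ⌊3 * X⌋₊, nu X W a0 n * (if k + 1 ≤ (P.filter (fun j => (n + t j).Prime)).card then w n else 0) with hS
  have hS0 : 0 ≤ S := sum_nonneg fun n _ => mul_nonneg (nu_nonneg _ _ _ _) (by split_ifs; exacts [hw0 n, le_rfl])
  have hl4 := log4X (by linarith : 4 ≤ X)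
  have hl40 : 0 ≤ Real.log (4 * X) := Real.log_nonneg (by linarith)
  have s9 : k * Real.log (4 * X) * ∑ n ∈ Icc 1 ⌊3 * X⌋₊, nu X W a0 n * w n ≤
      800 * k * (LL X * Q) * I + 5 * k * (A.card : ℝ) ^ 2 * (Real.log (4 * X) * Real.exp (2 * LL X)) := by
    have e1 : (∑ n ∈ Icc 1 ⌊3 * X⌋₊, nu X W a0 n * w n) ≤ Q * (2 * I) + (A.card : ℝ) ^ 2 * (5 * Real.exp (2 * LL X)) := by
      refine s1.trans ?_
      rw [← hIdef]
      have : ε1 ≤ I := by
        rw [hε1, div_le_iff₀ hKpos]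
        have : 1 ≤ K := by rw [hK]; have h0 : (0:ℝ) ≤ K0 := Nat.cast_nonneg _; linarith only [h0]
        exact le_mul_of_one_le_right hI.le this
      have h10 : Q * (I + ε1) ≤ Q * (2 * I) := mul_le_mul_of_nonneg_left (by linarith) hQ0
      have h11 : MPhi X * (1 / (W:ℝ)) * (1 / (LL X * BE E) ^ (K0 + 1)) * (I + ε1) = Q * (I + ε1) := rfl
      rw [h11]
      linarith
    have hk0 : (0:ℝ) ≤ k := Nat.cast_nonneg k
    calc k * Real.log (4 * X) * ∑ n ∈ Icc 1 ⌊3 * X⌋₊, nu X W a0 n * w n ≤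
        k * Real.log (4 * X) * (Q * (2 * I) + (A.card : ℝ) ^ 2 * (5 * Real.exp (2 * LL X))) :=
          mul_le_mul_of_nonneg_left e1 (by positivity)
      _ = k * Q * (2 * I) * Real.log (4 * X) + 5 * k * (A.card : ℝ) ^ 2 * (Real.log (4 * X) * Real.exp (2 * LL X)) := by ring
      _ ≤ k * Q * (2 * I) * (400 * LL X) + 5 * k * (A.card : ℝ) ^ 2 * (Real.log (4 * X) * Real.exp (2 * LL X)) := by
          gcongr
      _ = _ := by ring
  have s10 : LL X * Q * (I / 2) ≤ K * Real.log (4 * X) * S := by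
    have e1 : (LL X * Q / 800) * ((801 + 640000 * k) * I - I) = LL X * Q * I + 800 * k * (LL X * Q) * I := by ring
    have e2 : K * (A.card : ℝ) ^ 2 * err2 + 5 * k * (A.card : ℝ) ^ 2 * (Real.log (4 * X) * Real.exp (2 * LL X)) ≤
        I / 2 * (LL X * Q) := by
      refine le_trans ?_ s4
      rw [hcE]
      have hB0 : 0 ≤ BVe K0 X W Bc := BVe_nonneg _ _ _ _
      have h12 : 0 ≤ err2 := by
        rw [herr2]
        apply add_nonneg hB0
        positivity
      exact alg1 (by positivity) (by positivity) h12 (by positivity) rfl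
    rw [e1] at s6
    linarith
  have s11 : Q * (I / (800 * K)) ≤ S := by
    have e1 : LL X * Q * (I / 2) ≤ K * (400 * LL X) * S := by
      refine s10.trans ?_
      gcongr
    have e2 : Q * (I / 2) ≤ K * 400 * S := by
      have : LL X * (Q * (I / 2)) ≤ LL X * (K * 400 * S) := by linarith
      exact le_of_mul_le_mul_left this hL0
    calc Q * (I / (800 * K)) = (Q * (I / 2)) / (400 * K) := by field_simp; ring
      _ ≤ (K * 400 * S) / (400 * K) := by gcongr
      _ = S := by field_simp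
  -- remove the non rough part
  have s12 : S ≤ ∑ n ∈ Icc 1 ⌊3 * X⌋₊, nu X W a0 n *
        (if (k + 1 ≤ (P.filter (fun j => (n + t j).Prime)).card) ∧
            (∀ j, ∀ p ∈ (PS δ X).filter (fun p => ¬ p ∣ W), ¬ p ∣ n + t j) then w n else 0) +
      ∑ n ∈ Icc 1 ⌊3 * X⌋₊, ∑ j : Fin (K0 + 1), ∑ p ∈ (PS δ X).filter (fun p => ¬ p ∣ W),
        nu X W a0 n * (if (p : ℤ) ∣ (n : ℤ) + t j then w n else 0) := by
    rw [hS, ← sum_add_distrib]
    apply sum_le_sum
    intro n _
    have hnu := nu_nonneg X W a0 n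
    have hnn : 0 ≤ ∑ j : Fin (K0 + 1), ∑ p ∈ (PS δ X).filter (fun p => ¬ p ∣ W), nu X W a0 n * (if (p : ℤ) ∣ (n : ℤ) + t j then w n else 0) := by
      apply sum_nonneg; intro j _
      apply sum_nonneg; intro p _
      apply mul_nonneg hnu
      split_ifs
      · exact hw0 n
      · exact le_rfl
    by_cases h10 : k + 1 ≤ (P.filter (fun j => (n + t j).Prime)).card
    · by_cases h11 : ∀ j, ∀ p ∈ (PS δ X).filter (fun p => ¬ p ∣ W), ¬ p ∣ n + t j
      · rw [if_pos h10, if_pos ⟨h10, h11⟩]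
        linarith
      · rw [if_pos h10, if_neg (fun h => h11 h.2), mul_zero, zero_add]
        push Not at h11
        obtain ⟨j, p, hp, hpd⟩ := h11
        have e1 : nu X W a0 n * w n = nu X W a0 n * (if (p : ℤ) ∣ (n : ℤ) + t j then w n else 0) := by
          rw [if_pos]
          have e : ((n + t j : ℕ) : ℤ) = (n : ℤ) + t j := by push_cast; ring
          rw [← e]
          exact Int.natCast_dvd_natCast.2 hpd
        rw [e1]
        have hterm : ∀ (j : Fin (K0 + 1)) (p : ℕ), 0 ≤ nu X W a0 n * (if (p : ℤ) ∣ (n : ℤ) + t j then w n else 0) := by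
          intro j p
          apply mul_nonneg hnu
          split_ifs
          · exact hw0 n
          · exact le_rfl
        refine le_trans (single_le_sum (f := fun p : ℕ => nu X W a0 n * (if (p : ℤ) ∣ (n : ℤ) + t j then w n else 0))
          (fun p _ => hterm j p) hp) ?_
        exact single_le_sum (f := fun j => ∑ p ∈ (PS δ X).filter (fun p => ¬ p ∣ W), nu X W a0 n * (if (p : ℤ) ∣ (n : ℤ) + t j then w n else 0))
          (fun j _ => sum_nonneg fun p _ => hterm j p) (mem_univ j)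
    · rw [if_neg h10, if_neg (fun h => h10 h.1), mul_zero, zero_add]
      exact hnn
  have s13 : C * δ * Q ≤ I / (1600 * K) * Q := mul_le_mul_of_nonneg_right hδC hQ0
  have s14 : Q * (I / (800 * K)) = 2 * (I / (1600 * K) * Q) := by field_simp; ring
  have s5' : ∑ n ∈ Icc 1 ⌊3 * X⌋₊, ∑ j : Fin (K0 + 1), ∑ p ∈ (PS δ X).filter (fun p => ¬ p ∣ W),
        nu X W a0 n * (if (p : ℤ) ∣ (n : ℤ) + t j then w n else 0) ≤ C * δ * Q := s5
  linarith

end Pool.Agent.Y848.MS
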