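import Pool.Agent.H387R2.MB9

set_option autoImplicit false

/-! # Upper bound for rough values with a large modulus -/

open Finset Filter Topology
open scoped ContDiff

namespace Pool.Agent.Y848.MS

open Pool.Agent.H378R2 Pool.Agent.H387R2.MB

/-- product form of the first sum, functions `F`, `G`, with a large modulus -/
theorem S1prodG {K : ℕ} (F G : Fin K → ℝ → ℝ) (cF cG : Fin K → ℝ) (Cf : ℝ) (hCf : 0 ≤ Cf)
    (hF : ∀ j x, |F j x| ≤ Cf) (hG : ∀ j x, |G j x| ≤ Cf)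
    (hF0 : ∀ j x, cF j < x → F j x = 0) (hG0 : ∀ j x, cG j < x → G j x = 0)
    (hs : ∑ j, cF j + ∑ j, cG j ≤ 2) {X : ℝ} (hX : 4 ≤ X) (hL : 1 ≤ LL X)
    {W : ℕ} {E : Finset ℕ} (hW : 0 < W) (hWX : (W : ℝ) * Real.exp (LL X * 2) ≤ X)
    (hdv : ∀ p : ℕ, p.Prime → p ∉ E → ¬ p ∣ W) (a0 : ℕ) {t : Fin K → ℕ} (ht : DT E t) :
    |∑ n ∈ Icc 1 ⌊3 * X⌋₊, nu X W a0 n *
        ∏ j, (VVm E (RR X) (LL X) (F j) ((n : ℤ) + t j) * VVm E (RR X) (LL X) (G j) ((n : ℤ) + t j)) -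
      (MPhi X * (1 / W)) * sieveSum K F G (LL X) (fun _ => E) (fun p _ => 1 / (p : ℝ)) (RR X)| ≤
    5 * Cf ^ (2 * K) * Real.exp (2 * LL X) := by
  have k1 := sum1 X hX W a0 hW F G (LL X) Cf (by linarith) hCf cF cG hF hG hF0 hG0
    (fun _ => E) (RR X) (fun _ => 1)
    (fun j => (t j : ℤ)) (fun _ p hp h => hdv p hp h)
    (fun _ p hp _ h => hp.one_lt.ne' (Nat.dvd_one.1 h))
    (by
      intro i j hij p hp hpE _ n hh
      apply ht i j hij p hp hpE
      have := dvd_sub hh.1 hh.2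
      have h7 : ((1 : ℕ) : ℤ) * n + t i - (((1 : ℕ) : ℤ) * n + t j) = t i - t j := by ring
      rwa [h7] at this)
    (by
      refine le_trans ?_ hWX
      apply mul_le_mul_of_nonneg_left _ (Nat.cast_nonneg _)
      apply Real.exp_le_exp.2
      nlinarith)
  have k9 : ∑ n ∈ Icc 1 ⌊3 * X⌋₊, nu X W a0 n *
      ∏ j, (VVm E (RR X) (LL X) (F j) ((n : ℤ) + t j) * VVm E (RR X) (LL X) (G j) ((n : ℤ) + t j)) =
      ∑ n ∈ Icc 1 ⌊3 * X⌋₊, (if n ≡ a0 [MOD W] then Phi (n / X) else 0) *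
        ∏ j, (VVm E (RR X) (LL X) (F j) (((1 : ℕ) : ℤ) * n + t j) *
          VVm E (RR X) (LL X) (G j) (((1 : ℕ) : ℤ) * n + t j)) := by
    refine Finset.sum_congr rfl fun n _ => ?_
    unfold nu
    simp only [Nat.cast_one, one_mul]
  rw [k9]
  refine k1.trans ?_
  apply mul_le_mul_of_nonneg_left _ (by positivity)
  apply Real.exp_le_exp.2
  nlinarith

/-- no small prime factor outside `E` -/
def RgE (δ X : ℝ) (E : Finset ℕ) (m : ℕ) : Prop := ∀ p ∈ PS δ X, p ∉ E → ¬ p ∣ m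

lemma rgE_prime {δ X : ℝ} {E : Finset ℕ} {m p : ℕ} (h : RgE δ X E m) (hp : p.Prime) (hpE : p ∉ E) (hpm : p ∣ m) :
    Real.exp (δ * LL X) < p := by
  by_contra hle
  push Not at hle
  exact h p (mem_PS.2 ⟨hp, hle⟩) hpE hpm

lemma VV_rgE_eq {δ X s : ℝ} {E : Finset ℕ} (hs0 : 0 < s) (hsδ : s ≤ δ) (hL : 1 ≤ LL X) {m : ℕ}
    (h : RgE δ X E m) (R : ℕ) (hR : 1 ≤ R) :
    VVm E R (LL X) (hs s) (m : ℤ) = 1 := by
  have hL0 : 0 < LL X := by linarith
  unfold VVm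
  rw [sum_eq_single 1]
  · simp [hs_at_zero]
  · intro d hd hne
    rw [mem_adm] at hd
    by_cases hdm : (d : ℤ) ∣ (m : ℤ)
    · rw [if_pos hdm]
      obtain ⟨p, hp, hpd⟩ := Nat.exists_prime_and_dvd hne
      have hpE : p ∉ E := fun hE => hd.2.2 p hE hp hpd
      have h1 := rgE_prime h hp hpE (hpd.trans (Int.natCast_dvd_natCast.1 hdm))
      have h2 : (p : ℝ) ≤ d := by exact_mod_cast Nat.le_of_dvd hd.1.1 hpd
      have h3 : δ * LL X ≤ Real.log d := by
        have h4 : Real.exp (δ * LL X) ≤ d := by linarith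
        have := Real.log_le_log (Real.exp_pos _) h4
        rwa [Real.log_exp] at this
      have h5 : s ≤ |Real.log d / LL X| := by
        refine le_trans ?_ (le_abs_self _)
        rw [le_div_iff₀ hL0]
        nlinarith
      rw [hs_zero hs0 h5, mul_zero]
    · rw [if_neg hdm]
  · intro h1
    exfalso
    apply h1
    rw [mem_adm]
    refine ⟨⟨le_rfl, hR⟩, squarefree_one, fun p _ hp h2 => hp.one_lt.ne' (Nat.dvd_one.1 h2)⟩

open Classical in
/-- few `n` in a class modulo a large modulus with all `n + t_j` free of small prime factors -/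
theorem rough_upD (J : ℕ) {δ : ℝ} (hδ : 0 < δ) : ∃ C : ℝ, 0 < C ∧ ∃ z : ℕ, ∀ᶠ X : ℝ in atTop,
    ∀ (W : ℕ) (E : Finset ℕ) (a0 : ℕ) (t : Fin J → ℕ), GE X z E → 0 < W → (W : ℝ) * Real.exp (LL X * 2) ≤ X →
      (∀ p : ℕ, p.Prime → p ∉ E → ¬ p ∣ W) → DT E t →
      ∑ n ∈ Icc 1 ⌊3 * X⌋₊, nu X W a0 n * (if ∀ j, RgE δ X E (n + t j) then 1 else 0) ≤
        C * ((MPhi X * (1 / (W : ℝ))) * (1 / (LL X * BE E) ^ J)) + 5 * Real.exp (2 * LL X) := by
  set s : ℝ := min δ (1 / (J + 2)) with hs_def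
  have hs0 : 0 < s := lt_min hδ (by positivity)
  have hsδ : s ≤ δ := min_le_left _ _
  have hsJ : s ≤ 1 / (J + 2) := min_le_right _ _
  have hs2 : s ≤ 1 / 2 := by
    refine hsJ.trans ?_
    apply one_div_le_one_div_of_le (by norm_num)
    have : (0:ℝ) ≤ J := Nat.cast_nonneg J
    linarith
  obtain ⟨z, hz⟩ := asympE J (fun _ => hs s) (fun _ => hs s) (fun _ => hs_smooth s) (fun _ => hs_smooth s)
    (fun _ => hs_compact hs0) (fun _ => hs_compact hs0)
    (fun _ x hx => hs_zero hs0 ((hs2.trans hx.le).trans (le_abs_self x)))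
    (fun _ x hx => hs_zero hs0 ((hs2.trans hx.le).trans (le_abs_self x))) 1 one_pos
  refine ⟨|∏ _j : Fin J, DD (hs s) (hs s)| + 1, by positivity, z, ?_⟩
  filter_upwards [hz, eventually_ge_atTop 4, LL_tendsto.eventually_ge_atTop 1] with X h1 h4 h6
  intro W E a0 t hGE hW hWX hdv hDT
  have hBE : 0 < BE E := BE_pos hGE.pr
  have hLB : 0 < LL X * BE E := by positivity
  have hMnn : 0 ≤ MPhi X := MPhi_nonneg X
  have hWr : (0 : ℝ) < W := by exact_mod_cast hW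
  have hsum : ∑ _j : Fin J, s + ∑ _j : Fin J, s ≤ 2 := by
    rw [sum_const, card_univ, Fintype.card_fin, nsmul_eq_mul]
    have : (J : ℝ) * s ≤ 1 := by
      calc (J : ℝ) * s ≤ J * (1 / (J + 2)) := by gcongr
        _ ≤ 1 := by
            rw [mul_one_div, div_le_one (by positivity)]
            linarith
    linarith
  have k1 := S1prodG (fun _ => hs s) (fun _ => hs s) (fun _ => s) (fun _ => s) 1 zero_le_one
    (fun _ x => hs_abs_le s x) (fun _ x => hs_abs_le s x)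
    (fun _ x hx => hs_zero hs0 (hx.le.trans (le_abs_self x)))
    (fun _ x hx => hs_zero hs0 (hx.le.trans (le_abs_self x))) hsum h4 h6 hW hWX hdv a0 hDT
  rw [one_pow, mul_one] at k1
  have k2 := h1 (fun _ => E) (fun p _ => 1 / (p : ℝ)) (fun _ => hGE) (fun _ p _ => w_one p)
  have k3 : ∏ j : Fin J, (LL X * BE E) = (LL X * BE E) ^ J := by
    rw [Finset.prod_const, Finset.card_univ, Fintype.card_fin]
  rw [k3] at k2
  have k4 := (abs_le.1 k1).2
  have k5 := (abs_le.1 k2).2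
  set SS := sieveSum J (fun _ => hs s) (fun _ => hs s) (LL X) (fun _ => E) (fun p _ => 1 / (p : ℝ)) (RR X)
  have k6 : SS ≤ (1 / (LL X * BE E) ^ J) * (|∏ _j : Fin J, DD (hs s) (hs s)| + 1) := by
    rw [one_div, ← div_eq_inv_mul, le_div_iff₀ (by positivity)]
    have := le_abs_self (∏ _j : Fin J, DD (hs s) (hs s))
    linarith
  have k7 : MPhi X * (1 / (W : ℝ)) * SS ≤ (MPhi X * (1 / (W : ℝ))) * ((1 / (LL X * BE E) ^ J) *
      (|∏ _j : Fin J, DD (hs s) (hs s)| + 1)) :=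
    mul_le_mul_of_nonneg_left k6 (by positivity)
  have hR : 1 ≤ RR X := by
    unfold RR
    apply Nat.le_floor
    rw [Nat.cast_one]
    exact Real.one_le_exp (by linarith)
  have k8 : ∀ n ∈ Icc 1 ⌊3 * X⌋₊, nu X W a0 n * (if ∀ j, RgE δ X E (n + t j) then 1 else 0) ≤
      nu X W a0 n * ∏ j, (VVm E (RR X) (LL X) (hs s) ((n : ℤ) + t j) * VVm E (RR X) (LL X) (hs s) ((n : ℤ) + t j)) := by
    intro n _
    apply mul_le_mul_of_nonneg_left _ (nu_nonneg X W a0 n)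
    split_ifs with hc
    · refine le_of_eq (Eq.symm ?_)
      apply prod_eq_one
      intro j _
      have e : (n : ℤ) + t j = ((n + t j : ℕ) : ℤ) := by push_cast; ring
      rw [e, VV_rgE_eq hs0 hsδ h6 (hc j) _ hR, one_mul]
    · exact prod_nonneg fun j _ => mul_self_nonneg _
  refine (sum_le_sum k8).trans ?_
  have e1 : (|∏ _j : Fin J, DD (hs s) (hs s)| + 1) * (MPhi X * (1 / (W:ℝ)) * (1 / (LL X * BE E) ^ J)) =
    (MPhi X * (1 / (W : ℝ))) * ((1 / (LL X * BE E) ^ J) * (|∏ _j : Fin J, DD (hs s) (hs s)| + 1)) := by ring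
  rw [e1]
  linarith

end Pool.Agent.Y848.MS
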