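import Pool.Agent.Y848.MS.Pos
import Pool.Agent.Y848.MS.RD

set_option autoImplicit false

/-! # Many `n` without weights -/

open Finset Filter Topology
open scoped ContDiff

namespace Pool.Agent.Y848.MS

open Pool.Agent.H378R2 Pool.Agent.H387R2.MB

/-- no small prime factor outside `W` -/
def RgW (δ X : ℝ) (W m : ℕ) : Prop := ∀ p ∈ (PS δ X).filter (fun p => ¬ p ∣ W), ¬ p ∣ m

lemma rgW_prime {δ X : ℝ} {W m p : ℕ} (h : RgW δ X W m) (hp : p.Prime) (hpW : ¬ p ∣ W) (hpm : p ∣ m) :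
    Real.exp (δ * LL X) < p := by
  by_contra hle
  push Not at hle
  exact h p (mem_filter.2 ⟨mem_PS.2 ⟨hp, hle⟩, hpW⟩) hpm

lemma rgW_omega {δ X : ℝ} (hδ : 0 < δ) (hX : 4 ≤ X) (hL : 1 ≤ LL X) {W m : ℕ} (hm : 1 ≤ m) (hmX : (m : ℝ) ≤ 4 * X)
    (h : RgW δ X W m) : (m.primeFactors.filter (fun p => ¬ p ∣ W)).card ≤ ⌈400 / δ⌉₊ := by
  have hL0 : 0 < LL X := by linarith
  have h1 : Real.exp (δ * LL X) ^ (m.primeFactors.filter (fun p => ¬ p ∣ W)).card ≤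
      ((∏ p ∈ m.primeFactors.filter (fun p => ¬ p ∣ W), p : ℕ) : ℝ) := by
    push_cast
    rw [← prod_const]
    apply Finset.prod_le_prod
    · intro p _; exact (Real.exp_pos _).le
    · intro p hp
      rw [mem_filter] at hp
      exact (rgW_prime h (Nat.prime_of_mem_primeFactors hp.1) hp.2 (Nat.dvd_of_mem_primeFactors hp.1)).le
  have h2 : ((∏ p ∈ m.primeFactors.filter (fun p => ¬ p ∣ W), p : ℕ) : ℝ) ≤ 4 * X := by
    refine le_trans ?_ hmX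
    have h3 : ∏ p ∈ m.primeFactors.filter (fun p => ¬ p ∣ W), p ∣ m :=
      (prod_dvd_prod_of_subset _ _ _ (filter_subset _ _)).trans (Nat.prod_primeFactors_dvd m)
    exact_mod_cast Nat.le_of_dvd hm h3
  have h3 := h1.trans h2
  rw [← Real.exp_nat_mul] at h3
  have h4 := Real.log_le_log (Real.exp_pos _) h3
  rw [Real.log_exp] at h4
  have h5 := h4.trans (log4X hX)
  have h6 : ((m.primeFactors.filter (fun p => ¬ p ∣ W)).card : ℝ) ≤ 400 / δ := by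
    rw [le_div_iff₀ hδ]
    have : ((m.primeFactors.filter (fun p => ¬ p ∣ W)).card * δ) * LL X ≤ 400 * LL X := by linarith
    exact le_of_mul_le_mul_right this hL0
  exact_mod_cast h6.trans (Nat.le_ceil _)

lemma card_sqf_divW {m : ℕ} (hm : m ≠ 0) {W : ℕ} {E : Finset ℕ} (hE : ∀ p : ℕ, p.Prime → p ∣ W → p ∈ E) (R : ℕ) :
    ((adm E R).filter (fun d => d ∣ m)).card ≤ 2 ^ (m.primeFactors.filter (fun p => ¬ p ∣ W)).card := by
  rw [← card_powerset]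
  apply card_le_card_of_injOn (fun d => d.primeFactors)
  · intro d hd
    rw [mem_coe, mem_filter, mem_adm] at hd
    rw [mem_coe, mem_powerset]
    intro p hp
    rw [mem_filter]
    refine ⟨Nat.primeFactors_mono hd.2 hm hp, fun hpW => ?_⟩
    have hpp := Nat.prime_of_mem_primeFactors hp
    exact hd.1.2.2 p (hE p hpp hpW) hpp (Nat.dvd_of_mem_primeFactors hp)
  · intro d hd e he hde
    rw [mem_coe, mem_filter, mem_adm] at hd he
    beta_reduce at hde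
    rw [← Nat.prod_primeFactors_of_squarefree hd.1.2.1, ← Nat.prod_primeFactors_of_squarefree he.1.2.1, hde]

lemma VV_rgW_le {δ X : ℝ} (hδ : 0 < δ) (hX : 4 ≤ X) (hL : 1 ≤ LL X) {W m : ℕ} (hm : 1 ≤ m) (hmX : (m : ℝ) ≤ 4 * X)
    (h : RgW δ X W m) {E : Finset ℕ} (hE : ∀ p : ℕ, p.Prime → p ∣ W → p ∈ E) (R : ℕ) (F : ℝ → ℝ) (hF : ∀ x, |F x| ≤ 1) :
    |VVm E R (LL X) F (m : ℤ)| ≤ 2 ^ ⌈400 / δ⌉₊ := by
  classical
  unfold VVm
  refine (abs_sum_le_sum_abs _ _).trans ?_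
  have h1 : ∀ d ∈ adm E R, |if (d : ℤ) ∣ (m : ℤ) then ((ArithmeticFunction.moebius d : ℤ) : ℝ) * F (Real.log d / LL X) else 0| ≤
      if d ∣ m then 1 else 0 := by
    intro d _
    by_cases hd : d ∣ m
    · rw [if_pos (Int.natCast_dvd_natCast.2 hd), if_pos hd, abs_mul]
      have hm : |((ArithmeticFunction.moebius d : ℤ) : ℝ)| ≤ 1 := by
        rw [← Int.cast_abs]
        exact_mod_cast ArithmeticFunction.abs_moebius_le_one
      calc |((ArithmeticFunction.moebius d : ℤ) : ℝ)| * |F (Real.log d / LL X)| ≤ 1 * 1 := by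
            apply mul_le_mul hm (hF _) (abs_nonneg _) zero_le_one
        _ = 1 := one_mul 1
    · rw [if_neg (fun h => hd (Int.natCast_dvd_natCast.1 h)), if_neg hd, abs_zero]
  refine (sum_le_sum h1).trans ?_
  rw [← sum_filter, sum_const, nsmul_eq_mul, mul_one]
  calc (((adm E R).filter (fun d => d ∣ m)).card : ℝ) ≤ 2 ^ (m.primeFactors.filter (fun p => ¬ p ∣ W)).card := by
        exact_mod_cast card_sqf_divW (by omega) hE R
    _ ≤ 2 ^ ⌈400 / δ⌉₊ := pow_le_pow_right₀ (by norm_num) (rgW_omega hδ hX hL hm hmX h)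

open Classical in
/-- the statement of `posU` for `J` forms -/
def PosS (k m₀ J : ℕ) (δ c0 : ℝ) (z : ℕ) : Prop := ∀ᶠ X : ℝ in atTop,
    ∀ (W V : ℕ) (E : Finset ℕ) (a0 : ℕ) (t : Fin J → ℕ) (P : Finset (Fin J)), CS X z W E →
      W = m₀ * V → Squarefree V → DT E t → J ≤ 2 * P.card →
      (∀ j ∈ P, (a0 + t j).Coprime W) → (∀ j, (t j : ℝ) ≤ Real.sqrt X) →
      (∑ p ∈ E.filter (fun p => ¬ p ∣ W), (1 : ℝ) / p ≤ δ) → (W.totient : ℝ) ≤ 2 * (W * BE E) →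
      c0 * QQ J X W E ≤ ∑ n ∈ Icc 1 ⌊3 * X⌋₊, nu X W a0 n *
        (if (k + 1 ≤ (P.filter (fun j => (n + t j).Prime)).card) ∧ (∀ j, RgW δ X W (n + t j)) then 1 else 0)

theorem posU0 (k m₀ : ℕ) (hm₀ : 1 ≤ m₀) : ∃ K0 : ℕ, 2 ∣ K0 + 1 ∧ ∃ δ : ℝ, 0 < δ ∧ δ ≤ 1 / 10 ∧ ∃ c0 : ℝ, 0 < c0 ∧
    ∃ z : ℕ, PosS k m₀ (K0 + 1) δ c0 z := by
  classical
  obtain ⟨K0, B, f, A, hK2, hf1, δ, hδ, hδ1, c0, hc0, z, h⟩ := positivityP k m₀ hm₀
  set D : ℝ := ((A.card : ℝ) * (2 ^ ⌈400 / δ⌉₊) ^ (K0 + 1)) ^ 2 + 1 with hD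
  have hD0 : 0 < D := by positivity
  refine ⟨K0, hK2, δ, hδ, hδ1, c0 / D, by positivity, z, ?_⟩
  unfold PosS
  filter_upwards [h, eventually_ge_atTop 4, LL_tendsto.eventually_ge_atTop 1] with X h1 h4 h6
  intro W V E a0 t P hCS hWV hVsq hDT hP hcop ht hE1 hBW
  have h2 := h1 W V E a0 t P hCS hWV hVsq hDT hP hcop ht hE1 hBW
  have hEW : ∀ p : ℕ, p.Prime → p ∣ W → p ∈ E := by
    intro p hp hpW
    by_contra hpE
    exact hCS.dv p hp hpE hpW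
  rw [div_mul_eq_mul_div, div_le_iff₀ hD0, sum_mul]
  refine h2.trans ?_
  apply sum_le_sum
  intro n hn
  rw [mem_Icc] at hn
  have hn3 : (n : ℝ) ≤ 3 * X := (Nat.le_floor_iff (by linarith)).1 hn.2
  have hnu := nu_nonneg X W a0 n
  rw [mul_assoc]
  apply mul_le_mul_of_nonneg_left _ hnu
  by_cases hc : (k + 1 ≤ (P.filter (fun j => (n + t j).Prime)).card) ∧
      (∀ j, ∀ p ∈ (PS δ X).filter (fun p => ¬ p ∣ W), ¬ p ∣ n + t j)
  · have hc' : (k + 1 ≤ (P.filter (fun j => (n + t j).Prime)).card) ∧ (∀ j, RgW δ X W (n + t j)) := hc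
    rw [if_pos hc, if_pos hc', one_mul]
    have hsq : Real.sqrt X ≤ X := by
      rw [Real.sqrt_le_left (by linarith)]
      nlinarith
    have hV : ∀ (j : Fin (K0 + 1)) (l : Fin B), |VVm E (RR X) (LL X) (f l) ((n : ℤ) + t j)| ≤ 2 ^ ⌈400 / δ⌉₊ := by
      intro j l
      have e : (n : ℤ) + t j = ((n + t j : ℕ) : ℤ) := by push_cast; ring
      rw [e]
      apply VV_rgW_le hδ h4 h6 (by omega) _ (hc'.2 j) hEW _ _ (hf1 l)
      push_cast
      have := ht j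
      linarith
    have habs : |sqw E X f A (fun j => (n : ℤ) + t j)| ≤ (A.card : ℝ) * (2 ^ ⌈400 / δ⌉₊) ^ (K0 + 1) := by
      unfold sqw
      refine (abs_sum_le_sum_abs _ _).trans ?_
      rw [← nsmul_eq_mul]
      apply sum_le_card_nsmul
      intro a _
      rw [abs_prod]
      calc ∏ j : Fin (K0 + 1), |VVm E (RR X) (LL X) (f (a j)) ((n : ℤ) + t j)| ≤
            ∏ _j : Fin (K0 + 1), (2:ℝ) ^ ⌈400 / δ⌉₊ :=
            Finset.prod_le_prod (fun j _ => abs_nonneg _) (fun j _ => hV j (a j))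
        _ = _ := by rw [prod_const, card_univ, Fintype.card_fin]
    have hsqw : sqw E X f A (fun j => (n : ℤ) + t j) ^ 2 ≤ ((A.card : ℝ) * (2 ^ ⌈400 / δ⌉₊) ^ (K0 + 1)) ^ 2 := by
      rw [← sq_abs]
      exact pow_le_pow_left₀ (abs_nonneg _) habs 2
    rw [hD]
    linarith
  · have hc' : ¬ ((k + 1 ≤ (P.filter (fun j => (n + t j).Prime)).card) ∧ (∀ j, RgW δ X W (n + t j))) := hc
    rw [if_neg hc, if_neg hc', zero_mul]

/-- many `n` with several primes and no small prime factor, counted without weight -/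
theorem posU (k m₀ : ℕ) (hm₀ : 1 ≤ m₀) : ∃ K : ℕ, 1 ≤ K ∧ ∃ δ : ℝ, 0 < δ ∧ δ ≤ 1 / 10 ∧ ∃ c0 : ℝ, 0 < c0 ∧
    ∃ z : ℕ, PosS k m₀ (2 * K) δ c0 z := by
  obtain ⟨K0, ⟨K, hK⟩, δ, hδ, hδ1, c0, hc0, z, h⟩ := posU0 k m₀ hm₀
  rw [hK] at h
  exact ⟨K, by omega, δ, hδ, hδ1, c0, hc0, z, h⟩

end Pool.Agent.Y848.MS
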