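import Pool.Agent.Y848.MS.Eng
import Pool.Agent.Y848.MS.DCls
import Pool.Agent.Y848.MS.Ord

set_option autoImplicit false

/-! # Strings of consecutive primes with a common primitive root -/

open Finset Filter Topology

namespace Pool.Agent.Y848.MS

open Pool.Agent.H378R2 Pool.Agent.H387R2.MB
open Pool.Agent.H387R2 (Uni.WW Uni.WW_pos)

open Classical in
theorem many_good (k : ℕ) : ∃ K : ℕ, 1 ≤ K ∧ ∃ δ : ℝ, 0 < δ ∧ δ ≤ 1 / 10 ∧ ∃ κ : ℕ, ∃ z : ℕ,
    ∀ (y c V a0 H : ℕ) (t : Fin (2 * K) → ℕ), z ≤ y → Cfg K y c V a0 H t → ∀ᶠ X : ℝ in atTop,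
      X / Real.log X ^ κ ≤
        (#((Ioc ⌊X⌋₊ ⌊3 * X⌋₊).filter (fun n => n ≡ a0 [MOD 4 * V] ∧ Gd k K δ X V t n)) : ℝ) := by
  obtain ⟨K, hK, δ, hδ, hδ1, c0, hc0, z, h⟩ := engine k
  refine ⟨K, hK, δ, hδ, hδ1, 2 * K + 4, z, ?_⟩
  intro y c V a0 H t hzy hC
  filter_upwards [h y c V a0 H t hzy hC, QQ_ge (2 * K), Real.tendsto_log_atTop.eventually_ge_atTop (20 / c0),
    eventually_ge_atTop 4, Real.tendsto_log_atTop.eventually_ge_atTop 1] with X h1 h2 h3 h4 h5
  obtain ⟨hCS, h1⟩ := h1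
  have hX0 : 0 < X := by linarith
  have hQ := h2 (4 * V) (4 * V).primeFactors hCS.pos hCS.le hCS.gs.pr
  have e1 : X / Real.log X ^ (2 * K + 4) ≤ c0 * QQ (2 * K) X (4 * V) (4 * V).primeFactors := by
    refine le_trans ?_ (mul_le_mul_of_nonneg_left hQ hc0.le)
    rw [mul_div_assoc', div_le_div_iff₀ (by positivity) (by positivity)]
    have h6 : 20 ≤ Real.log X * c0 := by
      rw [div_le_iff₀ hc0] at h3; exact h3
    have h7 : Real.log X ^ (2 * K + 4) = Real.log X ^ (3 + 2 * K) * Real.log X := by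
      rw [← pow_succ]; congr 1; omega
    rw [h7]
    have h8 : 0 ≤ X * Real.log X ^ (3 + 2 * K) := by positivity
    calc X * (20 * Real.log X ^ (3 + 2 * K)) = 20 * (X * Real.log X ^ (3 + 2 * K)) := by ring
      _ ≤ (Real.log X * c0) * (X * Real.log X ^ (3 + 2 * K)) := mul_le_mul_of_nonneg_right h6 h8
      _ = _ := by ring
  refine e1.trans (h1.trans ?_)
  rw [card_filter]
  push_cast
  have hsub : Ioc ⌊X⌋₊ ⌊3 * X⌋₊ ⊆ Icc 1 ⌊3 * X⌋₊ := by
    intro n hn
    rw [mem_Ioc] at hn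
    rw [mem_Icc]
    omega
  rw [← sum_subset hsub (f := fun n => nu X (4 * V) a0 n * (if Gd k K δ X V t n then 1 else 0))]
  · apply sum_le_sum
    intro n _
    unfold nu
    by_cases hn : n ≡ a0 [MOD 4 * V]
    · rw [if_pos hn]
      by_cases hg : Gd k K δ X V t n
      · rw [if_pos hg, if_pos ⟨hn, hg⟩, mul_one]
        exact Phi_le_one _
      · rw [if_neg hg, if_neg (fun h => hg h.2), mul_zero]
    · rw [if_neg hn, zero_mul]
      split_ifs <;> norm_num
  · intro n hn hn'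
    rw [mem_Icc] at hn
    rw [mem_Ioc] at hn'
    have h6 : n ≤ ⌊X⌋₊ := by omega
    have h7 : (n : ℝ) ≤ X := (Nat.le_floor_iff hX0.le).1 h6
    have h8 : Phi (n / X) = 0 := by
      apply Phi_eq_zero_of_le (by positivity)
      rw [div_le_one hX0]; exact h7
    unfold nu
    split_ifs <;> simp [h8]

/-- the exceptional primes for the group generated by some elements of `T` -/
theorem bad_set (T : Finset ℤ) (hT : ∀ n ∈ T, 2 ≤ n.natAbs) (hcop : ∀ n ∈ T, ∀ n' ∈ T, n ≠ n' → IsCoprime n n')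
    (η : ℝ) (hη : 0 < η) (hη1 : η ≤ 1) : ∃ C : ℝ, 0 < C ∧ ∀ L : ℝ, 0 ≤ L → ∃ B : Finset ℕ,
      (#B : ℝ) ≤ C * Real.exp ((1 - η ^ 2) * L) ∧
      ∀ p : ℕ, p.Prime → (∀ n ∈ T, ¬ (p : ℤ) ∣ n) → p ∉ B → ∀ g : ℕ, 0 < g → (g : ℝ) ≤ Real.exp ((1 - η) * L) →
        #(T.filter (fun n : ℤ => (n : ZMod p) ^ g = 1)) < ⌈1 / η⌉₊ := by
  classical
  obtain ⟨r, hr⟩ : ∃ r, r = ⌈1 / η⌉₊ := ⟨_, rfl⟩
  have hr1 : 1 ≤ r := by
    rw [hr]; exact Nat.one_le_ceil_iff.2 (by positivity)
  have hrη : 1 ≤ η * r := by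
    have h1 : 1 / η ≤ r := by rw [hr]; exact Nat.le_ceil _
    rw [div_le_iff₀ hη] at h1
    linarith
  obtain ⟨M, hM⟩ : ∃ M, M = T.sup Int.natAbs := ⟨_, rfl⟩
  have hMT : ∀ n ∈ T, n.natAbs ≤ M := fun n hn => by rw [hM]; exact Finset.le_sup (f := Int.natAbs) hn
  refine ⟨(#T : ℝ) ^ r * 3 ^ r * (M ^ r + 1) + 1, by positivity, ?_⟩
  intro L hL
  obtain ⟨u, hu⟩ : ∃ u, u = Real.exp ((1 - η) * L / r) := ⟨_, rfl⟩
  have hr0 : (0:ℝ) < r := by exact_mod_cast hr1
  have hu1 : 1 ≤ u := by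
    rw [hu]; apply Real.one_le_exp
    apply div_nonneg _ hr0.le
    exact mul_nonneg (by linarith) hL
  have hur : u ^ r = Real.exp ((1 - η) * L) := by
    rw [hu, ← Real.exp_nat_mul]
    congr 1
    field_simp
  obtain ⟨N, hN⟩ : ∃ N, N = ⌊u⌋₊ := ⟨_, rfl⟩
  have hNu : (N : ℝ) ≤ u := by rw [hN]; exact Nat.floor_le (by linarith)
  have huN : u < (N : ℝ) + 1 := by rw [hN]; exact Nat.lt_floor_add_one u
  have hBb : ∀ b : Fin r → ℤ, ∃ B : Finset ℕ, (∀ i, b i ∈ T) → Function.Injective b →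
      B.card ≤ (2 * N + 1) ^ r * (N * M ^ r + 1) ∧
      ∀ p : ℕ, p.Prime → (∀ i, ¬ (p : ℤ) ∣ b i) → ∀ g : ℕ, 0 < g → g < (N + 1) ^ r →
        (∀ i, ((b i : ℤ) : ZMod p) ^ g = 1) → p ∈ B := by
    intro b
    by_cases hb : (∀ i, b i ∈ T) ∧ Function.Injective b
    · obtain ⟨B, hB1, hB2⟩ := gm_count b (fun i => hT _ (hb.1 i))
        (fun i j hij => hcop _ (hb.1 i) _ (hb.1 j) (fun h => hij (hb.2 h))) N
      refine ⟨B, fun _ _ => ⟨hB1.trans ?_, hB2⟩⟩
      apply Nat.mul_le_mul_left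
      apply Nat.add_le_add_right
      apply Nat.mul_le_mul_left
      calc ∏ i, (b i).natAbs ≤ ∏ _i : Fin r, M := Finset.prod_le_prod' fun i _ => hMT _ (hb.1 i)
        _ = M ^ r := by rw [prod_const, card_univ, Fintype.card_fin]
    · exact ⟨∅, fun h1 h2 => absurd ⟨h1, h2⟩ hb⟩
  choose Bb hBb using hBb
  refine ⟨(Fintype.piFinset (fun _ : Fin r => T)).biUnion (fun b => if Function.Injective b then Bb b else ∅), ?_, ?_⟩
  · have h1 : ∀ b ∈ Fintype.piFinset (fun _ : Fin r => T),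
        (if Function.Injective b then Bb b else ∅).card ≤ (2 * N + 1) ^ r * (N * M ^ r + 1) := by
      intro b hb
      rw [Fintype.mem_piFinset] at hb
      split_ifs with hi
      · exact (hBb b hb hi).1
      · rw [card_empty]; exact Nat.zero_le _
    have h2 := card_biUnion_le.trans (sum_le_card_nsmul _ _ _ h1)
    rw [Fintype.card_piFinset, prod_const, card_univ, Fintype.card_fin, smul_eq_mul] at h2
    have h3 : ((#((Fintype.piFinset (fun _ : Fin r => T)).biUnion (fun b => if Function.Injective b then Bb b else ∅)) : ℕ) : ℝ) ≤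
        (#T : ℝ) ^ r * ((2 * N + 1) ^ r * (N * M ^ r + 1)) := by exact_mod_cast h2
    refine h3.trans ?_
    have h4 : (2 * (N : ℝ) + 1) ^ r ≤ 3 ^ r * Real.exp ((1 - η) * L) := by
      rw [← hur, ← mul_pow]
      apply pow_le_pow_left₀ (by positivity)
      linarith
    have h5 : (N : ℝ) * M ^ r + 1 ≤ (M ^ r + 1) * u := by
      have : (0:ℝ) ≤ (M:ℝ) ^ r := by positivity
      nlinarith
    have h6 : Real.exp ((1 - η) * L) * u ≤ Real.exp ((1 - η ^ 2) * L) := by
      rw [hu, ← Real.exp_add]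
      apply Real.exp_le_exp.2
      have h7 : (1 - η) * L / r ≤ (1 - η) * L * η := by
        rw [div_le_iff₀ hr0]
        have h8 : 0 ≤ (1 - η) * L := mul_nonneg (by linarith) hL
        nlinarith
      nlinarith
    have hM0 : (0:ℝ) ≤ (M:ℝ) ^ r := by positivity
    calc (#T : ℝ) ^ r * ((2 * N + 1) ^ r * (N * M ^ r + 1)) ≤
        (#T : ℝ) ^ r * ((3 ^ r * Real.exp ((1 - η) * L)) * ((M ^ r + 1) * u)) := by gcongr
      _ = (#T : ℝ) ^ r * 3 ^ r * (M ^ r + 1) * (Real.exp ((1 - η) * L) * u) := by ring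
      _ ≤ (#T : ℝ) ^ r * 3 ^ r * (M ^ r + 1) * Real.exp ((1 - η ^ 2) * L) := by gcongr
      _ ≤ _ := by
          apply mul_le_mul_of_nonneg_right _ (Real.exp_pos _).le
          linarith
  · intro p hp hpT hpB g hg0 hg
    rw [← hr]
    by_contra hcon
    push Not at hcon
    obtain ⟨S, hST, hSc⟩ := exists_subset_card_eq hcon
    apply hpB
    rw [mem_biUnion]
    set e := S.equivFinOfCardEq hSc
    have hbT : ∀ i, ((e.symm i : S) : ℤ) ∈ T.filter (fun n : ℤ => (n : ZMod p) ^ g = 1) := fun i => hST (e.symm i).2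
    refine ⟨fun i => ((e.symm i : S) : ℤ), ?_, ?_⟩
    · rw [Fintype.mem_piFinset]
      intro i
      exact (mem_filter.1 (hbT i)).1
    · have hinj : Function.Injective (fun i => ((e.symm i : S) : ℤ)) := by
        intro i j hij
        exact e.symm.injective (Subtype.ext hij)
      rw [if_pos hinj]
      apply (hBb _ (fun i => (mem_filter.1 (hbT i)).1) hinj).2 p hp (fun i => hpT _ (mem_filter.1 (hbT i)).1) g hg0
      · have h1 : (g : ℝ) < ((N + 1) ^ r : ℕ) := by
          push_cast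
          calc (g : ℝ) ≤ u ^ r := by rw [hur]; exact hg
            _ < ((N : ℝ) + 1) ^ r := pow_lt_pow_left₀ huN (by linarith) (by omega)
        exact_mod_cast h1
      · intro i
        exact (mem_filter.1 (hbT i)).2

/-- square-free part -/
lemma sqf_part {n : ℤ} (hn : ¬ IsSquare n) : ∃ D b : ℤ, n = D * b ^ 2 ∧ Squarefree D ∧ D ≠ 1 ∧ b ≠ 0 := by
  have hn0 : n ≠ 0 := by
    rintro rfl
    exact hn ⟨0, by ring⟩
  obtain ⟨a, b, hab, ha⟩ := Nat.sq_mul_squarefree n.natAbs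
  have hb0 : b ≠ 0 := by
    rintro rfl
    rw [zero_pow (by norm_num), zero_mul] at hab
    exact hn0 (Int.natAbs_eq_zero.1 hab.symm)
  rcases Int.natAbs_eq n with h | h
  · refine ⟨a, b, ?_, ?_, ?_, by exact_mod_cast hb0⟩
    · rw [h, ← hab]; push_cast; ring
    · rwa [Int.squarefree_natCast]
    · rintro h1
      apply hn
      refine ⟨b, ?_⟩
      rw [h, ← hab]
      push_cast
      rw [h1]; ring
  · refine ⟨-a, b, ?_, ?_, ?_, by exact_mod_cast hb0⟩
    · rw [h, ← hab]; push_cast; ring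
    · rw [← Int.squarefree_natAbs, Int.natAbs_neg, Int.natAbs_natCast]; exact ha
    · omega

/-- infinitely many intervals of bounded length with at least `m` primes, such that `b` is a primitive
root of every prime in the interval -/
def Str (m : ℕ) (b : ℤ) : Prop := ∃ H : ℕ, ∀ N₀ : ℕ, ∃ n : ℕ, N₀ ≤ n ∧
  m ≤ #((Ioc n (n + H)).filter Nat.Prime) ∧ ∀ p ∈ Ioc n (n + H), p.Prime → orderOf ((b : ℤ) : ZMod p) = p - 1

theorem thmA_core (m : ℕ) : ∃ C : ℕ, ∀ T : Finset ℤ,
    (∀ n ∈ T, 2 ≤ n.natAbs ∧ ¬ (2:ℤ) ∣ n ∧ ¬ (3:ℤ) ∣ n ∧ ¬ IsSquare n) →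
    (∀ n ∈ T, ∀ n' ∈ T, n ≠ n' → IsCoprime n n') → C < #T → ∃ b ∈ T, Str m b := by
  classical
  obtain ⟨K, hK, δ, hδ, hδ1, κ, z, hG⟩ := many_good m
  obtain ⟨η, hη⟩ : ∃ η, η = δ / 400 := ⟨_, rfl⟩
  have hη0 : 0 < η := by rw [hη]; positivity
  have hη1 : η ≤ 1 := by rw [hη]; linarith
  refine ⟨2 * K * (⌈400 / δ⌉₊ * ⌈1 / η⌉₊), ?_⟩
  intro T hT hcop hTC
  -- square-free parts
  have hsp : ∀ n : ℤ, ∃ D b : ℤ, n ∈ T → n = D * b ^ 2 ∧ Squarefree D ∧ D ≠ 1 ∧ b ≠ 0 := by
    intro n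
    by_cases hn : n ∈ T
    · obtain ⟨D, b, h⟩ := sqf_part (hT n hn).2.2.2
      exact ⟨D, b, fun _ => h⟩
    · exact ⟨0, 0, fun h => absurd h hn⟩
  choose D b hDb using hsp
  have hDdvd : ∀ n ∈ T, D n ∣ n := by
    intro n hn
    exact ⟨b n ^ 2, (hDb n hn).1⟩
  obtain ⟨y, hy⟩ : ∃ y, y = z + (2 * K + 3) + (T.image D).sup Int.natAbs := ⟨_, rfl⟩
  obtain ⟨c, hc8, hc0, hc1, hcD⟩ := common_class (T.image D)
    (by
      intro d hd
      obtain ⟨n, hn, rfl⟩ := mem_image.1 hd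
      exact ⟨(hDb n hn).2.1, fun h => (hT n hn).2.1 (h.trans (hDdvd n hn)),
        fun h => (hT n hn).2.2.1 (h.trans (hDdvd n hn)), (hDb n hn).2.2.1⟩)
    (by
      intro d hd d' hd' hdd
      obtain ⟨n, hn, rfl⟩ := mem_image.1 hd
      obtain ⟨n', hn', rfl⟩ := mem_image.1 hd'
      have hnn : n ≠ n' := fun h => hdd (by rw [h])
      exact (hcop n hn n' hn' hnn).of_isCoprime_of_dvd_left (hDdvd n hn) |>.of_isCoprime_of_dvd_right (hDdvd n' hn'))
    (y := y) (by omega)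
    (by
      intro d hd
      have := Finset.le_sup (f := Int.natAbs) hd
      omega)
  obtain ⟨V, a0, H, t, hC⟩ := exists_cfg K y c (by omega) hc8 hc0 hc1
  have hG' := hG y c V a0 H t (by omega) hC
  obtain ⟨C1, hC1, hBad⟩ := bad_set T (fun n hn => (hT n hn).1) hcop η hη0 hη1
  -- the conclusion for one `n`
  have hone : ∀ᶠ X : ℝ in atTop, ∃ n : ℕ, X < n ∧ (m ≤ #((Ioc n (n + H)).filter Nat.Prime)) ∧
      ∃ b ∈ T, ∀ p ∈ Ioc n (n + H), p.Prime → orderOf ((b : ℤ) : ZMod p) = p - 1 := by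
    have hlim := Real.tendsto_log_atTop.eventually (ev_pow_exp κ (η ^ 2) ((H + 1) * C1 + 1) (by positivity))
    filter_upwards [hG', hlim, eventually_ge_atTop 4, eventually_ge_atTop (H : ℝ), eventually_ge_atTop ((4 * V : ℕ) : ℝ),
      eventually_ge_atTop ((T.sup Int.natAbs : ℕ) : ℝ), Real.tendsto_log_atTop.eventually_ge_atTop (2 / η),
      LL_tendsto.eventually_ge_atTop 1]
      with X h1 h2 h3 h4 h5 h6 h7 h8
    have hX0 : 0 < X := by linarith
    have hL1 : 1 ≤ Real.log X := by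
      refine le_trans ?_ h7
      rw [le_div_iff₀ hη0]; linarith
    obtain ⟨B, hB1, hB2⟩ := hBad (Real.log X) (by linarith)
    -- a good `n` without bad primes
    obtain ⟨n, hn, hnB⟩ : ∃ n ∈ (Ioc ⌊X⌋₊ ⌊3 * X⌋₊).filter (fun n => n ≡ a0 [MOD 4 * V] ∧ Gd m K δ X V t n),
        ∀ p ∈ Ioc n (n + H), p ∉ B := by
      by_contra hcon
      push Not at hcon
      have hsub : (Ioc ⌊X⌋₊ ⌊3 * X⌋₊).filter (fun n => n ≡ a0 [MOD 4 * V] ∧ Gd m K δ X V t n) ⊆
          B.biUnion (fun p => Icc (p - H) p) := by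
        intro n hn
        obtain ⟨p, hp, hpB⟩ := hcon n hn
        rw [mem_biUnion]
        rw [mem_Ioc] at hp
        exact ⟨p, hpB, mem_Icc.2 ⟨by omega, by omega⟩⟩
      have h9 := (card_le_card hsub).trans (card_biUnion_le.trans (sum_le_card_nsmul _ _ (H + 1) (fun p _ => by
        rw [Nat.card_Icc]; omega)))
      rw [smul_eq_mul] at h9
      have h10 : X / Real.log X ^ κ ≤ (#B : ℝ) * (H + 1) := h1.trans (by exact_mod_cast h9)
      have h11 : X / Real.log X ^ κ ≤ C1 * Real.exp ((1 - η ^ 2) * Real.log X) * (H + 1) :=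
        h10.trans (mul_le_mul_of_nonneg_right hB1 (by positivity))
      rw [div_le_iff₀ (by positivity)] at h11
      have h12 : Real.exp ((1 - η ^ 2) * Real.log X) * Real.exp (η ^ 2 * Real.log X) = X := by
        rw [← Real.exp_add]
        rw [show (1 - η ^ 2) * Real.log X + η ^ 2 * Real.log X = Real.log X by ring, Real.exp_log hX0]
      have hE : 0 < Real.exp ((1 - η ^ 2) * Real.log X) := Real.exp_pos _
      have hlk : 1 ≤ Real.log X ^ κ := one_le_pow₀ hL1
      have h13 : Real.exp ((1 - η ^ 2) * Real.log X) * (((H + 1) * C1 + 1) * Real.log X ^ κ) ≤ X := by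
        calc _ ≤ Real.exp ((1 - η ^ 2) * Real.log X) * Real.exp (η ^ 2 * Real.log X) :=
              mul_le_mul_of_nonneg_left h2 hE.le
          _ = X := h12
      have h14 : 0 < Real.exp ((1 - η ^ 2) * Real.log X) * Real.log X ^ κ := by positivity
      nlinarith
    rw [mem_filter, mem_Ioc] at hn
    obtain ⟨⟨hnX, hn3X⟩, hna, hnG⟩ := hn
    have hnX' : X < n := (Nat.floor_lt hX0.le).1 hnX
    have hn3' : (n : ℝ) ≤ 3 * X := (Nat.le_floor_iff (by linarith)).1 hn3X
    have hnV : 4 * V < n := by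
      have : ((4 * V : ℕ) : ℝ) < n := lt_of_le_of_lt h5 hnX'
      exact_mod_cast this
    obtain ⟨hstr1, hstr2⟩ := gd_str hC hna hnV hnG
    refine ⟨n, hnX', by omega, ?_⟩
    -- the failing bases
    set Pn := (Ioc n (n + H)).filter Nat.Prime with hPn
    have hPnc : #Pn ≤ 2 * K := by
      have hsub : Pn ⊆ univ.image (fun j : Fin (2 * K) => n + t j + 1) := by
        intro p hp
        rw [hPn, mem_filter] at hp
        obtain ⟨j, _, _, hj, _⟩ := hstr2 p hp.1 hp.2
        rw [mem_image]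
        exact ⟨j, mem_univ _, hj.symm⟩
      have := (card_le_card hsub).trans card_image_le
      rwa [card_univ, Fintype.card_fin] at this
    by_contra hcon
    push Not at hcon
    have hcov : T ⊆ Pn.biUnion (fun p => ((p - 1).primeFactors.filter (fun q => ¬ q ∣ 4 * V)).biUnion
        (fun q => T.filter (fun b : ℤ => (b : ZMod p) ^ ((p - 1) / q) = 1))) := by
      intro b0 hb0
      obtain ⟨p, hp, hpp, hord⟩ := hcon b0 hb0
      have : Fact p.Prime := ⟨hpp⟩
      have hpn := mem_Ioc.1 hp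
      have hpX : X < p := hnX'.trans (by exact_mod_cast hpn.1)
      have hpb : ¬ (p : ℤ) ∣ b0 := by
        intro hd
        have h9 := Int.natAbs_dvd_natAbs.2 hd
        rw [Int.natAbs_natCast] at h9
        have h10 := Nat.le_of_dvd (by have := (hT b0 hb0).1; omega) h9
        have h11 : b0.natAbs ≤ T.sup Int.natAbs := Finset.le_sup (f := Int.natAbs) hb0
        have h12 : (p : ℝ) ≤ ((T.sup Int.natAbs : ℕ) : ℝ) := by exact_mod_cast h10.trans h11
        linarith
      have hb00 : ((b0 : ℤ) : ZMod p) ≠ 0 := by rwa [Ne, ZMod.intCast_zmod_eq_zero_iff_dvd]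
      obtain ⟨q, hq, hqd, hq1⟩ := Pool.Agent.TH891.PR.exists_prime_of_order hb00 hord
      obtain ⟨j, hj, hpj, hpj', hpc, hqbig⟩ := hstr2 p hp hpp
      have hp2 : p ≠ 2 := by
        rintro rfl
        have : (4:ℝ) < ((2:ℕ) : ℝ) := lt_of_le_of_lt h3 hpX
        norm_num at this
      have hq2 : q ≠ 2 := by
        rintro rfl
        have hJ := hcD (D b0) (mem_image_of_mem D hb0) p hpc
        rw [← jacobiSym.legendreSym.to_jacobiSym] at hJ
        have hDb0 := (hDb b0 hb0).1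
        have hbb : ((b b0 * ((1 : ℕ) : ℤ) ^ (0 / 2) : ℤ) : ZMod p) ≠ 0 := by
          rw [Ne, ZMod.intCast_zmod_eq_zero_iff_dvd]
          intro hd
          apply hpb
          rw [hDb0]
          refine Dvd.dvd.mul_left ?_ _
          have : (p : ℤ) ∣ b b0 := by simpa using hd
          exact this.trans (dvd_pow_self _ (by norm_num))
        have := Pool.Agent.TH891.PR.not_two (D := D b0) (b := b b0) (m := 1) (r := 0) (by norm_num) hp2 hJ hbb
        apply this
        have e : (D b0 * b b0 ^ 2 * ((1 : ℕ) : ℤ) ^ 0 : ℤ) = b0 := by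
          rw [pow_zero, mul_one]; exact hDb0.symm
        rw [e]
        exact hq1
      obtain ⟨hqV, _⟩ := hqbig q hq hqd hq2
      rw [mem_biUnion]
      refine ⟨p, by rw [hPn, mem_filter]; exact ⟨hp, hpp⟩, ?_⟩
      rw [mem_biUnion]
      have hp1 : p - 1 ≠ 0 := by have := hpp.two_le; omega
      exact ⟨q, mem_filter.2 ⟨Nat.mem_primeFactors.2 ⟨hq, hqd, hp1⟩, hqV⟩, mem_filter.2 ⟨hb0, hq1⟩⟩
    have hcount : ∀ p ∈ Pn, #(((p - 1).primeFactors.filter (fun q => ¬ q ∣ 4 * V)).biUnion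
        (fun q => T.filter (fun b : ℤ => (b : ZMod p) ^ ((p - 1) / q) = 1))) ≤ ⌈400 / δ⌉₊ * ⌈1 / η⌉₊ := by
      intro p hp
      rw [hPn, mem_filter] at hp
      obtain ⟨hp, hpp⟩ := hp
      have : Fact p.Prime := ⟨hpp⟩
      have hpn := mem_Ioc.1 hp
      have hpX : X < p := hnX'.trans (by exact_mod_cast hpn.1)
      obtain ⟨j, hj, hpj, hpj', hpc, hqbig⟩ := hstr2 p hp hpp
      have hp4 : (p : ℝ) ≤ 4 * X := by
        have : (p : ℝ) ≤ n + H := by exact_mod_cast hpn.2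
        linarith
      have h9 : ∀ q ∈ (p - 1).primeFactors.filter (fun q => ¬ q ∣ 4 * V),
          #(T.filter (fun b : ℤ => (b : ZMod p) ^ ((p - 1) / q) = 1)) ≤ ⌈1 / η⌉₊ := by
        intro q hq
        rw [mem_filter, Nat.mem_primeFactors] at hq
        obtain ⟨⟨hqp, hqd, hp1⟩, hqV⟩ := hq
        have hq2 : q ≠ 2 := by
          rintro rfl
          exact hqV ((by norm_num : (2:ℕ) ∣ 4).mul_right V)
        have hqbig' := (hqbig q hqp hqd hq2).2
        apply le_of_lt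
        apply hB2 p hpp _ (hnB p hp)
        · exact Nat.div_pos (Nat.le_of_dvd (Nat.pos_of_ne_zero hp1) hqd) hqp.pos
        · have hq0 : (0:ℝ) < q := by exact_mod_cast hqp.pos
          have h10 : (((p - 1) / q : ℕ) : ℝ) ≤ (p : ℝ) / q := by
            refine Nat.cast_div_le.trans ?_
            apply div_le_div_of_nonneg_right _ hq0.le
            exact_mod_cast Nat.sub_le _ _
          refine h10.trans ?_
          rw [div_le_iff₀ hq0]
          have h11 : Real.exp ((1 - η) * Real.log X) * Real.exp (δ * LL X) =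
              X * Real.exp (η * Real.log X) := by
            rw [← Real.exp_add]
            have : (1 - η) * Real.log X + δ * LL X = Real.log X + η * Real.log X := by
              unfold LL; rw [hη]; ring
            rw [this, Real.exp_add, Real.exp_log hX0]
          have h12 : 4 ≤ Real.exp (η * Real.log X) := by
            have h13 : 2 ≤ η * Real.log X := by
              rw [div_le_iff₀ hη0] at h7; linarith
            calc (4:ℝ) ≤ Real.exp 2 := by
                  have h14 : Real.exp 2 = Real.exp 1 * Real.exp 1 := by rw [← Real.exp_add]; norm_num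
                  have h15 : (2:ℝ) ≤ Real.exp 1 := by have := Real.exp_one_gt_d9; linarith
                  rw [h14]; nlinarith
              _ ≤ _ := Real.exp_le_exp.2 h13
          calc (p : ℝ) ≤ 4 * X := hp4
            _ ≤ X * Real.exp (η * Real.log X) := by nlinarith
            _ = Real.exp ((1 - η) * Real.log X) * Real.exp (δ * LL X) := h11.symm
            _ ≤ _ := mul_le_mul_of_nonneg_left hqbig'.le (Real.exp_pos _).le
        · intro b0 hb0 hd
          have h9 := Int.natAbs_dvd_natAbs.2 hd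
          rw [Int.natAbs_natCast] at h9
          have h10 := Nat.le_of_dvd (by have := (hT b0 hb0).1; omega) h9
          have h11 : b0.natAbs ≤ T.sup Int.natAbs := Finset.le_sup (f := Int.natAbs) hb0
          have h12 : (p : ℝ) ≤ ((T.sup Int.natAbs : ℕ) : ℝ) := by exact_mod_cast h10.trans h11
          linarith
      have h10 := card_biUnion_le.trans (sum_le_card_nsmul _ _ _ h9)
      rw [smul_eq_mul] at h10
      refine h10.trans ?_
      apply Nat.mul_le_mul_right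
      have hpe : p - 1 = n + t j := hpj
      rw [hpe]
      apply rgW_omega hδ h3 h8 (by omega) _ (hnG.2 j)
      have : ((n + t j : ℕ) : ℝ) ≤ p := by exact_mod_cast (by omega : n + t j ≤ p)
      linarith
    have hfin := (card_le_card hcov).trans (card_biUnion_le.trans (sum_le_card_nsmul _ _ _ hcount))
    rw [smul_eq_mul] at hfin
    have := Nat.mul_le_mul_right (⌈400 / δ⌉₊ * ⌈1 / η⌉₊) hPnc
    omega
  -- pigeonhole
  by_contra hcon
  push Not at hcon
  have hN : ∀ b : ℤ, ∃ N₀ : ℕ, b ∈ T → ∀ n : ℕ, N₀ ≤ n → (m ≤ #((Ioc n (n + H)).filter Nat.Prime)) →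
      ¬ ∀ p ∈ Ioc n (n + H), p.Prime → orderOf ((b : ℤ) : ZMod p) = p - 1 := by
    intro b0
    by_cases hb0 : b0 ∈ T
    · have h1 := hcon b0 hb0
      unfold Str at h1
      push Not at h1
      obtain ⟨N₀, h2⟩ := h1 H
      refine ⟨N₀, fun _ n hn hm hall => ?_⟩
      obtain ⟨p, hp, hpp, hne⟩ := h2 n hn hm
      exact hne (hall p hp hpp)
    · exact ⟨0, fun h => absurd h hb0⟩
  choose N₀ hN₀ using hN
  obtain ⟨X, hX, hX2⟩ := (hone.and (eventually_ge_atTop ((T.sup N₀ : ℕ) : ℝ))).exists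
  obtain ⟨n, hnX, hm, b0, hb0, hall⟩ := hX
  have h1 : N₀ b0 ≤ n := by
    have h2 : N₀ b0 ≤ T.sup N₀ := Finset.le_sup hb0
    have h3 : ((T.sup N₀ : ℕ) : ℝ) < n := lt_of_le_of_lt hX2 hnX
    have h4 : T.sup N₀ < n := by exact_mod_cast h3
    omega
  exact hN₀ b0 hb0 n h1 hm hall

end Pool.Agent.Y848.MS
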