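import Pool.Agent.Y848.MS.Mid2
import Pool.Agent.Y848.MS.DCls
import Pool.Agent.Y848.MS.Ord

set_option autoImplicit false

/-! # Strings of consecutive primes modulo which all small bases have large order -/

open Finset Filter Topology

namespace Pool.Agent.Y848.MS

open Pool.Agent.H378R2 Pool.Agent.H387R2.MB
open Pool.Agent.H387R2 (Uni.WW Uni.WW_pos)

/-- the property of the string of primes in `(N, N + H]` -/
def GoodB (m H : ℕ) (δ x : ℝ) (N : ℕ) : Prop :=
  m ≤ #((Ioc N (N + H)).filter Nat.Prime) ∧ ∀ p ∈ Ioc N (N + H), p.Prime →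
    p % 8 = 3 ∧ (∀ q : ℕ, q.Prime → q ∣ (p - 1) / 2 → x ^ δ < q) ∧
    (∀ q : ℕ, q.Prime → q ∣ (p - 1) / orderOf (2 : ZMod p) → x ^ δ < q) ∧
    ∀ a : ℕ, 2 ≤ a → (a : ℝ) ≤ x ^ δ → (p : ℝ) ^ (1 / 2 + δ) < orderOf (a : ZMod p)

open Classical in
theorem thmB_core (m : ℕ) : ∃ δ : ℝ, 0 < δ ∧ ∃ H κ : ℕ, ∀ᶠ x : ℝ in atTop,
    x / Real.log x ^ κ ≤ (#((Icc 1 ⌊x⌋₊).filter (fun N => GoodB m H δ x N)) : ℝ) := by
  obtain ⟨K, hK, δ, hδ, hδ1, c0, hc0, z1, hE⟩ := engine m
  obtain ⟨z2, hM⟩ := mid_small K hδ
  obtain ⟨y, hy⟩ : ∃ y, y = z1 + z2 + (2 * K + 3) := ⟨_, rfl⟩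
  obtain ⟨c, hc8, hcA, hcB, -⟩ := common_class ∅ (by simp) (by simp) (y := y) (by omega) (by simp)
  obtain ⟨V, a0, H, t, hC⟩ := exists_cfg K y c (by omega) hc8 hcA hcB
  obtain ⟨ε, hε, hε8, hMid⟩ := hM y c V a0 H t (by omega) (by omega) hc8 hC (c0 / 2) (by positivity)
  have hEng := hE y c V a0 H t (by omega) hC
  obtain ⟨δ0, hδ0⟩ : ∃ δ0, δ0 = min (δ / 400) (ε / 4) := ⟨_, rfl⟩
  have hδ0pos : 0 < δ0 := by rw [hδ0]; exact lt_min (by positivity) (by positivity)
  have hδ0a : δ0 ≤ δ / 400 := by rw [hδ0]; exact min_le_left _ _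
  have hδ0b : δ0 ≤ ε / 4 := by rw [hδ0]; exact min_le_right _ _
  refine ⟨δ0, hδ0pos, H, 2 * K + 5, ?_⟩
  have hkey : ∀ᶠ X : ℝ in atTop, 3 * X / Real.log (3 * X) ^ (2 * K + 5) ≤
      (#((Icc 1 ⌊3 * X⌋₊).filter (fun N => GoodB m H δ0 (3 * X) N)) : ℝ) := by
    have hlim := Real.tendsto_log_atTop.eventually (ev_pow_exp (2 * K + 4) ε (2 * (H + 1)) hε)
    filter_upwards [hEng, hMid, QQ_ge (2 * K), hlim, eventually_ge_atTop 4, LL_tendsto.eventually_ge_atTop 1,
      eventually_ge_atTop (H : ℝ), eventually_ge_atTop ((4 * V : ℕ) : ℝ),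
      Real.tendsto_log_atTop.eventually_ge_atTop (40 / c0), Real.tendsto_log_atTop.eventually_ge_atTop (4 / ε)]
      with X h1 h2 h3 h4 h5 h6 h7 h8 h9 h10
    have hX0 : 0 < X := by linarith
    have hlog : 200 ≤ Real.log X := by unfold LL at h6; linarith
    obtain ⟨L, hL⟩ : ∃ L, L = Real.log X := ⟨_, rfl⟩
    rw [← hL] at h2 h3 h4 h9 h10 hlog
    have hXe : Real.exp L = X := by rw [hL, Real.exp_log hX0]
    obtain ⟨hCS, h1⟩ := h1
    obtain ⟨Q, hQ⟩ : ∃ Q, Q = QQ (2 * K) X (4 * V) (4 * V).primeFactors := ⟨_, rfl⟩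
    have hQge := h3 (4 * V) (4 * V).primeFactors hCS.pos (by rw [hL]; exact hCS.le) hCS.gs.pr
    rw [← hQ] at h1 h2 hQge
    -- the set of good `n`
    set Md : ℕ → Prop := fun n => ∃ j : Fin (2 * K), (j : ℕ) % 2 = 0 ∧ ∃ d : ℕ,
          Real.exp ((1 / 2 - ε) * L) ≤ d ∧ (d : ℝ) ≤ Real.exp ((1 / 2 + ε) * L) ∧ d ∣ n + t j with hMd
    set G := (Ioc ⌊X⌋₊ ⌊3 * X⌋₊).filter (fun n => n ≡ a0 [MOD 4 * V] ∧ Gd m K δ X V t n ∧ ¬ Md n) with hGdef
    have hGc : c0 / 2 * Q ≤ (#G : ℝ) := by
      have k1 : c0 * Q ≤ c0 / 2 * Q + (#G : ℝ) := by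
        refine h1.trans ?_
        have k2 : ∑ n ∈ Icc 1 ⌊3 * X⌋₊, nu X (4 * V) a0 n * (if Gd m K δ X V t n then 1 else 0) ≤
            ∑ n ∈ Icc 1 ⌊3 * X⌋₊, (nu X (4 * V) a0 n *
              (if (∀ i, RgW δ X (4 * V) (n + t i)) ∧ Md n then 1 else 0) + (if n ∈ G then 1 else 0)) := by
          apply sum_le_sum
          intro n hn
          rw [mem_Icc] at hn
          have hnn : 0 ≤ nu X (4 * V) a0 n * (if (∀ i, RgW δ X (4 * V) (n + t i)) ∧ Md n then (1:ℝ) else 0) := by
            apply mul_nonneg (nu_nonneg _ _ _ _)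
            split_ifs <;> norm_num
          by_cases hg : Gd m K δ X V t n
          · rw [if_pos hg, mul_one]
            by_cases hmd : Md n
            · rw [if_pos ⟨hg.2, hmd⟩, mul_one]
              have : (0:ℝ) ≤ if n ∈ G then 1 else 0 := by split_ifs <;> norm_num
              linarith
            · by_cases hn0 : nu X (4 * V) a0 n = 0
              · rw [hn0, zero_mul, zero_add]
                split_ifs <;> norm_num
              · have hna : n ≡ a0 [MOD 4 * V] := by
                  by_contra hcon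
                  apply hn0
                  unfold nu
                  rw [if_neg hcon]
                have hnX : ⌊X⌋₊ < n := by
                  rw [Nat.floor_lt hX0.le]
                  by_contra hcon
                  push Not at hcon
                  apply hn0
                  unfold nu
                  rw [Phi_eq_zero_of_le (by positivity) (by rw [div_le_one hX0]; exact hcon)]
                  split_ifs <;> rfl
                have hnG : n ∈ G := by
                  rw [hGdef, mem_filter, mem_Ioc]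
                  exact ⟨⟨hnX, hn.2⟩, hna, hg, hmd⟩
                rw [if_pos hnG]
                have hnu1 : nu X (4 * V) a0 n ≤ 1 := by
                  unfold nu
                  rw [if_pos hna]
                  exact Phi_le_one _
                linarith
          · rw [if_neg hg, mul_zero]
            have : (0:ℝ) ≤ if n ∈ G then 1 else 0 := by split_ifs <;> norm_num
            linarith
        refine k2.trans ?_
        rw [sum_add_distrib]
        apply add_le_add
        · exact h2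
        · rw [← sum_filter, sum_const, nsmul_eq_mul, mul_one]
          have : (Icc 1 ⌊3 * X⌋₊).filter (fun n => n ∈ G) ⊆ G := fun n hn => (mem_filter.1 hn).2
          exact_mod_cast card_le_card this
      linarith
    have hGc2 : X / L ^ (2 * K + 4) ≤ (#G : ℝ) := by
      refine le_trans ?_ (le_trans (mul_le_mul_of_nonneg_left hQge (by positivity)) hGc)
      rw [mul_div_assoc', div_le_div_iff₀ (by positivity) (by positivity)]
      have k1 : 40 ≤ L * c0 := by
        rw [div_le_iff₀ hc0] at h9; exact h9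
      have k2 : L ^ (2 * K + 4) = L ^ (3 + 2 * K) * L := by
        rw [← pow_succ]; congr 1; omega
      rw [k2]
      have k3 : 0 ≤ X * L ^ (3 + 2 * K) := by positivity
      calc X * (20 * L ^ (3 + 2 * K)) = 20 * (X * L ^ (3 + 2 * K)) := by ring
        _ ≤ (c0 / 2 * L) * (X * L ^ (3 + 2 * K)) := mul_le_mul_of_nonneg_right (by linarith) k3
        _ = _ := by ring
    -- the bad primes
    obtain ⟨B, hB1, hB2⟩ := small_order ⌊Real.exp (ε / 2 * L)⌋₊ ⌊Real.exp ((1 / 2 - ε) * L)⌋₊
    have hBc : (#B : ℝ) ≤ Real.exp ((1 - ε) * L) := by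
      have k1 : (#B : ℝ) ≤ (⌊Real.exp (ε / 2 * L)⌋₊ : ℝ) * ((⌊Real.exp ((1 / 2 - ε) * L)⌋₊ : ℝ) *
          ((⌊Real.exp ((1 / 2 - ε) * L)⌋₊ : ℝ) * (⌊Real.exp (ε / 2 * L)⌋₊ : ℝ))) := by exact_mod_cast hB1
      refine k1.trans ?_
      have k2 : (⌊Real.exp (ε / 2 * L)⌋₊ : ℝ) ≤ Real.exp (ε / 2 * L) := Nat.floor_le (Real.exp_pos _).le
      have k3 : (⌊Real.exp ((1 / 2 - ε) * L)⌋₊ : ℝ) ≤ Real.exp ((1 / 2 - ε) * L) := Nat.floor_le (Real.exp_pos _).le
      calc _ ≤ Real.exp (ε / 2 * L) * (Real.exp ((1 / 2 - ε) * L) *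
          (Real.exp ((1 / 2 - ε) * L) * Real.exp (ε / 2 * L))) := by gcongr
        _ = _ := by
            rw [← Real.exp_add, ← Real.exp_add, ← Real.exp_add]
            congr 1; ring
    -- good `n` without bad primes
    set G' := G.filter (fun n => ∀ p ∈ Ioc n (n + H), p ∉ B) with hG'
    have hG'c : X / L ^ (2 * K + 4) ≤ (#G' : ℝ) + (H + 1) * Real.exp ((1 - ε) * L) := by
      refine hGc2.trans ?_
      have k1 : G ⊆ G' ∪ B.biUnion (fun p => Icc (p - H) p) := by
        intro n hn
        rw [mem_union]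
        by_cases hb : ∀ p ∈ Ioc n (n + H), p ∉ B
        · left; rw [hG', mem_filter]; exact ⟨hn, hb⟩
        · right
          push Not at hb
          obtain ⟨p, hp, hpB⟩ := hb
          rw [mem_biUnion]
          rw [mem_Ioc] at hp
          exact ⟨p, hpB, mem_Icc.2 ⟨by omega, by omega⟩⟩
      have k2 := (card_le_card k1).trans ((card_union_le _ _).trans (Nat.add_le_add_left
        (card_biUnion_le.trans (sum_le_card_nsmul _ _ (H + 1) (fun p _ => by rw [Nat.card_Icc]; omega))) _))
      rw [smul_eq_mul] at k2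
      have k3 : (#G : ℝ) ≤ #G' + #B * (H + 1) := by exact_mod_cast k2
      refine k3.trans ?_
      have : (#B : ℝ) * (H + 1) ≤ Real.exp ((1 - ε) * L) * (H + 1) := by gcongr
      linarith
    have hG'2 : X / (2 * L ^ (2 * K + 4)) ≤ (#G' : ℝ) := by
      have k1 : (H + 1) * Real.exp ((1 - ε) * L) ≤ X / (2 * L ^ (2 * K + 4)) := by
        rw [le_div_iff₀ (by positivity)]
        have k2 : Real.exp ((1 - ε) * L) * Real.exp (ε * L) = X := by
          rw [← Real.exp_add, show (1 - ε) * L + ε * L = L by ring, hXe]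
        calc (H + 1) * Real.exp ((1 - ε) * L) * (2 * L ^ (2 * K + 4)) =
            Real.exp ((1 - ε) * L) * (2 * (H + 1) * L ^ (2 * K + 4)) := by ring
          _ ≤ Real.exp ((1 - ε) * L) * Real.exp (ε * L) := mul_le_mul_of_nonneg_left h4 (Real.exp_pos _).le
          _ = X := k2
      have k2 : X / L ^ (2 * K + 4) = X / (2 * L ^ (2 * K + 4)) + X / (2 * L ^ (2 * K + 4)) := by
        have : L ^ (2 * K + 4) ≠ 0 := by positivity
        field_simp; ring
      linarith
    have h3X : 3 * X / Real.log (3 * X) ^ (2 * K + 5) ≤ X / (2 * L ^ (2 * K + 4)) := by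
      have k1 : L ≤ Real.log (3 * X) := by
        rw [hL]; exact Real.log_le_log hX0 (by linarith)
      have k2 : L ^ (2 * K + 5) ≤ Real.log (3 * X) ^ (2 * K + 5) := pow_le_pow_left₀ (by linarith) k1 _
      calc 3 * X / Real.log (3 * X) ^ (2 * K + 5) ≤ 3 * X / L ^ (2 * K + 5) := by gcongr
        _ ≤ X / (2 * L ^ (2 * K + 4)) := by
            have e5 : L ^ (2 * K + 5) = L ^ (2 * K + 4) * L := pow_succ _ _
            rw [div_le_div_iff₀ (by positivity) (by positivity), e5]
            have e6 : 0 ≤ X * L ^ (2 * K + 4) := by positivity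
            calc 3 * X * (2 * L ^ (2 * K + 4)) = 6 * (X * L ^ (2 * K + 4)) := by ring
              _ ≤ L * (X * L ^ (2 * K + 4)) := mul_le_mul_of_nonneg_right (by linarith) e6
              _ = _ := by ring
    refine h3X.trans (hG'2.trans ?_)
    have hsub : G' ⊆ (Icc 1 ⌊3 * X⌋₊).filter (fun N => GoodB m H δ0 (3 * X) N) := by
      intro n hn
      rw [hG', mem_filter, hGdef, mem_filter, mem_Ioc] at hn
      obtain ⟨⟨⟨hnX, hn3X⟩, hna, hnG, hnM⟩, hnB⟩ := hn
      have hnX' : X < n := (Nat.floor_lt hX0.le).1 hnX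
      have hn3' : (n : ℝ) ≤ 3 * X := (Nat.le_floor_iff (by linarith)).1 hn3X
      have hnV : 4 * V < n := by
        have : ((4 * V : ℕ) : ℝ) < n := lt_of_le_of_lt h8 hnX'
        exact_mod_cast this
      obtain ⟨hstr1, hstr2⟩ := gd_str hC hna hnV hnG
      rw [mem_filter, mem_Icc]
      refine ⟨⟨by omega, hn3X⟩, by omega, ?_⟩
      intro p hp hpp
      obtain ⟨j, hj, hpj, hpj', hpc, hqbig⟩ := hstr2 p hp hpp
      have : Fact p.Prime := ⟨hpp⟩
      have hpn := mem_Ioc.1 hp
      have hpX : X < p := hnX'.trans (by exact_mod_cast hpn.1)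
      have hp4 : (p : ℝ) ≤ 4 * X := by
        have : (p : ℝ) ≤ n + H := by exact_mod_cast hpn.2
        linarith
      have hp8 : p % 8 = 3 := by
        have h2W : 2 ∣ Uni.WW y := (dvd_WW Nat.prime_two).2 (by omega)
        have h8W : 8 ∣ 4 * Uni.WW y := by
          obtain ⟨u, hu⟩ := h2W
          exact ⟨u, by omega⟩
        have k2 : p % 8 = c % 8 := hpc.of_dvd h8W
        omega
      have hp2 : p ≠ 2 := by omega
      -- powers of `3 X`
      have hl3 : Real.log (3 * X) ≤ 2 * L := by
        rw [Real.log_mul (by norm_num) hX0.ne', ← hL]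
        have : Real.log 3 ≤ 3 - 1 := Real.log_le_sub_one_of_pos (by norm_num)
        linarith
      have hx3 : (3 * X) ^ δ0 ≤ Real.exp (2 * δ0 * L) := by
        rw [Real.rpow_def_of_pos (by linarith)]
        apply Real.exp_le_exp.2
        calc Real.log (3 * X) * δ0 ≤ (2 * L) * δ0 := mul_le_mul_of_nonneg_right hl3 hδ0pos.le
          _ = _ := by ring
      have hbig : ∀ q : ℕ, q.Prime → q ∣ p - 1 → q ≠ 2 → (3 * X) ^ δ0 < q := by
        intro q hq hqd hq2
        refine lt_of_le_of_lt hx3 (lt_of_le_of_lt ?_ (hqbig q hq hqd hq2).2)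
        apply Real.exp_le_exp.2
        have : LL X = L / 200 := by rw [hL]; rfl
        rw [this]
        nlinarith
      have h22 : ¬ IsSquare (2 : ZMod p) := by
        rw [ZMod.exists_sq_eq_two_iff hp2]
        omega
      have h20 : (2 : ZMod p) ≠ 0 := by
        intro h
        apply h22
        rw [h]
        exact ⟨0, by ring⟩
      refine ⟨hp8, ?_, ?_, ?_⟩
      · intro q hq hqd
        have hq2 : q ≠ 2 := by
          rintro rfl
          omega
        exact hbig q hq (hqd.trans (Nat.div_dvd_of_dvd (by omega))) hq2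
      · intro q hq hqd
        have hod : orderOf (2 : ZMod p) ∣ p - 1 := ZMod.orderOf_dvd_card_sub_one h20
        have hq2 : q ≠ 2 := by
          rintro rfl
          apply h22
          rw [ZMod.euler_criterion p h20]
          apply orderOf_dvd_iff_pow_eq_one.1
          obtain ⟨w, hw⟩ := hqd
          have k1 : p - 1 = orderOf (2 : ZMod p) * (2 * w) := by
            rw [← hw]
            exact (Nat.mul_div_cancel' hod).symm
          refine ⟨w, ?_⟩
          have k2 : p / 2 = (p - 1) / 2 := by omega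
          rw [k2, k1]
          have : orderOf (2 : ZMod p) * (2 * w) = 2 * (orderOf (2 : ZMod p) * w) := by ring
          rw [this, Nat.mul_div_cancel_left _ (by norm_num)]
        exact hbig q hq (hqd.trans (Nat.div_dvd_of_dvd hod)) hq2
      · intro a ha2 hax
        have haL : (a : ℝ) ≤ Real.exp (ε / 2 * L) := by
          refine hax.trans (hx3.trans ?_)
          apply Real.exp_le_exp.2
          nlinarith
        have haX : a < p := by
          have k1 : Real.exp (ε / 2 * L) ≤ Real.exp L := by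
            apply Real.exp_le_exp.2
            nlinarith
          rw [hXe] at k1
          have : (a : ℝ) < p := by linarith
          exact_mod_cast this
        have ha0 : (a : ZMod p) ≠ 0 := by
          intro h
          rw [ZMod.natCast_eq_zero_iff] at h
          have := Nat.le_of_dvd (by omega) h
          omega
        have hod : orderOf (a : ZMod p) ∣ p - 1 := ZMod.orderOf_dvd_card_sub_one ha0
        have hg0 : 0 < orderOf (a : ZMod p) := by
          apply Nat.pos_of_dvd_of_pos hod
          have := hpp.two_le; omega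
        obtain ⟨g, hg⟩ : ∃ g, g = orderOf (a : ZMod p) := ⟨_, rfl⟩
        have hgp : (a : ZMod p) ^ g = 1 := by rw [hg]; exact pow_orderOf_eq_one _
        rw [← hg] at hod hg0 ⊢
        have hgY : ⌊Real.exp ((1 / 2 - ε) * L)⌋₊ < g := by
          by_contra hle
          push Not at hle
          exact hnB p hp (hB2 p hpp a ha2 (Nat.le_floor haL) g hg0 hle hgp)
        have hgl : Real.exp ((1 / 2 - ε) * L) ≤ g := ((Nat.floor_lt (Real.exp_pos _).le).1 hgY).le
        have hgu : Real.exp ((1 / 2 + ε) * L) < g := by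
          by_contra hle
          push Not at hle
          apply hnM
          exact ⟨j, hj, g, hgl, hle, by rw [← hpj]; exact hod⟩
        refine lt_of_le_of_lt ?_ hgu
        have hp0 : (0:ℝ) < p := by linarith
        rw [Real.rpow_def_of_pos hp0]
        apply Real.exp_le_exp.2
        have k1 : Real.log p ≤ L + 2 := by
          refine (Real.log_le_log hp0 hp4).trans ?_
          rw [Real.log_mul (by norm_num) hX0.ne', ← hL]
          have k2 : Real.log 4 = 2 * Real.log 2 := by
            rw [show (4:ℝ) = 2 ^ 2 by norm_num, Real.log_pow]; norm_num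
          have k3 : Real.log 2 ≤ 2 - 1 := Real.log_le_sub_one_of_pos (by norm_num)
          linarith
        have k4 : 4 ≤ ε * L := by
          rw [div_le_iff₀ hε] at h10; linarith
        have k5 : (1 / 2 + δ0) ≤ 1 / 2 + ε / 4 := by linarith
        calc Real.log p * (1 / 2 + δ0) ≤ (L + 2) * (1 / 2 + ε / 4) := by
              apply mul_le_mul k1 k5 (by positivity) (by linarith)
          _ ≤ (1 / 2 + ε) * L := by nlinarith
    exact_mod_cast card_le_card hsub
  have hdiv : Tendsto (fun x : ℝ => x / 3) atTop atTop := tendsto_id.atTop_div_const (by norm_num)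
  filter_upwards [hdiv.eventually hkey] with x hx
  have e : 3 * (x / 3) = x := by ring
  rw [e] at hx
  exact hx

end Pool.Agent.Y848.MS
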